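import Pool.Agent.H79.V.Me
import Pool.Graph.R_pool_sql_team_seeded_620a6dc7.helper24_UT_.Mj

/-! Exponential sums over a window near a fraction, in terms of shorter windows in progressions. -/

set_option autoImplicit false

namespace Pool.Agent.H79.V

open Finset
open Pool.Agent.helper24_UT
open Pool.Agent.H807R2.Dav (ee norm_ee)
open Pool.Agent.helper24_UT.Mj (h176_NN_nonneg h176_class h176_window)

lemma sw_triv (f : ℤ → ℝ) (W : ℕ) (u : ℤ) (α P : ℝ) (hP : 0 ≤ P) (hf : ∀ m, u < m → m ≤ u + W → |f m| ≤ P) :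
    ‖sw f W u α‖ ≤ W * P := by
  unfold sw
  refine (norm_sum_le _ _).trans ?_
  have h : ∀ m ∈ Ioc u (u + W), ‖(f m : ℂ) * ee (m * α)‖ ≤ P := by
    intro m hm
    rw [mem_Ioc] at hm
    rw [norm_mul, norm_ee, mul_one, Complex.norm_real, Real.norm_eq_abs]
    exact hf m hm.1 hm.2
  refine (sum_le_sum h).trans ?_
  rw [sum_const, Int.card_Ioc, nsmul_eq_mul]
  have : (u + (W : ℤ) - u).toNat = W := by omega
  rw [this]

/-- each point is in `W` windows -/
lemma sum_windows (g : ℤ → ℂ) (a : ℤ) (K W : ℕ) (hg : ∀ m, ¬ (a < m ∧ m ≤ a + K) → g m = 0) :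
    ∑ u ∈ Ico (a - W) (a + K), ∑ m ∈ Ioc u (u + W), g m = W * ∑ m ∈ Ioc a (a + K), g m := by
  have h1 : ∀ u ∈ Ico (a - W) (a + K), ∑ m ∈ Ioc u (u + W), g m =
      ∑ m ∈ Ioc a (a + K), if u < m ∧ m ≤ u + W then g m else 0 := by
    intro u _
    rw [← sum_filter]
    symm
    apply sum_subset_zero_on_sdiff
    · intro m hm
      rw [mem_filter] at hm
      exact mem_Ioc.2 hm.2
    · intro m hm
      rw [mem_sdiff, mem_filter, not_and] at hm
      apply hg
      intro h
      exact hm.2 (mem_Ioc.2 h) (mem_Ioc.1 hm.1)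
    · intro _ _; rfl
  rw [sum_congr rfl h1, sum_comm, mul_sum]
  refine sum_congr rfl fun m hm => ?_
  rw [mem_Ioc] at hm
  rw [← sum_filter]
  have h2 : (Ico (a - W) (a + K)).filter (fun u => u < m ∧ m ≤ u + W) = Ico (m - W) m := by
    ext u
    simp only [mem_filter, mem_Ico]
    omega
  rw [h2, sum_const, Int.card_Ico, nsmul_eq_mul]
  have : (m - (m - (W : ℤ))).toNat = W := by omega
  rw [this]

/-- exponential sums over a window near a fraction -/
theorem major_win (f : ℤ → ℝ) (a : ℤ) (K W q : ℕ) (c : ℤ) (α P : ℝ) (hP : 0 ≤ P) (hW : 1 ≤ W) (hq : 1 ≤ q)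
    (hf : ∀ m, a < m → m ≤ a + K → |f m| ≤ P) :
    ‖sw f K a α‖ ≤ (1 / W) * ∑ u ∈ Ico a (a + K), Real.sqrt (q * NN f u W q) +
      2 * Real.pi * K * W * |α - c / q| * P + 2 * W * P := by
  have hW0 : (0 : ℝ) < W := by exact_mod_cast hW
  set g : ℤ → ℝ := fun m => if a < m ∧ m ≤ a + K then f m else 0 with hg
  have hgP : ∀ m, |g m| ≤ P := by
    intro m
    rw [hg]; dsimp only
    split_ifs with h
    · exact hf m h.1 h.2
    · rw [abs_zero]; exact hP
  have h1 : sw f K a α = ∑ m ∈ Ioc a (a + K), (g m : ℂ) * ee (m * α) := by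
    unfold sw
    refine sum_congr rfl fun m hm => ?_
    rw [hg]; dsimp only
    rw [if_pos (mem_Ioc.1 hm)]
  have h2 := sum_windows (fun m => (g m : ℂ) * ee (m * α)) a K W (by
    intro m hm
    rw [hg]; dsimp only
    rw [if_neg hm]; simp)
  rw [← h1] at h2
  have h3 : (W : ℝ) * ‖sw f K a α‖ ≤ ∑ u ∈ Ico (a - W) (a + K), ‖sw g W u α‖ := by
    have e : (W : ℝ) * ‖sw f K a α‖ = ‖(W : ℂ) * sw f K a α‖ := by
      rw [norm_mul, Complex.norm_natCast]
    rw [e, ← h2]
    exact norm_sum_le _ _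
  -- split into inner windows and boundary windows
  have h4 : ∀ u ∈ Ico (a - W) (a + K), ‖sw g W u α‖ ≤
      (if a ≤ u then Real.sqrt (q * NN f u W q) + 2 * Real.pi * (W : ℝ) ^ 2 * |α - c / q| * P else 0) +
      (if u < a ∨ a + K < u + W then W * P else 0) := by
    intro u hu
    rw [mem_Ico] at hu
    by_cases hb : u < a ∨ a + K < u + W
    · rw [if_pos hb]
      have h5 := sw_triv g W u α P hP (fun m _ _ => hgP m)
      have h6 : 0 ≤ (if a ≤ u then Real.sqrt (q * NN f u W q) + 2 * Real.pi * (W : ℝ) ^ 2 * |α - c / q| * P else 0) := by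
        split_ifs
        · have := Real.pi_pos
          positivity
        · exact le_rfl
      linarith
    · rw [if_neg hb]
      push Not at hb
      rw [if_pos hb.1, add_zero]
      have h5 : sw g W u α = sw f W u α := by
        unfold sw
        refine sum_congr rfl fun m hm => ?_
        rw [mem_Ioc] at hm
        rw [hg]; dsimp only
        rw [if_pos (by omega)]
      rw [h5]
      have h6 := h176_window f u W q c α P hP (fun m h h' => hf m (by omega) (by omega))
      unfold sw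
      refine h6.trans ?_
      gcongr
      exact Real.le_sqrt_of_sq_le (h176_class f u W q c hq)
  have h5 := h3.trans (sum_le_sum h4)
  rw [sum_add_distrib, ← sum_filter, ← sum_filter] at h5
  have h6 : (Ico (a - W) (a + K)).filter (fun u => a ≤ u) = Ico a (a + K) := by
    ext u
    simp only [mem_filter, mem_Ico]
    omega
  have h7 : ((((Ico (a - W) (a + K)).filter (fun u => u < a ∨ a + K < u + W)).card : ℕ) : ℝ) ≤ 2 * W := by
    have h8 : (Ico (a - W) (a + K)).filter (fun u => u < a ∨ a + K < u + W) ⊆ Ico (a - W) a ∪ Ico (a + K - W) (a + K) := by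
      intro u hu
      simp only [mem_filter, mem_Ico, mem_union] at hu ⊢
      omega
    have h9 := (card_le_card h8).trans (card_union_le _ _)
    rw [Int.card_Ico, Int.card_Ico] at h9
    have h10 : ((Ico (a - W) (a + K)).filter (fun u => u < a ∨ a + K < u + W)).card ≤ 2 * W := by omega
    exact_mod_cast h10
  rw [h6, sum_add_distrib, sum_const, sum_const, nsmul_eq_mul, nsmul_eq_mul, Int.card_Ico] at h5
  have h8 : (a + (K : ℤ) - a).toNat = K := by omega
  rw [h8] at h5
  have h9 : (W : ℝ) * ‖sw f K a α‖ ≤ W * ((1 / W) * ∑ u ∈ Ico a (a + K), Real.sqrt (q * NN f u W q) +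
      2 * Real.pi * K * W * |α - c / q| * P + 2 * W * P) := by
    refine h5.trans ?_
    have h11 := mul_le_mul_of_nonneg_right h7 (show 0 ≤ (W : ℝ) * P by positivity)
    have h12 : (W : ℝ) * ((1 / W) * ∑ u ∈ Ico a (a + K), Real.sqrt (q * NN f u W q) +
      2 * Real.pi * K * W * |α - c / q| * P + 2 * W * P) = ∑ u ∈ Ico a (a + K), Real.sqrt (q * NN f u W q) +
      K * (2 * Real.pi * (W : ℝ) ^ 2 * |α - c / q| * P) + 2 * W * (W * P) := by
      field_simp
    rw [h12]
    linarith
  exact le_of_mul_le_mul_left h9 hW0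

end Pool.Agent.H79.V
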