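import Pool.Agent.H79.V.Six
import Pool.Graph.R_pool_sql_team_seeded_620a6dc7.helper24_UT_.Wpar

/-! The circle method for the values of a quadratic polynomial in a short block. -/

set_option autoImplicit false

namespace Pool.Agent.H79.V.Cir

open Finset
open Pool.Agent.helper24_UT
open Pool.Agent.H807R2.Dav (ee norm_ee ee_add)
open Pool.Agent.helper24_UT.Wpar (sum_period parseval conj_ee)
open Pool.Agent.H79.V.Six

/-- Parseval for a window -/
lemma pars (f : ℤ → ℝ) (K M : ℕ) (a : ℤ) (hM : 0 < M) (hK : K ≤ M) :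
    ∑ j ∈ range M, ‖sw f K a ((j : ℝ) / M)‖ ^ 2 = M * ∑ m ∈ Ioc a (a + K), f m ^ 2 := by
  have h := parseval M hM (Ioc a (a + K)) (by
    intro i hi j hj hd
    rw [mem_Ioc] at hi hj
    by_contra hne
    have h1 := Int.le_of_dvd (show 0 < |i - j| from abs_pos.2 (by omega)) ((dvd_abs _ _).2 hd)
    have h2 : |i - j| < K := by rw [abs_lt]; omega
    omega) (fun m => (f m : ℂ))
  have e1 : ∀ m : ℤ, ‖(f m : ℂ)‖ ^ 2 = f m ^ 2 := by
    intro m
    rw [Complex.norm_real, Real.norm_eq_abs, sq_abs]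
  simp_rw [e1] at h
  rw [← h]
  refine sum_congr rfl fun j _ => ?_
  congr 1
  rw [← RCLike.norm_conj (sw f K a ((j : ℝ) / M))]
  unfold sw
  rw [map_sum]
  congr 1
  refine sum_congr rfl fun m _ => ?_
  rw [map_mul, Complex.conj_ofReal, conj_ee]
  congr 2
  ring

/-- Cauchy for the product of two exponential sums -/
lemma prod_le (f g : ℤ → ℝ) (K K' M : ℕ) (a a' : ℤ) (hM : 0 < M) (hK : K ≤ M) (hK' : K' ≤ M) (V : ℝ)
    (hf : ∑ m ∈ Ioc a (a + K), f m ^ 2 ≤ V) (hg : ∑ m ∈ Ioc a' (a' + K'), g m ^ 2 ≤ V) :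
    ∑ j ∈ range M, ‖sw f K a ((j : ℝ) / M)‖ * ‖sw g K' a' ((j : ℝ) / M)‖ ≤ M * V := by
  have h1 := pars f K M a hM hK
  have h2 := pars g K' M a' hM hK'
  have h3 : ∀ j ∈ range M, ‖sw f K a ((j : ℝ) / M)‖ * ‖sw g K' a' ((j : ℝ) / M)‖ ≤
      (‖sw f K a ((j : ℝ) / M)‖ ^ 2 + ‖sw g K' a' ((j : ℝ) / M)‖ ^ 2) / 2 := by
    intro j _
    nlinarith [sq_nonneg (‖sw f K a ((j : ℝ) / M)‖ - ‖sw g K' a' ((j : ℝ) / M)‖)]
  refine (sum_le_sum h3).trans ?_
  rw [← sum_div, sum_add_distrib, h1, h2]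
  have hM0 : (0 : ℝ) < M := by exact_mod_cast hM
  nlinarith

/-- the exponential sum over the block -/
noncomputable def Aj (T : ℤ) (Y M : ℕ) (ε : ℕ → ℝ) (j : ℕ) : ℂ :=
  ∑ n ∈ range Y, (ε n : ℂ) * ee (-(((2 * qn T n : ℤ) : ℝ) * j / M))

lemma ee_add3 (x y z : ℝ) : ee (x + y + z) = ee x * ee y * ee z := by
  rw [ee_add, ee_add]

lemma six_mom (T : ℤ) (Y M : ℕ) (hT : 1 ≤ T) (hM : 6 * ((Y : ℤ) ^ 2 + T * Y) < M) (ε : ℕ → ℝ) (hε : ∀ n, |ε n| ≤ 1) :
    ∑ j ∈ range M, ‖Aj T Y M ε j‖ ^ 6 ≤ M * J6 T Y := by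
  classical
  have hM0 : 0 < M := by
    have : (0 : ℤ) ≤ (Y : ℤ) ^ 2 + T * Y := by positivity
    omega
  -- the cube
  set s : ℕ × ℕ × ℕ → ℤ := fun v => 2 * (qn T v.1 + qn T v.2.1 + qn T v.2.2) with hs
  set e3 : ℕ × ℕ × ℕ → ℝ := fun v => ε v.1 * ε v.2.1 * ε v.2.2 with he3
  set C : ℤ → ℝ := fun k => ∑ v ∈ (Tr Y).filter (fun v => s v = k), e3 v with hC
  have hcube : ∀ j : ℕ, Aj T Y M ε j ^ 3 = ∑ k ∈ (Tr Y).image s, (C k : ℂ) * ee (-((k : ℝ) * j / M)) := by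
    intro j
    have h1 : Aj T Y M ε j ^ 3 = ∑ v ∈ Tr Y, (e3 v : ℂ) * ee (-((s v : ℝ) * j / M)) := by
      unfold Tr
      rw [sum_product]
      simp_rw [sum_product]
      rw [show Aj T Y M ε j ^ 3 = Aj T Y M ε j * (Aj T Y M ε j * Aj T Y M ε j) by ring]
      unfold Aj
      rw [sum_mul_sum, sum_mul_sum]
      refine sum_congr rfl fun x _ => ?_
      refine sum_congr rfl fun y _ => ?_
      rw [mul_sum]
      refine sum_congr rfl fun w _ => ?_
      have e1 : (-((s (x, y, w) : ℝ) * j / M)) = -(((2 * qn T x : ℤ) : ℝ) * j / M) + -(((2 * qn T y : ℤ) : ℝ) * j / M) + -(((2 * qn T w : ℤ) : ℝ) * j / M) := by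
        rw [hs]
        push_cast
        ring
      rw [e1, ee_add3, he3]
      push_cast
      ring
    rw [h1, ← sum_fiberwise_of_maps_to (s := Tr Y) (t := (Tr Y).image s) (g := s) (fun v hv => mem_image_of_mem s hv)]
    refine sum_congr rfl fun k _ => ?_
    rw [hC]
    push_cast
    rw [sum_mul]
    refine sum_congr rfl fun v hv => ?_
    rw [(mem_filter.1 hv).2]
  have hrange : ∀ k ∈ (Tr Y).image s, 0 ≤ k ∧ k ≤ 6 * ((Y : ℤ) ^ 2 + T * Y) := by
    intro k hk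
    rw [mem_image] at hk
    obtain ⟨v, hv, rfl⟩ := hk
    unfold Tr at hv
    simp only [mem_product, mem_range] at hv
    have h1 : ∀ n : ℕ, n < Y → 0 ≤ qn T n ∧ qn T n ≤ (Y : ℤ) ^ 2 + T * Y := by
      intro n hn
      have h2 : (n : ℤ) ≤ Y := by exact_mod_cast hn.le
      have h3 : (0 : ℤ) ≤ n := Nat.cast_nonneg n
      unfold qn
      constructor
      · positivity
      · nlinarith
    have h2 := h1 _ hv.1
    have h3 := h1 _ hv.2.1
    have h4 := h1 _ hv.2.2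
    rw [hs]
    dsimp only
    constructor <;> linarith
  have h1 := parseval M hM0 ((Tr Y).image s) (by
    intro i hi j hj hd
    have hi' := hrange i hi
    have hj' := hrange j hj
    by_contra hne
    have h1 := Int.le_of_dvd (show 0 < |i - j| from abs_pos.2 (by omega)) ((dvd_abs _ _).2 hd)
    have h2 : |i - j| ≤ 6 * ((Y : ℤ) ^ 2 + T * Y) := by rw [abs_le]; constructor <;> linarith [hi'.1, hi'.2, hj'.1, hj'.2]
    omega) (fun k => (C k : ℂ))
  have h2 : ∑ j ∈ range M, ‖Aj T Y M ε j‖ ^ 6 = M * ∑ k ∈ (Tr Y).image s, ‖(C k : ℂ)‖ ^ 2 := by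
    rw [← h1]
    refine sum_congr rfl fun j _ => ?_
    rw [← hcube j, norm_pow]
    ring
  rw [h2]
  apply mul_le_mul_of_nonneg_left _ (Nat.cast_nonneg _)
  have h3 : ∀ k ∈ (Tr Y).image s, ‖(C k : ℂ)‖ ^ 2 ≤ (((Tr Y).filter (fun v => s v = k)).card : ℝ) ^ 2 := by
    intro k _
    rw [Complex.norm_real]
    apply pow_le_pow_left₀ (norm_nonneg _)
    rw [hC]
    refine (norm_sum_le _ _).trans ?_
    have h4 : ∀ v ∈ (Tr Y).filter (fun v => s v = k), ‖e3 v‖ ≤ 1 := by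
      intro v _
      rw [he3]
      dsimp only
      rw [norm_mul, norm_mul, Real.norm_eq_abs, Real.norm_eq_abs, Real.norm_eq_abs]
      have a1 := hε v.1
      have a2 := hε v.2.1
      have a3 := hε v.2.2
      have b1 := abs_nonneg (ε v.1)
      have b2 := abs_nonneg (ε v.2.1)
      have b3 := abs_nonneg (ε v.2.2)
      calc |ε v.1| * |ε v.2.1| * |ε v.2.2| ≤ 1 * 1 * 1 := by gcongr
        _ = 1 := by ring
    refine (sum_le_sum h4).trans ?_
    rw [sum_const, nsmul_eq_mul, mul_one]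
  refine (sum_le_sum h3).trans ?_
  unfold J6
  rw [card_filter]
  push_cast
  rw [sum_product]
  have h5 : ∀ v ∈ Tr Y, (∑ w ∈ Tr Y, if qn T v.1 + qn T v.2.1 + qn T v.2.2 = qn T w.1 + qn T w.2.1 + qn T w.2.2 then (1 : ℝ) else 0) =
      (((Tr Y).filter (fun w => s w = s v)).card : ℝ) := by
    intro v _
    rw [card_filter]
    push_cast
    refine sum_congr rfl fun w _ => ?_
    congr 1
    apply propext
    rw [hs]
    dsimp only
    constructor <;> intro h <;> omega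
  rw [sum_congr rfl h5, ← sum_fiberwise_of_maps_to (s := Tr Y) (t := (Tr Y).image s) (g := s) (fun v hv => mem_image_of_mem s hv)]
  apply sum_le_sum
  intro k _
  have h6 : ∀ v ∈ (Tr Y).filter (fun v => s v = k), (((Tr Y).filter (fun w => s w = s v)).card : ℝ) = (((Tr Y).filter (fun w => s w = k)).card : ℝ) := by
    intro v hv
    rw [(mem_filter.1 hv).2]
  rw [sum_congr rfl h6, sum_const, nsmul_eq_mul, sq]

/-- Hölder's inequality with the weights `u` -/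
lemma holder {ι : Type*} (s : Finset ι) (u x : ι → ℝ) (hu : ∀ i ∈ s, 0 ≤ u i) (hx : ∀ i ∈ s, 0 ≤ x i) :
    (∑ i ∈ s, u i * x i) ^ 6 ≤ (∑ i ∈ s, u i) ^ 5 * ∑ i ∈ s, u i * x i ^ 6 := by
  set U : ℝ := ∑ i ∈ s, u i with hU
  have hU0 : 0 ≤ U := sum_nonneg hu
  rcases hU0.lt_or_eq with h | h
  · have h1 := Real.pow_arith_mean_le_arith_mean_pow s (fun i => u i / U) x (fun i hi => div_nonneg (hu i hi) hU0)
      (by rw [← sum_div, ← hU, div_self h.ne']) hx 6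
    have h2 : ∑ i ∈ s, u i / U * x i = (∑ i ∈ s, u i * x i) / U := by
      rw [sum_div]
      refine sum_congr rfl fun i _ => by ring
    have h3 : ∑ i ∈ s, u i / U * x i ^ 6 = (∑ i ∈ s, u i * x i ^ 6) / U := by
      rw [sum_div]
      refine sum_congr rfl fun i _ => by ring
    rw [h2, h3, div_pow, div_le_div_iff₀ (by positivity) h] at h1
    have h4 : (∑ i ∈ s, u i * x i) ^ 6 * U ≤ (U ^ 5 * ∑ i ∈ s, u i * x i ^ 6) * U := by
      calc _ ≤ (∑ i ∈ s, u i * x i ^ 6) * U ^ 6 := h1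
        _ = _ := by ring
    exact le_of_mul_le_mul_right h4 h
  · have h1 : ∀ i ∈ s, u i = 0 := by
      apply (sum_eq_zero_iff_of_nonneg hu).1
      rw [← hU, ← h]
    have h2 : ∑ i ∈ s, u i * x i = 0 := sum_eq_zero fun i hi => by rw [h1 i hi, zero_mul]
    have h3 : ∑ i ∈ s, u i * x i ^ 6 = 0 := sum_eq_zero fun i hi => by rw [h1 i hi, zero_mul]
    rw [h2, h3]
    norm_num

/-- the number of representations, with weights -/
noncomputable def rr (f g : ℤ → ℝ) (a : ℤ) (K : ℕ) (v : ℤ) : ℝ := ∑ m ∈ Ioc a (a + K), f m * g (v - m)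

/-- the circle method -/
theorem circle (f g : ℤ → ℝ) (a a' : ℤ) (K K' Y : ℕ) (T c : ℤ) (hT : 1 ≤ T) (D G V : ℝ) (hV : 0 ≤ V)
    (hsupp : ∀ n ∈ range Y, ∀ m, a < m → m ≤ a + K → a' < c + 2 * qn T n - m ∧ c + 2 * qn T n - m ≤ a' + K')
    (hD : ∀ α, ‖sw f K a α‖ ≤ D) (hG : ∀ α, ‖sw g K' a' α‖ ≤ G)
    (hf : ∑ m ∈ Ioc a (a + K), f m ^ 2 ≤ V) (hg : ∑ m ∈ Ioc a' (a' + K'), g m ^ 2 ≤ V) :
    (∑ n ∈ range Y, |rr f g a K (c + 2 * qn T n)|) ^ 6 ≤ V ^ 5 * (D * G) * J6 T Y := by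
  classical
  -- a large modulus
  obtain ⟨M, hM1, hM2⟩ : ∃ M : ℕ, 6 * ((Y : ℤ) ^ 2 + T * Y) + |a| + |a'| + |c| + 2 * K + 2 * K' < M ∧ 0 < M := by
    refine ⟨(6 * ((Y : ℤ) ^ 2 + T * Y) + |a| + |a'| + |c| + 2 * K + 2 * K').toNat + 1, by omega, by omega⟩
  have hTY : (0 : ℤ) ≤ (Y : ℤ) ^ 2 + T * Y := by positivity
  have ha0 := abs_nonneg a
  have ha0' := abs_nonneg a'
  have hc0 := abs_nonneg c
  have hM0 : (0 : ℝ) < M := by exact_mod_cast hM2
  -- signs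
  set ε : ℕ → ℝ := fun n => if 0 ≤ rr f g a K (c + 2 * qn T n) then 1 else -1 with hε
  have hε1 : ∀ n, |ε n| ≤ 1 := by
    intro n
    rw [hε]
    dsimp only
    split_ifs <;> norm_num
  have hεr : ∀ n, |rr f g a K (c + 2 * qn T n)| = ε n * rr f g a K (c + 2 * qn T n) := by
    intro n
    rw [hε]
    dsimp only
    split_ifs with h
    · rw [abs_of_nonneg h, one_mul]
    · rw [abs_of_neg (lt_of_not_ge h)]; ring
  -- the representation as a sum over `j`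
  have horth : ∀ n ∈ range Y, ((M * rr f g a K (c + 2 * qn T n) : ℝ) : ℂ) =
      ∑ j ∈ range M, sw f K a ((j : ℝ) / M) * sw g K' a' ((j : ℝ) / M) * ee (-(((c + 2 * qn T n : ℤ) : ℝ) * j / M)) := by
    intro n hn
    have h1 : ∀ j ∈ range M, sw f K a ((j : ℝ) / M) * sw g K' a' ((j : ℝ) / M) * ee (-(((c + 2 * qn T n : ℤ) : ℝ) * j / M)) =
        ∑ m ∈ Ioc a (a + K), ∑ k ∈ Ioc a' (a' + K'), ((f m : ℂ) * (g k : ℂ)) * ee (((m + k - (c + 2 * qn T n) : ℤ) : ℝ) * j / M) := by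
      intro j _
      unfold sw
      rw [sum_mul_sum, sum_mul]
      refine sum_congr rfl fun m _ => ?_
      rw [sum_mul]
      refine sum_congr rfl fun k _ => ?_
      have e1 : (((m + k - (c + 2 * qn T n) : ℤ) : ℝ) * j / M) = (m : ℝ) * ((j : ℝ) / M) + (k : ℝ) * ((j : ℝ) / M) + -(((c + 2 * qn T n : ℤ) : ℝ) * j / M) := by
        push_cast
        ring
      rw [e1, ee_add3]
      ring
    have e0 : ((M * rr f g a K (c + 2 * qn T n) : ℝ) : ℂ) =
        ∑ m ∈ Ioc a (a + K), (M : ℂ) * ((f m : ℂ) * (g (c + 2 * qn T n - m) : ℂ)) := by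
      unfold rr
      push_cast
      rw [mul_sum]
    rw [e0, sum_congr rfl h1, sum_comm]
    refine sum_congr rfl fun m hm => ?_
    rw [sum_comm]
    rw [mem_Ioc] at hm
    obtain ⟨s1, s2⟩ := hsupp n hn m hm.1 hm.2
    rw [sum_eq_single_of_mem (c + 2 * qn T n - m) (mem_Ioc.2 ⟨s1, s2⟩)]
    · rw [← mul_sum, sum_period M hM2, if_pos (by ring_nf; exact dvd_zero _)]
      ring
    · intro k hk hkn
      rw [mem_Ioc] at hk
      rw [← mul_sum, sum_period M hM2, if_neg, mul_zero]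
      intro hd
      have h2 : m + k - (c + 2 * qn T n) ≠ 0 := by omega
      have h3 := Int.le_of_dvd (abs_pos.2 h2) ((dvd_abs _ _).2 hd)
      have h4 : |m + k - (c + 2 * qn T n)| < K' := by
        rw [abs_lt]; omega
      omega
  set A : ℕ → ℂ := Aj T Y M ε with hA
  have hsum : ((M * ∑ n ∈ range Y, |rr f g a K (c + 2 * qn T n)| : ℝ) : ℂ) =
      ∑ j ∈ range M, (sw f K a ((j : ℝ) / M) * sw g K' a' ((j : ℝ) / M) * ee (-((c : ℝ) * j / M))) * A j := by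
    have h1 : ((M * ∑ n ∈ range Y, |rr f g a K (c + 2 * qn T n)| : ℝ) : ℂ) =
        ∑ n ∈ range Y, (ε n : ℂ) * ((M * rr f g a K (c + 2 * qn T n) : ℝ) : ℂ) := by
      rw [sum_congr rfl fun n _ => hεr n]
      push_cast
      rw [mul_sum]
      refine sum_congr rfl fun n _ => by ring
    rw [h1, sum_congr rfl fun n hn => by rw [horth n hn, mul_sum], sum_comm]
    refine sum_congr rfl fun j _ => ?_
    rw [hA]
    unfold Aj
    rw [mul_sum]
    refine sum_congr rfl fun n _ => ?_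
    have e1 : -(((c + 2 * qn T n : ℤ) : ℝ) * j / M) = -((c : ℝ) * j / M) + -(((2 * qn T n : ℤ) : ℝ) * j / M) := by
      push_cast
      ring
    rw [e1, ee_add]
    ring
  set u : ℕ → ℝ := fun j => ‖sw f K a ((j : ℝ) / M)‖ * ‖sw g K' a' ((j : ℝ) / M)‖ with hu
  have hu0 : ∀ j ∈ range M, 0 ≤ u j := fun j _ => by positivity
  have hle : M * ∑ n ∈ range Y, |rr f g a K (c + 2 * qn T n)| ≤ ∑ j ∈ range M, u j * ‖A j‖ := by
    have h0 : 0 ≤ M * ∑ n ∈ range Y, |rr f g a K (c + 2 * qn T n)| :=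
      mul_nonneg hM0.le (sum_nonneg fun _ _ => abs_nonneg _)
    rw [← Real.norm_of_nonneg h0, ← Complex.norm_real, hsum]
    refine (norm_sum_le _ _).trans (sum_le_sum fun j _ => ?_)
    rw [norm_mul, norm_mul, norm_mul, norm_ee, mul_one]
  have h1 := holder (range M) u (fun j => ‖A j‖) hu0 (fun _ _ => norm_nonneg _)
  have h2 : ∑ j ∈ range M, u j ≤ M * V := prod_le f g K K' M a a' hM2 (by omega) (by omega) V hf hg
  have hD0 : 0 ≤ D := (norm_nonneg _).trans (hD 0)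
  have hG0 : 0 ≤ G := (norm_nonneg _).trans (hG 0)
  have h3 : ∑ j ∈ range M, u j * ‖A j‖ ^ 6 ≤ (D * G) * (M * J6 T Y) := by
    have h4 : ∀ j ∈ range M, u j * ‖A j‖ ^ 6 ≤ (D * G) * ‖A j‖ ^ 6 := by
      intro j _
      apply mul_le_mul_of_nonneg_right _ (by positivity)
      exact mul_le_mul (hD _) (hG _) (norm_nonneg _) hD0
    refine (sum_le_sum h4).trans ?_
    rw [← mul_sum]
    apply mul_le_mul_of_nonneg_left _ (by positivity)
    exact six_mom T Y M hT (by omega) ε hε1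
  have h5 : (M * ∑ n ∈ range Y, |rr f g a K (c + 2 * qn T n)|) ^ 6 ≤ (M * V) ^ 5 * ((D * G) * (M * J6 T Y)) := by
    have h0 : 0 ≤ M * ∑ n ∈ range Y, |rr f g a K (c + 2 * qn T n)| :=
      mul_nonneg hM0.le (sum_nonneg fun _ _ => abs_nonneg _)
    have h7 : 0 ≤ ∑ j ∈ range M, u j := sum_nonneg hu0
    calc (M * ∑ n ∈ range Y, |rr f g a K (c + 2 * qn T n)|) ^ 6 ≤ (∑ j ∈ range M, u j * ‖A j‖) ^ 6 := pow_le_pow_left₀ h0 hle 6
      _ ≤ (∑ j ∈ range M, u j) ^ 5 * ∑ j ∈ range M, u j * ‖A j‖ ^ 6 := h1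
      _ ≤ (M * V) ^ 5 * ((D * G) * (M * J6 T Y)) := by
          apply mul_le_mul (pow_le_pow_left₀ h7 h2 5) h3 _ (by positivity)
          exact sum_nonneg fun j hj => mul_nonneg (hu0 j hj) (by positivity)
  have h6 : (M : ℝ) ^ 6 * (∑ n ∈ range Y, |rr f g a K (c + 2 * qn T n)|) ^ 6 ≤ (M : ℝ) ^ 6 * (V ^ 5 * (D * G) * J6 T Y) := by
    calc _ = (M * ∑ n ∈ range Y, |rr f g a K (c + 2 * qn T n)|) ^ 6 := by ring
      _ ≤ _ := h5
      _ = _ := by ring
  exact le_of_mul_le_mul_left h6 (by positivity)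

end Pool.Agent.H79.V.Cir
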