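import Pool.Agent.H79.V.Bl
import Pool.Agent.H79.V.Cir

/-! The representations of the values of the quadratic polynomial in one cell, primes against model, in a good block. -/

set_option autoImplicit false

namespace Pool.Agent.H79.V

open Finset
open Pool.Agent.helper24_UT
open Pool.Agent.H807R2.Dav (ee norm_ee)
open Pool.Agent.H373R2.T7 (lamI lamzI lamz Vz pz mem_pz ev_log' ev_L' Vz_pos Vz_inv_small lamI_nonneg lamzI_nonneg)
open Pool.Agent.H79.V.Six (qn J6 six)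
open Pool.Agent.H79.V.Cir (rr circle)

lemma lamI_bd (m : ℤ) (L Y : ℝ) (hL : 0 ≤ L) (hm : (m : ℝ) ≤ Y) (hY : Real.log Y ≤ 3 * L) : |lamI m| ≤ 3 * L := by
  rw [abs_of_nonneg (lamI_nonneg m)]
  unfold lamI
  split_ifs with hc
  · refine ArithmeticFunction.vonMangoldt_le_log.trans (le_trans ?_ hY)
    apply Real.log_le_log
    · exact_mod_cast (by omega : 0 < m.toNat)
    · have e1 : ((m.toNat : ℤ) : ℝ) = (m : ℝ) := by
        rw [Int.toNat_of_nonneg (by omega)]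
      have e2 : ((m.toNat : ℕ) : ℝ) = (m : ℝ) := by
        rw [← e1]; norm_cast
      rw [e2]; exact hm
  · linarith

lemma lamzI_bd (z : ℕ) (m : ℤ) (L : ℝ) (hL : 0 ≤ L) (hV : (Vz z)⁻¹ ≤ L) : |lamzI z m| ≤ 3 * L := by
  rw [abs_of_nonneg (lamzI_nonneg z m)]
  unfold lamzI
  split_ifs with hc
  · have := (lamz_bd z m.toNat).2
    linarith
  · linarith

lemma sq_sum (f : ℤ → ℝ) (a : ℤ) (K : ℕ) (P : ℝ) (hf : ∀ m, a < m → m ≤ a + K → |f m| ≤ P) :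
    ∑ m ∈ Ioc a (a + K), f m ^ 2 ≤ K * P ^ 2 := by
  have h : ∀ m ∈ Ioc a (a + K), f m ^ 2 ≤ P ^ 2 := by
    intro m hm
    rw [mem_Ioc] at hm
    rw [← sq_abs]
    exact pow_le_pow_left₀ (abs_nonneg _) (hf m hm.1 hm.2) 2
  refine (sum_le_sum h).trans ?_
  rw [sum_const, Int.card_Ioc, nsmul_eq_mul]
  have : (a + (K : ℤ) - a).toNat = K := by omega
  rw [this]

lemma rr_sub (f f' g g' : ℤ → ℝ) (a : ℤ) (K : ℕ) (v : ℤ) :
    rr f g a K v - rr f' g' a K v = rr (fun m => f m - f' m) g a K v + rr f' (fun m => g m - g' m) a K v := by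
  unfold rr
  rw [← sum_sub_distrib, ← sum_add_distrib]
  refine sum_congr rfl fun m _ => by ring

lemma an_num (L h X Y J S : ℝ) (A d : ℕ) (hL : 1000 ≤ L) (hh : 0 < h) (hX : 0 < X) (hY : 0 < Y)
    (hd : d = 6 * (A + 1) + 19) (hJ0 : 0 ≤ J) (hJ : J ≤ 192 * L ^ 2 * (Y ^ 5 / X)) (hh2 : h ≤ X * Y * L ^ 2) (hS0 : 0 ≤ S)
    (hS : S ^ 6 ≤ (18 * h * L ^ 2) ^ 5 * (h / L ^ d * (6 * h * L)) * J) : S ≤ h * Y / L ^ (A + 1) := by
  have hL0 : 0 < L := by linarith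
  have h1 : (18 * h * L ^ 2) ^ 5 * (h / L ^ d * (6 * h * L)) * J ≤ (h * Y / L ^ (A + 1)) ^ 6 := by
    have e1 : Y ^ 5 / X * h ≤ Y ^ 6 * L ^ 2 := by
      rw [div_mul_eq_mul_div, div_le_iff₀ hX]
      calc Y ^ 5 * h ≤ Y ^ 5 * (X * Y * L ^ 2) := by gcongr
        _ = _ := by ring
    calc (18 * h * L ^ 2) ^ 5 * (h / L ^ d * (6 * h * L)) * J
        ≤ (18 * h * L ^ 2) ^ 5 * (h / L ^ d * (6 * h * L)) * (192 * L ^ 2 * (Y ^ 5 / X)) := by gcongr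
      _ = 2176782336 * L ^ 13 / L ^ d * h ^ 6 * (Y ^ 5 / X * h) := by
          field_simp
          ring
      _ ≤ 2176782336 * L ^ 13 / L ^ d * h ^ 6 * (Y ^ 6 * L ^ 2) := by gcongr
      _ = 2176782336 * L ^ 15 / L ^ d * (h ^ 6 * Y ^ 6) := by ring
      _ ≤ L ^ 19 / L ^ d * (h ^ 6 * Y ^ 6) := by
          have e2 : (2176782336 : ℝ) * L ^ 15 ≤ L ^ 19 := by
            rw [show 19 = 4 + 15 by norm_num, pow_add L 4 15]
            apply mul_le_mul_of_nonneg_right _ (by positivity)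
            calc (2176782336 : ℝ) ≤ 1000 ^ 4 := by norm_num
              _ ≤ L ^ 4 := pow_le_pow_left₀ (by norm_num) hL 4
          gcongr
      _ = (h * Y / L ^ (A + 1)) ^ 6 := by
          rw [hd, show 6 * (A + 1) + 19 = (A + 1) * 6 + 19 by ring, pow_add L ((A + 1) * 6) 19, pow_mul]
          field_simp
  exact le_of_pow_le_pow_left₀ (by norm_num) (by positivity) (hS.trans h1)

/-- primes against model in one cell -/
theorem cell (A a1 : ℕ) : ∀ E : ℕ, ∃ X₀ : ℕ, ∀ X : ℕ, X₀ ≤ X → ∀ z : ℕ, 1 ≤ z → (z : ℝ) ≤ (Real.log X) ^ E →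
    ∀ h Y N₀ : ℕ, X ≤ N₀ → N₀ ≤ 2 * X → 32 * h ≤ X ^ 2 → 32 * (X * Y) ≤ h → (h : ℝ) ≤ X * Y * (Real.log X) ^ 2 → X ≤ Y ^ 2 → Y ≤ X →
    GB z X h (6 * (A + 1) + 19) a1 N₀ → ∀ a a' : ℕ, a' + a + h + 1 = 2 * N₀ ^ 2 + 2 * N₀ + 2 → X ^ 2 ≤ 4 * a → a ≤ 12 * X ^ 2 →
    X ^ 2 ≤ 4 * a' → a' ≤ 12 * X ^ 2 → |(a : ℝ) - cen N₀| ≤ Real.log X ^ a1 * h → |(a' : ℝ) - cen N₀| ≤ Real.log X ^ a1 * h →
    ∑ n ∈ range Y, |rr lamI lamI a h (2 * ((N₀ + n : ℕ) : ℤ) ^ 2 + 2 * (N₀ + n : ℕ) + 2) -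
      rr (lamzI z) (lamzI z) a h (2 * ((N₀ + n : ℕ) : ℤ) ^ 2 + 2 * (N₀ + n : ℕ) + 2)| ≤ (h : ℝ) * Y / (Real.log X) ^ A := by
  intro E
  obtain ⟨X₂, h2⟩ := Vz_inv_small E
  obtain ⟨X₃, h3⟩ := ev_L' 1000
  refine ⟨max X₂ (max X₃ 16), ?_⟩
  intro X hX z hz hzE h Y N₀ hN1 hN2 hh hXY hhXY hXY2 hYX hGB a a' haa ha1 ha2 ha1' ha2' hac hac'
  have c2 : X₂ ≤ X := (le_max_left _ _).trans hX
  have c3 : X₃ ≤ X := ((le_max_left _ _).trans (le_max_right _ _)).trans hX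
  have c4 : 16 ≤ X := ((le_max_right _ _).trans (le_max_right _ _)).trans hX
  have hV := h2 X c2 z hz hzE
  have hL := h3 X c3
  set L : ℝ := Real.log X with hLdef
  have hL0 : 0 < L := by linarith
  have hX1 : (16 : ℝ) ≤ X := by exact_mod_cast c4
  have hX0 : (0 : ℝ) < X := by linarith
  have hY1 : 1 ≤ Y := by
    by_contra h0
    have : Y = 0 := by omega
    rw [this] at hXY2
    omega
  have hY0 : (0 : ℝ) < Y := by exact_mod_cast hY1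
  have hh0 : (0 : ℝ) < h := by
    have : 0 < X * Y := Nat.mul_pos (by omega) hY1
    have : 0 < h := by omega
    exact_mod_cast this
  set T : ℤ := 2 * (N₀ : ℤ) + 1 with hT
  set c : ℤ := 2 * (N₀ : ℤ) ^ 2 + 2 * N₀ + 2 with hc
  have hval : ∀ n : ℕ, 2 * ((N₀ + n : ℕ) : ℤ) ^ 2 + 2 * (N₀ + n : ℕ) + 2 = c + 2 * qn T n := by
    intro n
    rw [hc, hT]
    unfold qn
    push_cast
    ring
  simp_rw [hval]
  -- the second window
  set K' : ℕ := h + 1 + 2 * (Y ^ 2 + (2 * N₀ + 1) * Y) with hK'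
  have hK'2 : K' ≤ 2 * h := by
    have e1 : Y ^ 2 ≤ X * Y := by nlinarith
    have e2 : (2 * N₀ + 1) * Y ≤ 5 * (X * Y) := by nlinarith
    have e3 : 16 ≤ X * Y := by nlinarith
    omega
  have hhX : h ≤ X ^ 2 := by omega
  have hK'X : K' ≤ X ^ 2 := by omega
  have hqn : ∀ n : ℕ, n < Y → 0 ≤ qn T n ∧ qn T n ≤ (Y : ℤ) ^ 2 + T * Y := by
    intro n hn
    have h2 : (n : ℤ) ≤ Y := by exact_mod_cast hn.le
    have h3 : (0 : ℤ) ≤ n := Nat.cast_nonneg n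
    have hT0 : 0 ≤ T := by rw [hT]; positivity
    unfold qn
    constructor
    · positivity
    · nlinarith
  have haaZ : (a' : ℤ) + a + h + 1 = c := by
    rw [hc]
    exact_mod_cast haa
  have hsupp : ∀ n ∈ range Y, ∀ m : ℤ, (a : ℤ) < m → m ≤ (a : ℤ) + h →
      (a' : ℤ) < c + 2 * qn T n - m ∧ c + 2 * qn T n - m ≤ (a' : ℤ) + K' := by
    intro n hn m hm1 hm2
    have h4 := hqn n (mem_range.1 hn)
    have e1 : (K' : ℤ) = h + 1 + 2 * ((Y : ℤ) ^ 2 + T * Y) := by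
      rw [hK', hT]
      push_cast
      ring
    rw [e1]
    constructor <;> linarith [h4.1, h4.2]
  -- pointwise bounds
  have hlog13 : Real.log (13 * (X : ℝ) ^ 2) ≤ 3 * L := by
    rw [Real.log_mul (by norm_num) (by positivity), Real.log_pow]
    have : Real.log 13 ≤ 12 := by
      have := Real.log_le_sub_one_of_pos (show (0 : ℝ) < 13 by norm_num)
      linarith
    push_cast
    linarith
  have hm13 : ∀ (b K : ℕ) (m : ℤ), b ≤ 12 * X ^ 2 → K ≤ X ^ 2 → m ≤ (b : ℤ) + K → (m : ℝ) ≤ 13 * (X : ℝ) ^ 2 := by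
    intro b K m hb hK hm
    have e1 : (b : ℤ) ≤ 12 * (X : ℤ) ^ 2 := by exact_mod_cast hb
    have e2 : (K : ℤ) ≤ (X : ℤ) ^ 2 := by exact_mod_cast hK
    have h5 : m ≤ 13 * (X : ℤ) ^ 2 := by linarith
    exact_mod_cast h5
  have bL : ∀ (b K : ℕ), b ≤ 12 * X ^ 2 → K ≤ X ^ 2 → ∀ m : ℤ, (b : ℤ) < m → m ≤ (b : ℤ) + K → |lamI m| ≤ 3 * L :=
    fun b K hb hK m _ hm => lamI_bd m L _ hL0.le (hm13 b K m hb hK hm) hlog13
  have bZ : ∀ m : ℤ, |lamzI z m| ≤ 3 * L := fun m => lamzI_bd z m L hL0.le hV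
  have bE : ∀ (b K : ℕ), b ≤ 12 * X ^ 2 → K ≤ X ^ 2 → ∀ m : ℤ, (b : ℤ) < m → m ≤ (b : ℤ) + K → |Ed z m| ≤ 3 * L :=
    fun b K hb hK m _ hm => Pool.Agent.helper24_UT.Mk.Ed_bound z m L _ hL0.le (hm13 b K m hb hK hm) hlog13 hV
  have hLh : ∀ K : ℕ, K ≤ 2 * h → (K : ℝ) * (3 * L) ^ 2 ≤ 18 * h * L ^ 2 := by
    intro K hK
    have e1 : (K : ℝ) ≤ 2 * h := by exact_mod_cast hK
    calc (K : ℝ) * (3 * L) ^ 2 ≤ (2 * h) * (3 * L) ^ 2 := by gcongr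
      _ = _ := by ring
  have hLh1 : ∀ K : ℕ, K ≤ 2 * h → (K : ℝ) * (3 * L) ≤ 6 * h * L := by
    intro K hK
    have e1 : (K : ℝ) ≤ 2 * h := by exact_mod_cast hK
    calc (K : ℝ) * (3 * L) ≤ (2 * h) * (3 * L) := by gcongr
      _ = _ := by ring
  have hT1 : 1 ≤ T := by rw [hT]; omega
  -- the sixth moment
  have hJ : (J6 T Y : ℝ) ≤ 192 * L ^ 2 * ((Y : ℝ) ^ 5 / X) := by
    refine (six T Y hT1 hY1).trans ?_
    have e1 : (2 * X : ℝ) ≤ (T : ℝ) := by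
      rw [hT]
      push_cast
      have : (X : ℝ) ≤ N₀ := by exact_mod_cast hN1
      linarith
    have e2 : 1 + 6 * (Y : ℝ) ^ 2 / T ≤ 4 * ((Y : ℝ) ^ 2 / X) := by
      have e3 : 6 * (Y : ℝ) ^ 2 / T ≤ 6 * (Y : ℝ) ^ 2 / (2 * X) := div_le_div_of_nonneg_left (by positivity) (by positivity) e1
      have e4 : 6 * (Y : ℝ) ^ 2 / (2 * X) = 3 * ((Y : ℝ) ^ 2 / X) := by ring
      have e5 : 1 ≤ (Y : ℝ) ^ 2 / X := by
        rw [one_le_div hX0]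
        exact_mod_cast hXY2
      linarith
    have e6 : 1 + Real.log Y ≤ 2 * L := by
      have : Real.log Y ≤ L := Real.log_le_log hY0 (by exact_mod_cast hYX)
      linarith
    have e7 : 0 ≤ Real.log Y := Real.log_nonneg (by exact_mod_cast hY1)
    calc (1 + 6 * (Y : ℝ) ^ 2 / T) * (12 * (Y : ℝ) ^ 3 * (1 + Real.log Y) ^ 2) ≤ (4 * ((Y : ℝ) ^ 2 / X)) * (12 * (Y : ℝ) ^ 3 * (2 * L) ^ 2) := by
          gcongr
      _ = _ := by ring
  have hGBa : ∀ α : ℝ, ‖sw (Ed z) h (a : ℤ) α‖ ≤ h / L ^ (6 * (A + 1) + 19) := hGB a h ha1 ha2 (by omega) hac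
  have hGBa' : ∀ α : ℝ, ‖sw (Ed z) K' (a' : ℤ) α‖ ≤ h / L ^ (6 * (A + 1) + 19) := hGB a' K' ha1' ha2' hK'2 hac'
  -- first sum
  have s1 : ∑ n ∈ range Y, |rr (Ed z) lamI a h (c + 2 * qn T n)| ≤ (h : ℝ) * Y / L ^ (A + 1) := by
    have key := circle (Ed z) lamI a a' h K' Y T c hT1 (h / L ^ (6 * (A + 1) + 19)) (6 * h * L) (18 * h * L ^ 2) (by positivity) hsupp
      hGBa (fun α => (sw_triv lamI K' a' α (3 * L) (by positivity) (bL a' K' ha2' hK'X)).trans (hLh1 K' hK'2))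
      ((sq_sum (Ed z) a h (3 * L) (bE a h ha2 hhX)).trans (hLh h (by omega)))
      ((sq_sum lamI a' K' (3 * L) (bL a' K' ha2' hK'X)).trans (hLh K' hK'2))
    exact an_num L h X Y _ _ A _ hL hh0 hX0 hY0 rfl (Nat.cast_nonneg _) hJ hhXY (sum_nonneg fun _ _ => abs_nonneg _) key
  have s2 : ∑ n ∈ range Y, |rr (lamzI z) (Ed z) a h (c + 2 * qn T n)| ≤ (h : ℝ) * Y / L ^ (A + 1) := by
    have key := circle (lamzI z) (Ed z) a a' h K' Y T c hT1 (6 * h * L) (h / L ^ (6 * (A + 1) + 19)) (18 * h * L ^ 2) (by positivity) hsupp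
      (fun α => (sw_triv (lamzI z) h a α (3 * L) (by positivity) (fun m _ _ => bZ m)).trans (hLh1 h (by omega)))
      hGBa'
      ((sq_sum (lamzI z) a h (3 * L) (fun m _ _ => bZ m)).trans (hLh h (by omega)))
      ((sq_sum (Ed z) a' K' (3 * L) (bE a' K' ha2' hK'X)).trans (hLh K' hK'2))
    rw [mul_comm (6 * (h : ℝ) * L)] at key
    exact an_num L h X Y _ _ A _ hL hh0 hX0 hY0 rfl (Nat.cast_nonneg _) hJ hhXY (sum_nonneg fun _ _ => abs_nonneg _) key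
  have hEd : (fun m => lamI m - lamzI z m) = Ed z := rfl
  calc ∑ n ∈ range Y, |rr lamI lamI a h (c + 2 * qn T n) - rr (lamzI z) (lamzI z) a h (c + 2 * qn T n)|
      ≤ ∑ n ∈ range Y, (|rr (Ed z) lamI a h (c + 2 * qn T n)| + |rr (lamzI z) (Ed z) a h (c + 2 * qn T n)|) := by
        refine sum_le_sum fun n _ => ?_
        rw [rr_sub, hEd]
        exact abs_add_le _ _
    _ ≤ (h : ℝ) * Y / L ^ (A + 1) + (h : ℝ) * Y / L ^ (A + 1) := by
        rw [sum_add_distrib]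
        exact add_le_add s1 s2
    _ = (2 / L) * ((h : ℝ) * Y / L ^ A) := by
        rw [pow_succ L A]
        field_simp
        ring
    _ ≤ 1 * ((h : ℝ) * Y / L ^ A) := by
        apply mul_le_mul_of_nonneg_right _ (by positivity)
        rw [div_le_one hL0]; linarith
    _ = _ := one_mul _

end Pool.Agent.H79.V
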