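import Pool.Agent.H79.V.An
import Pool.Agent.H79.W.Sg
import Pool.Graph.R_pool_sql_team_seeded_620a6dc7.helper24_UT_.Srt
import Pool.Graph.R_pool_sql_team_seeded_620a6dc7.helper24_UT_.Slb
import Pool.Graph.R_pool_sql_team_seeded_620a6dc7.helper24_UT_.R7

/-! The main term in one cell. -/

set_option autoImplicit false

namespace Pool.Agent.H79.V

open Finset
open Pool.Agent.helper24_UT
open Pool.Agent.H373R2.T7 (lamI lamzI lamz Vz pz mem_pz ev_log' ev_L' Vz_pos Vz_inv_small lamI_nonneg lamzI_nonneg)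
open Pool.Agent.H79.V.Cir (rr)

/-- the singular series -/
noncomputable def sgP (P : ℕ) : ℝ :=
  ∏' p : Nat.Primes, (1 - (if (p : ℕ) ∣ P then 1 else 2 : ℝ) / (p : ℕ)) / (1 - 1 / ((p : ℕ) : ℝ)) ^ 2

lemma nuf_pm (a b : ℤ) (p : ℕ) : nuf ![1, -1] ![a, b] p = nuf (fun _ => 1) ![a, -b] p := by
  classical
  unfold nuf
  congr 1
  ext t
  simp only [mem_filter]
  refine and_congr Iff.rfl ?_
  constructor
  · rintro ⟨i, hi⟩
    fin_cases i
    · exact ⟨0, by simpa using hi⟩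
    · refine ⟨1, ?_⟩
      have h1 : (p : ℤ) ∣ -1 * (t : ℤ) + b := by simpa using hi
      have h2 : (1 : ℤ) * (t : ℤ) + -b = -(-1 * (t : ℤ) + b) := by ring
      show (p : ℤ) ∣ 1 * (t : ℤ) + -b
      rw [h2]
      exact (dvd_neg).2 h1
  · rintro ⟨i, hi⟩
    fin_cases i
    · exact ⟨0, by simpa using hi⟩
    · refine ⟨1, ?_⟩
      have h1 : (p : ℤ) ∣ 1 * (t : ℤ) + -b := by simpa using hi
      have h2 : -1 * (t : ℤ) + b = -(1 * (t : ℤ) + -b) := by ring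
      show (p : ℤ) ∣ -1 * (t : ℤ) + b
      rw [h2]
      exact (dvd_neg).2 h1

lemma nuf_val (a : ℤ) (P : ℕ) (p : ℕ) (hp : p.Prime) :
    (nuf ![1, -1] ![a, (P : ℤ) - a] p : ℝ) = if p ∣ P then 1 else 2 := by
  rw [nuf_pm, Pool.Agent.H79.W.Sg.nuf_two _ _ p hp]
  have h : a - -((P : ℤ) - a) = P := by ring
  rw [h]
  by_cases h2 : p ∣ P
  · rw [if_pos h2, if_pos (by exact_mod_cast h2)]
  · rw [if_neg h2, if_neg (by exact_mod_cast h2)]

lemma sers_val (a : ℤ) (P : ℕ) : sers ![1, -1] ![a, (P : ℤ) - a] = sgP P := by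
  unfold sers sgP
  congr 1
  funext p
  rw [nuf_val a P p p.2]

lemma phf_one {k : ℕ} (σ h : Fin k → ℤ) : phf σ h 1 = 1 := by
  classical
  unfold phf
  rw [show (range 1).filter (fun t : ℕ => ∀ i, Int.gcd (σ i * t + h i) (1 : ℕ) = 1) = {0} by
    ext t
    simp]
  simp

lemma hsig (i : Fin 2) : (![1, -1] : Fin 2 → ℤ) i = 1 ∨ (![1, -1] : Fin 2 → ℤ) i = -1 := by
  fin_cases i <;> simp

lemma hndeg (a : ℤ) (P : ℕ) (hP : 1 ≤ P) (i j : Fin 2) (hij : i ≠ j) :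
    (![1, -1] : Fin 2 → ℤ) i * ![a, (P : ℤ) - a] j ≠ (![1, -1] : Fin 2 → ℤ) j * ![a, (P : ℤ) - a] i := by
  have hP' : (P : ℤ) ≠ 0 := by omega
  fin_cases i <;> fin_cases j
  · exact absurd rfl hij
  · simp
    omega
  · simp
    omega
  · exact absurd rfl hij

/-- the singular series is bounded below for even numbers -/
theorem sgP_low : ∃ c : ℝ, 0 < c ∧ ∀ P : ℕ, 1 ≤ P → 2 ∣ P → c ≤ sgP P ∧
    Multipliable (fun p : Nat.Primes => (1 - (if (p : ℕ) ∣ P then 1 else 2 : ℝ) / (p : ℕ)) / (1 - 1 / ((p : ℕ) : ℝ)) ^ 2) := by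
  obtain ⟨c, hc, h⟩ := Slb.main 2
  refine ⟨c, hc, fun P hP h2 => ?_⟩
  obtain ⟨h3, h4⟩ := h ![1, -1] ![0, (P : ℤ) - 0] hsig (hndeg 0 P hP)
  constructor
  · rw [← sers_val 0 P]
    apply h4
    intro p hp
    have h5 := nuf_val 0 P p hp
    by_cases hd : p ∣ P
    · rw [if_pos hd] at h5
      have h6 : nuf ![1, -1] ![0, (P : ℤ) - 0] p = 1 := by exact_mod_cast h5
      rw [h6]
      exact hp.one_lt
    · rw [if_neg hd] at h5
      have h6 : nuf ![1, -1] ![0, (P : ℤ) - 0] p = 2 := by exact_mod_cast h5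
      rw [h6]
      have h7 : p ≠ 2 := fun h => hd (h ▸ h2)
      have := hp.two_le
      omega
  · have h5 : (fun p : Nat.Primes => (1 - (if (p : ℕ) ∣ P then 1 else 2 : ℝ) / (p : ℕ)) / (1 - 1 / ((p : ℕ) : ℝ)) ^ 2) =
        (fun p : Nat.Primes => (1 - (nuf ![1, -1] ![0, (P : ℤ) - 0] p : ℝ) / ((p : ℕ) : ℝ)) / (1 - 1 / ((p : ℕ) : ℝ)) ^ 2) := by
      funext p
      rw [nuf_val 0 P p p.2]
    rw [h5]
    exact h3

lemma rr_model (z a h : ℕ) (P : ℕ) (hP : a + h < P) :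
    rr (lamzI z) (lamzI z) (a : ℤ) h (P : ℤ) = ∑ n ∈ (Icc 1 h).filter (fun n => n % 1 = 0 % 1),
      ∏ i, lz z ((![1, -1] : Fin 2 → ℤ) i * n + ![(a : ℤ), (P : ℤ) - a] i) := by
  unfold rr
  have e0 : (Icc 1 h).filter (fun n => n % 1 = 0 % 1) = Icc 1 h := by
    apply filter_true_of_mem
    intro n _
    omega
  rw [e0]
  symm
  apply sum_bij (fun (n : ℕ) _ => (a : ℤ) + n)
  · intro n hn
    rw [mem_Icc] at hn
    rw [mem_Ioc]
    omega
  · intro n _ m _ hnm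
    have : (a : ℤ) + n = (a : ℤ) + m := hnm
    omega
  · intro m hm
    rw [mem_Ioc] at hm
    refine ⟨(m - a).toNat, ?_, ?_⟩
    · rw [mem_Icc]; omega
    · rw [Int.toNat_of_nonneg (by omega)]; ring
  · intro n hn
    rw [mem_Icc] at hn
    rw [Fin.prod_univ_two, R7.lamzI_eq z _ (by omega), R7.lamzI_eq z _ (by omega)]
    simp only [Matrix.cons_val_zero, Matrix.cons_val_one]
    congr 2
    · ring
    · ring

/-- the main term -/
theorem main_cell (A : ℕ) : ∀ E : ℕ, ∃ X₀ : ℕ, ∀ X : ℕ, X₀ ≤ X → ∀ z : ℕ, (Real.log X) ^ (A + 8) ≤ z → (z : ℝ) ≤ (Real.log X) ^ E →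
    ∀ h a P : ℕ, X ≤ h → h ≤ X ^ 2 → a + h < P → P ≤ 20 * X ^ 2 →
    |rr (lamzI z) (lamzI z) (a : ℤ) h (P : ℤ) - h * sgP P| ≤ h / (Real.log X) ^ A ∧ 0 ≤ sgP P ∧ sgP P ≤ 2 * (Real.log X) ^ 2 := by
  intro E
  obtain ⟨B, X₁, h1⟩ := Mtc.main 2 E (A + 1)
  obtain ⟨X₂, h2⟩ := Srt.main Slb.main 2
  obtain ⟨X₃, h3⟩ := Pool.Agent.H79.W.Sg.exp_small B (A + 1)
  obtain ⟨X₄, h4⟩ := Vz_inv_small E
  obtain ⟨X₅, h5⟩ := ev_L' 1000
  refine ⟨max (max X₁ X₂) (max (max X₃ X₄) (max X₅ 2)), ?_⟩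
  intro X hX z hz1 hz2 h a P hXh hhX haP hPX
  have c1 : X₁ ≤ X := ((le_max_left _ _).trans (le_max_left _ _)).trans hX
  have c2 : X₂ ≤ X := ((le_max_right _ _).trans (le_max_left _ _)).trans hX
  have c3 : X₃ ≤ X := ((le_max_left _ _).trans ((le_max_left _ _).trans (le_max_right _ _))).trans hX
  have c4 : X₄ ≤ X := ((le_max_right _ _).trans ((le_max_left _ _).trans (le_max_right _ _))).trans hX
  have c5 : X₅ ≤ X := ((le_max_left _ _).trans ((le_max_right _ _).trans (le_max_right _ _))).trans hX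
  have c6 : 2 ≤ X := ((le_max_right _ _).trans ((le_max_right _ _).trans (le_max_right _ _))).trans hX
  have hL := h5 X c5
  set L : ℝ := Real.log X with hLdef
  have hL0 : 0 < L := by linarith
  have hX1 : (2 : ℝ) ≤ X := by exact_mod_cast c6
  have hX0 : (0 : ℝ) < X := by linarith
  have hz : 1 ≤ z := by
    have e1 : (1 : ℝ) ≤ L ^ (A + 8) := one_le_pow₀ (by linarith)
    exact_mod_cast e1.trans hz1
  have hz0 : (0 : ℝ) < z := by exact_mod_cast hz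
  have hV := h4 X c4 z hz hz2
  have hh0 : (0 : ℝ) < h := by exact_mod_cast (by omega : 0 < h)
  have hhr : (X : ℝ) ≤ h := by exact_mod_cast hXh
  have hlh : L ≤ Real.log h := Real.log_le_log hX0 hhr
  have hP1 : 1 ≤ P := by omega
  -- the model in the cell
  have k1 := h1 h (c1.trans hXh) z hz (hz2.trans (pow_le_pow_left₀ hL0.le hlh _)) ![1, -1] ![(a : ℤ), (P : ℤ) - a] hsig 1 0 h le_rfl le_rfl
  rw [← rr_model z a h P haP] at k1
  have k2 := h3 h (c3.trans hXh)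
  set g : ℝ := gz z ![1, -1] ![(a : ℤ), (P : ℤ) - a] 1 0 with hg
  have k3 : |rr (lamzI z) (lamzI z) (a : ℤ) h (P : ℤ) - h * g| ≤ 2 * (h / L ^ (A + 1)) := by
    have e1 : (h : ℝ) / Real.log h ^ (A + 1) ≤ h / L ^ (A + 1) := by
      apply div_le_div_of_nonneg_left hh0.le (by positivity)
      exact pow_le_pow_left₀ hL0.le hlh _
    have e2 : (h : ℝ) / (1 : ℕ) * g = h * g := by simp
    have e3 : (h : ℝ) / (1 : ℕ) / Real.log h ^ (A + 1) = h / Real.log h ^ (A + 1) := by simp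
    rw [e2, e3] at k1
    linarith
  -- the density
  have hN : X ≤ 20 * X ^ 2 := by nlinarith
  have hlogN : Real.log ((20 * X ^ 2 : ℕ) : ℝ) ≤ 3 * L := by
    push_cast
    rw [Real.log_mul (by norm_num) (by positivity), Real.log_pow]
    have : Real.log 20 ≤ 19 := by
      have := Real.log_le_sub_one_of_pos (show (0 : ℝ) < 20 by norm_num)
      linarith
    push_cast
    linarith
  have hlogN0 : 0 ≤ Real.log ((20 * X ^ 2 : ℕ) : ℝ) := Real.log_natCast_nonneg _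
  have hzN : Real.log ((20 * X ^ 2 : ℕ) : ℝ) ^ 3 ≤ z := by
    calc Real.log ((20 * X ^ 2 : ℕ) : ℝ) ^ 3 ≤ (3 * L) ^ 3 := pow_le_pow_left₀ hlogN0 hlogN 3
      _ = 27 * L ^ 3 := by ring
      _ ≤ L * L ^ 3 := by gcongr; linarith
      _ = L ^ 4 := by ring
      _ ≤ L ^ (A + 8) := pow_le_pow_right₀ (by linarith) (by omega)
      _ ≤ z := hz1
  have k4 := h2 (20 * X ^ 2) (c2.trans hN) ![1, -1] ![(a : ℤ), (P : ℤ) - a] hsig (by
    intro i
    fin_cases i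
    · show |(a : ℤ)| ≤ _
      rw [abs_of_nonneg (by positivity)]
      exact_mod_cast (by omega : a ≤ 20 * X ^ 2)
    · show |(P : ℤ) - a| ≤ _
      rw [abs_of_nonneg (by omega)]
      have : (P : ℤ) ≤ ((20 * X ^ 2 : ℕ) : ℤ) := by exact_mod_cast hPX
      omega) (hndeg a P hP1) z hzN 1 0 le_rfl (by omega) (by
    intro i
    simp)
  rw [sers_val, phf_one] at k4
  obtain ⟨k5, _, k6⟩ := k4
  set s : ℝ := sgP P with hs
  have e1 : s * (((1 : ℕ) : ℝ) / ((1 : ℕ) : ℝ)) = s := by simp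
  rw [e1] at k6
  have e2 : Real.log ((20 * X ^ 2 : ℕ) : ℝ) ^ 2 / z ≤ 1 / L ^ (A + 4) := by
    rw [div_le_div_iff₀ hz0 (by positivity), one_mul]
    calc Real.log ((20 * X ^ 2 : ℕ) : ℝ) ^ 2 * L ^ (A + 4) ≤ (3 * L) ^ 2 * L ^ (A + 4) := by gcongr
      _ = 9 * L ^ 2 * L ^ (A + 4) := by ring
      _ ≤ L ^ 4 * L ^ (A + 4) := by
          apply mul_le_mul_of_nonneg_right _ (by positivity)
          have e9 : (9 : ℝ) ≤ L ^ 2 := by nlinarith
          rw [show (4 : ℕ) = 2 + 2 by norm_num, pow_add L 2 2]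
          exact mul_le_mul_of_nonneg_right e9 (by positivity)
      _ = L ^ (A + 8) := by rw [← pow_add]; ring_nf
      _ ≤ z := hz1
  have e3 : (1 : ℝ) / L ^ (A + 4) ≤ 1 / 2 := by
    apply one_div_le_one_div_of_le (by norm_num)
    calc (2 : ℝ) ≤ L := by linarith
      _ = L ^ 1 := (pow_one L).symm
      _ ≤ L ^ (A + 4) := pow_le_pow_right₀ (by linarith) (by omega)
  have k7 : |g - s| ≤ s * (1 / L ^ (A + 4)) := k6.trans (mul_le_mul_of_nonneg_left e2 k5)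
  have hgL : g ≤ L ^ 2 := by
    refine (R7.gz_le z _ _ 1 0).trans ?_
    exact pow_le_pow_left₀ (inv_nonneg.2 (Vz_pos z).le) hV 2
  have k8 : s ≤ 2 * L ^ 2 := by
    have := (abs_le.1 k7).1
    have e4 : s * (1 / L ^ (A + 4)) ≤ s * (1 / 2) := mul_le_mul_of_nonneg_left e3 k5
    linarith
  refine ⟨?_, k5, k8⟩
  have k9 : |(h : ℝ) * g - h * s| ≤ h * (2 / L ^ (A + 2)) := by
    rw [← mul_sub, abs_mul, abs_of_pos hh0]
    apply mul_le_mul_of_nonneg_left _ hh0.le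
    refine k7.trans ?_
    calc s * (1 / L ^ (A + 4)) ≤ 2 * L ^ 2 * (1 / L ^ (A + 4)) := by gcongr
      _ = 2 / L ^ (A + 2) := by
          rw [show A + 4 = (A + 2) + 2 by ring, pow_add L (A + 2) 2]
          field_simp
  calc |rr (lamzI z) (lamzI z) (a : ℤ) h (P : ℤ) - h * s|
      ≤ |rr (lamzI z) (lamzI z) (a : ℤ) h (P : ℤ) - h * g| + |(h : ℝ) * g - h * s| := abs_sub_le _ _ _
    _ ≤ 2 * (h / L ^ (A + 1)) + h * (2 / L ^ (A + 2)) := add_le_add k3 k9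
    _ = (2 / L + 2 / L ^ 2) * (h / L ^ A) := by
        rw [pow_add L A 1, pow_add L A 2]
        field_simp
    _ ≤ 1 * (h / L ^ A) := by
        apply mul_le_mul_of_nonneg_right _ (by positivity)
        have f1 : 2 / L ≤ 1 / 2 := by
          rw [div_le_div_iff₀ hL0 (by norm_num)]; linarith
        have f2 : 2 / L ^ 2 ≤ 1 / 2 := by
          rw [div_le_div_iff₀ (by positivity) (by norm_num)]; nlinarith
        linarith
    _ = _ := one_mul _

end Pool.Agent.H79.V
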