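import Pool.Agent.H79.V.Mt

/-! From the von Mangoldt function to pairs of primes, in one cell. -/

set_option autoImplicit false

namespace Pool.Agent.H79.V

open Finset
open Pool.Agent.helper24_UT
open Pool.Agent.H373R2.T7 (lamI lamzI lamz Vz pz mem_pz ev_log' ev_L' Vz_pos Vz_inv_small lamI_nonneg lamzI_nonneg lamP lamP_nonneg lamP_le)
open Pool.Agent.H79.V.Cir (rr)

/-- the number of `m` in the interval with `m` and `P - m` prime -/
def cc (P u v : ℕ) : ℕ := ((Ioc u v).filter (fun m => m.Prime ∧ (P - m).Prime)).card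

/-- the weight -/
noncomputable def wt (P m : ℕ) : ℝ := 1 / (Real.log m * Real.log ((P - m : ℕ) : ℝ))

lemma log_diff (x y : ℝ) (hx : 0 < x) (hxy : x ≤ y) : |Real.log y - Real.log x| ≤ (y - x) / x := by
  have h1 : 0 ≤ Real.log y - Real.log x := sub_nonneg.2 (Real.log_le_log hx hxy)
  rw [abs_of_nonneg h1, ← Real.log_div (by linarith) hx.ne']
  have h2 := Real.log_le_sub_one_of_pos (show 0 < y / x from div_pos (by linarith) hx)
  have h3 : y / x - 1 = (y - x) / x := by field_simp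
  linarith

lemma inv_diff (x y x' y' : ℝ) (hx : 1 ≤ x) (hy : 1 ≤ y) (hx' : 1 ≤ x') (hy' : 1 ≤ y') :
    |1 / (x * y) - 1 / (x' * y')| ≤ |x - x'| + |y - y'| := by
  have e : 1 / (x * y) - 1 / (x' * y') = (x' - x) * (1 / (x * x' * y)) + (y' - y) * (1 / (y * y' * x')) := by
    field_simp
    ring
  rw [e]
  refine (abs_add_le _ _).trans ?_
  rw [abs_mul, abs_mul, abs_sub_comm x' x, abs_sub_comm y' y]
  have h1 : |1 / (x * x' * y)| ≤ 1 := by
    rw [abs_of_nonneg (by positivity), div_le_one (by positivity)]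
    have : 1 ≤ x * x' := one_le_mul_of_one_le_of_one_le hx hx'
    exact one_le_mul_of_one_le_of_one_le this hy
  have h2 : |1 / (y * y' * x')| ≤ 1 := by
    rw [abs_of_nonneg (by positivity), div_le_one (by positivity)]
    have : 1 ≤ y * y' := one_le_mul_of_one_le_of_one_le hy hy'
    exact one_le_mul_of_one_le_of_one_le this hx'
  have := abs_nonneg (x - x')
  have := abs_nonneg (y - y')
  nlinarith

/-- the sum over the primes with logarithmic weights -/
noncomputable def sP (P a h : ℕ) : ℝ := ∑ m ∈ Ioc a (a + h), lamP (m : ℤ) * lamP ((P : ℤ) - m)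

lemma rr_nat (f g : ℤ → ℝ) (a h : ℕ) (P : ℤ) : rr f g (a : ℤ) h P = ∑ m ∈ Ioc a (a + h), f (m : ℤ) * g (P - m) := by
  unfold rr
  have e2 : Ioc (a : ℤ) ((a : ℤ) + h) = (Ioc a (a + h)).image (fun n : ℕ => (n : ℤ)) := by
    ext m
    simp only [mem_Ioc, mem_image]
    constructor
    · rintro ⟨a, b⟩
      refine ⟨m.toNat, ⟨?_, ?_⟩, ?_⟩ <;> omega
    · rintro ⟨n, ⟨a, b⟩, rfl⟩
      constructor <;> omega
  rw [e2, sum_image (by intro a _ b _ hab; simpa using hab)]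

lemma pp_loss (P a h N : ℕ) (hN : 1 ≤ N) (hP : P ≤ N) (hahP : a + h < P) :
    0 ≤ rr lamI lamI (a : ℤ) h (P : ℤ) - sP P a h ∧ rr lamI lamI (a : ℤ) h (P : ℤ) - sP P a h ≤ 4 * √(N : ℝ) * Real.log N ^ 2 := by
  rw [rr_nat]
  unfold sP
  rw [← sum_sub_distrib]
  refine ⟨sum_nonneg fun m _ => R7.term_nonneg P m, ?_⟩
  have h1 : ∑ m ∈ Ioc a (a + h), (lamI (m : ℤ) * lamI ((P : ℤ) - m) - lamP (m : ℤ) * lamP ((P : ℤ) - m)) ≤ R7.ww P 1 0 := by
    unfold R7.ww
    apply sum_le_sum_of_subset_of_nonneg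
    · intro m hm
      rw [mem_Ioc] at hm
      rw [mem_filter, mem_Icc]
      omega
    · intro m _ _
      exact R7.term_nonneg P m
  have h2 := R7.ww_sum P N 1 hN hP le_rfl
  rw [sum_range_one] at h2
  refine h1.trans ?_
  have h3 : 16 * (N : ℝ) * Real.log N ^ 4 = (4 * √(N : ℝ) * Real.log N ^ 2) ^ 2 := by
    rw [mul_pow, mul_pow, Real.sq_sqrt (Nat.cast_nonneg _)]
    ring
  rw [h3] at h2
  exact le_of_pow_le_pow_left₀ (by norm_num) (by positivity) h2

lemma cc_sum (P a h : ℕ) (hahP : a + h < P) (ha : 3 ≤ a) (hP : a + h + 3 ≤ P) :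
    (cc P a (a + h) : ℝ) = ∑ m ∈ Ioc a (a + h), lamP (m : ℤ) * lamP ((P : ℤ) - m) * wt P m := by
  unfold cc
  rw [card_filter]
  push_cast
  refine sum_congr rfl fun m hm => ?_
  rw [mem_Ioc] at hm
  have e1 : ((P : ℤ) - m).toNat = P - m := by omega
  unfold lamP wt
  rw [e1, Int.toNat_natCast]
  have l1 : 0 < Real.log (m : ℝ) := Real.log_pos (by exact_mod_cast (by omega : 1 < m))
  have l2 : 0 < Real.log ((P - m : ℕ) : ℝ) := Real.log_pos (by exact_mod_cast (by omega : 1 < P - m))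
  by_cases h1 : m.Prime
  · by_cases h2 : (P - m).Prime
    · rw [if_pos ⟨h1, h2⟩, if_pos h1, if_pos h2]
      field_simp
    · rw [if_neg (fun h => h2 h.2), if_neg h2]
      ring
  · rw [if_neg (fun h => h1 h.1), if_neg h1]
    ring

/-- the weight varies slowly -/
lemma wt_diff (P a m : ℕ) (Q : ℝ) (h : ℕ) (hQ : 3 ≤ Q) (ha : Q ≤ a) (hP : Q ≤ (P : ℝ) - a - h) (hm1 : a < m) (hm2 : m ≤ a + h) :
    |wt P m - wt P a| ≤ 2 * h / Q := by
  have hQ0 : 0 < Q := by linarith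
  have hamr : (a : ℝ) < m := by exact_mod_cast hm1
  have hmr : (m : ℝ) ≤ a + h := by exact_mod_cast hm2
  have hPm : m ≤ P := by
    have : (m : ℝ) ≤ P := by linarith
    exact_mod_cast this
  have hPa : a ≤ P := hm1.le.trans hPm
  have hl3 : ∀ x : ℝ, 3 ≤ x → 1 ≤ Real.log x := by
    intro x hx
    rw [Real.le_log_iff_exp_le (by linarith)]
    have := Real.exp_one_lt_d9
    linarith
  unfold wt
  rw [Nat.cast_sub hPm, Nat.cast_sub hPa]
  refine (inv_diff _ _ _ _ (hl3 _ (by linarith)) (hl3 _ (by linarith)) (hl3 _ (by linarith)) (hl3 _ (by linarith))).trans ?_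
  have h1 : |Real.log (m : ℝ) - Real.log (a : ℝ)| ≤ h / Q := by
    refine (log_diff a m (by linarith) hamr.le).trans ?_
    apply div_le_div₀ (Nat.cast_nonneg _) (by linarith) hQ0 ha
  have h2 : |Real.log ((P : ℝ) - m) - Real.log ((P : ℝ) - a)| ≤ h / Q := by
    rw [abs_sub_comm]
    refine (log_diff ((P : ℝ) - m) ((P : ℝ) - a) (by linarith) (by linarith)).trans ?_
    apply div_le_div₀ (Nat.cast_nonneg _) (by linarith) hQ0 (by linarith)
  calc _ ≤ (h : ℝ) / Q + h / Q := add_le_add h1 h2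
    _ = _ := by ring

/-- one cell -/
theorem cell_count (P a h : ℕ) (Q η s δ L : ℝ) (hQ : 3 ≤ Q) (ha : Q ≤ a) (hP : Q ≤ (P : ℝ) - a - h)
    (hη : 2 * (h : ℝ) / Q ≤ η) (hs0 : 0 ≤ s) (hs : s ≤ 2 * L ^ 2) (hL : 1 ≤ L) (hPL : ∀ m : ℕ, m ≤ P → Real.log m ≤ 3 * L)
    (hr : |rr lamI lamI (a : ℤ) h (P : ℤ) - h * s| ≤ δ * h) :
    |(cc P a (a + h) : ℝ) - s * ∑ m ∈ Ioc a (a + h), wt P m| ≤
      (δ + 11 * L ^ 2 * η) * h + 4 * √(P : ℝ) * (3 * L) ^ 2 := by
  have hQ0 : 0 < Q := by linarith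
  have hh0 : (0 : ℝ) ≤ h := Nat.cast_nonneg _
  have hη0 : 0 ≤ η := le_trans (by positivity) hη
  have hahP : a + h + 3 ≤ P := by
    have : (a : ℝ) + h + 3 ≤ P := by linarith
    exact_mod_cast this
  have ha3 : 3 ≤ a := by
    have : (3 : ℝ) ≤ a := by linarith
    exact_mod_cast this
  have hP1 : 1 ≤ P := by omega
  obtain ⟨l1, l2⟩ := pp_loss P a h P hP1 le_rfl (by omega)
  have hlP : Real.log P ≤ 3 * L := hPL P le_rfl
  have hlP0 : 0 ≤ Real.log P := Real.log_natCast_nonneg _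
  have l3 : 4 * √(P : ℝ) * Real.log P ^ 2 ≤ 4 * √(P : ℝ) * (3 * L) ^ 2 := by gcongr
  set w0 := wt P a with hw0
  have hw0a : 0 ≤ w0 ∧ w0 ≤ 1 := by
    have hl3 : ∀ x : ℝ, 3 ≤ x → 1 ≤ Real.log x := by
      intro x hx
      rw [Real.le_log_iff_exp_le (by linarith)]
      have := Real.exp_one_lt_d9
      linarith
    have hPa : a ≤ P := by omega
    rw [hw0]
    unfold wt
    rw [Nat.cast_sub hPa]
    have e1 := hl3 a (by linarith)
    have e2 := hl3 ((P : ℝ) - a) (by linarith)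
    constructor
    · positivity
    · rw [div_le_one (by positivity)]
      exact one_le_mul_of_one_le_of_one_le e1 e2
  have hwm : ∀ m ∈ Ioc a (a + h), |wt P m - w0| ≤ η := by
    intro m hm
    rw [mem_Ioc] at hm
    exact (wt_diff P a m Q h hQ ha hP hm.1 hm.2).trans hη
  -- primes
  have h1 : |(cc P a (a + h) : ℝ) - w0 * sP P a h| ≤ 9 * L ^ 2 * η * h := by
    rw [cc_sum P a h (by omega) ha3 hahP]
    unfold sP
    rw [mul_sum, ← sum_sub_distrib]
    refine (abs_sum_le_sum_abs _ _).trans ?_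
    have e1 : ∀ m ∈ Ioc a (a + h), |lamP (m : ℤ) * lamP ((P : ℤ) - m) * wt P m - w0 * (lamP (m : ℤ) * lamP ((P : ℤ) - m))| ≤ 9 * L ^ 2 * η := by
      intro m hm
      have e2 : lamP (m : ℤ) * lamP ((P : ℤ) - m) * wt P m - w0 * (lamP (m : ℤ) * lamP ((P : ℤ) - m)) =
          (lamP (m : ℤ) * lamP ((P : ℤ) - m)) * (wt P m - w0) := by ring
      rw [e2, abs_mul, abs_of_nonneg (mul_nonneg (lamP_nonneg _) (lamP_nonneg _))]
      have hm' := mem_Ioc.1 hm
      have bP : ∀ k : ℤ, 0 ≤ k → k ≤ P → lamP k ≤ 3 * L := by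
        intro k hk0 hk
        unfold lamP
        split_ifs
        · exact hPL k.toNat (by omega)
        · linarith
      have e3 : lamP (m : ℤ) * lamP ((P : ℤ) - m) ≤ (3 * L) * (3 * L) :=
        mul_le_mul (bP _ (by omega) (by omega)) (bP _ (by omega) (by omega)) (lamP_nonneg _) (by linarith)
      calc _ ≤ ((3 * L) * (3 * L)) * η := mul_le_mul e3 (hwm m hm) (abs_nonneg _) (by positivity)
        _ = _ := by ring
    refine (sum_le_sum e1).trans ?_
    rw [sum_const, Nat.card_Ioc, nsmul_eq_mul]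
    have e4 : a + h - a = h := by omega
    rw [e4]
    apply le_of_eq
    ring
  -- the main term
  have h2 : |s * ∑ m ∈ Ioc a (a + h), wt P m - w0 * (h * s)| ≤ 2 * L ^ 2 * η * h := by
    have e1 : s * ∑ m ∈ Ioc a (a + h), wt P m - w0 * (h * s) = s * ∑ m ∈ Ioc a (a + h), (wt P m - w0) := by
      rw [sum_sub_distrib, sum_const, Nat.card_Ioc, nsmul_eq_mul]
      have e4 : a + h - a = h := by omega
      rw [e4]
      ring
    rw [e1, abs_mul, abs_of_nonneg hs0]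
    have e2 : |∑ m ∈ Ioc a (a + h), (wt P m - w0)| ≤ h * η := by
      refine (abs_sum_le_sum_abs _ _).trans ((sum_le_sum hwm).trans ?_)
      rw [sum_const, Nat.card_Ioc, nsmul_eq_mul]
      have e4 : a + h - a = h := by omega
      rw [e4]
    calc s * |∑ m ∈ Ioc a (a + h), (wt P m - w0)| ≤ (2 * L ^ 2) * (h * η) := mul_le_mul hs e2 (abs_nonneg _) (by positivity)
      _ = _ := by ring
  have h3 : |w0 * sP P a h - w0 * (h * s)| ≤ δ * h + 4 * √(P : ℝ) * (3 * L) ^ 2 := by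
    rw [← mul_sub, abs_mul, abs_of_nonneg hw0a.1]
    have e1 : |sP P a h - h * s| ≤ δ * h + 4 * √(P : ℝ) * (3 * L) ^ 2 := by
      have e2 : sP P a h - h * s = (rr lamI lamI (a : ℤ) h (P : ℤ) - h * s) - (rr lamI lamI (a : ℤ) h (P : ℤ) - sP P a h) := by ring
      rw [e2]
      refine (abs_sub _ _).trans ?_
      rw [abs_of_nonneg l1]
      linarith
    calc w0 * |sP P a h - h * s| ≤ 1 * |sP P a h - h * s| := mul_le_mul_of_nonneg_right hw0a.2 (abs_nonneg _)
      _ ≤ _ := by rw [one_mul]; exact e1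
  calc |(cc P a (a + h) : ℝ) - s * ∑ m ∈ Ioc a (a + h), wt P m|
      = |((cc P a (a + h) : ℝ) - w0 * sP P a h) + (w0 * sP P a h - w0 * (h * s)) - (s * ∑ m ∈ Ioc a (a + h), wt P m - w0 * (h * s))| := by
        congr 1; ring
    _ ≤ |(cc P a (a + h) : ℝ) - w0 * sP P a h| + |w0 * sP P a h - w0 * (h * s)| + |s * ∑ m ∈ Ioc a (a + h), wt P m - w0 * (h * s)| :=
        (abs_sub _ _).trans (add_le_add (abs_add_le _ _) le_rfl)
    _ ≤ 9 * L ^ 2 * η * h + (δ * h + 4 * √(P : ℝ) * (3 * L) ^ 2) + 2 * L ^ 2 * η * h := by linarith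
    _ = _ := by ring

end Pool.Agent.H79.V
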