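import Pool.Agent.H79.V.Sc
import Pool.Agent.H79.V.Ct

/-! All windows of length at least `N ^ (3 / 2) (log N) ^ C` near the middle. -/

set_option autoImplicit false

namespace Pool.Agent.H79.V

open Finset
open Pool.Agent.helper24_UT
open Pool.Agent.H373R2.T7 (lamI lamzI lamz Vz pz mem_pz ev_log' ev_L' Vz_pos Vz_inv_small lamI_nonneg lamzI_nonneg)
open Pool.Agent.H79.V.Cir (rr)

/-- the value of the polynomial -/
def PN (N : ℕ) : ℕ := 2 * N ^ 2 + 2 * N + 2

/-- the count minus the expected count -/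
noncomputable def SS (P : ℕ) (s : ℝ) (U V : ℕ) : ℝ := ∑ m ∈ Ioc U V, ((if m.Prime ∧ (P - m).Prime then (1 : ℝ) else 0) - s * wt P m)

lemma SS_eq (P : ℕ) (s : ℝ) (U V : ℕ) : SS P s U V = (cc P U V : ℝ) - s * ∑ m ∈ Ioc U V, wt P m := by
  unfold SS cc
  rw [sum_sub_distrib, ← mul_sum, card_filter]
  push_cast
  rfl

lemma SS_add (P : ℕ) (s : ℝ) (U V W : ℕ) (h1 : U ≤ V) (h2 : V ≤ W) : SS P s U V + SS P s V W = SS P s U W := by
  unfold SS
  exact sum_Ioc_consecutive _ h1 h2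

lemma SS_cells (P : ℕ) (s : ℝ) (h k n : ℕ) : SS P s (k * h) ((k + n) * h) = ∑ j ∈ Ico k (k + n), SS P s (j * h) (j * h + h) := by
  induction n with
  | zero => simp [SS]
  | succ n ih =>
    rw [← SS_add P s (k * h) ((k + n) * h) ((k + (n + 1)) * h) (Nat.mul_le_mul_right _ (by omega)) (Nat.mul_le_mul_right _ (by omega)), ih,
      ← add_assoc, sum_Ico_succ_top (by omega)]
    congr 2
    ring

lemma SS_triv (P : ℕ) (s : ℝ) (U V : ℕ) (hs : 0 ≤ s) (hUV : U ≤ V) (hU : 3 ≤ U) (hV : V + 3 ≤ P) : |SS P s U V| ≤ ((V : ℝ) - U) * (1 + s) := by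
  unfold SS
  refine (abs_sum_le_sum_abs _ _).trans ?_
  have hl3 : ∀ x : ℝ, 3 ≤ x → 1 ≤ Real.log x := by
    intro x hx
    rw [Real.le_log_iff_exp_le (by linarith)]
    have := Real.exp_one_lt_d9
    linarith
  have h1 : ∀ m ∈ Ioc U V, |(if m.Prime ∧ (P - m).Prime then (1 : ℝ) else 0) - s * wt P m| ≤ 1 + s := by
    intro m hm
    rw [mem_Ioc] at hm
    have e1 := hl3 m (by exact_mod_cast (by omega : 3 ≤ m))
    have e2 := hl3 ((P - m : ℕ) : ℝ) (by exact_mod_cast (by omega : 3 ≤ P - m))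
    have e3 : 0 ≤ wt P m ∧ wt P m ≤ 1 := by
      unfold wt
      constructor
      · positivity
      · rw [div_le_one (by positivity)]
        exact one_le_mul_of_one_le_of_one_le e1 e2
    have e4 : s * wt P m ≤ s := mul_le_of_le_one_right hs e3.2
    have e5 : 0 ≤ s * wt P m := mul_nonneg hs e3.1
    split_ifs
    · rw [abs_le]; constructor <;> linarith
    · rw [abs_le]; constructor <;> linarith
  refine (sum_le_sum h1).trans ?_
  rw [sum_const, Nat.card_Ioc, nsmul_eq_mul, Nat.cast_sub hUV]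

/-- the window statement -/
def Wd (A C N : ℕ) : Prop := ∀ u v : ℕ, u < v → 2 * v ≤ N ^ 2 → (N : ℝ) ^ (3 / 2 : ℝ) * Real.log N ^ C ≤ (v : ℝ) - u →
  (u : ℝ) ≤ ((v : ℝ) - u) * Real.log N ^ A →
  |(cc (PN N) (N ^ 2 + 1 + u) (N ^ 2 + 1 + v) : ℝ) - sgP (PN N) * ∑ m ∈ Ioc (N ^ 2 + 1 + u) (N ^ 2 + 1 + v), wt (PN N) m| ≤
    ((v : ℝ) - u) / Real.log N ^ A

/-- assembling the cells -/
lemma assemble (P U V h : ℕ) (s err : ℝ) (hh : 1 ≤ h) (hs : 0 ≤ s) (hU : 3 ≤ U) (hV : V + 3 ≤ P) (hUV : U + 2 * h ≤ V) (herr0 : 0 ≤ err)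
    (herr : ∀ k : ℕ, U ≤ k * h → k * h + h ≤ V → |SS P s (k * h) (k * h + h)| ≤ err * h) :
    |SS P s U V| ≤ err * ((V : ℝ) - U) + 2 * h * (1 + s) := by
  set k₁ := U / h + 1 with hk₁
  set k₂ := V / h with hk₂
  have a1 : U ≤ k₁ * h := by
    have e1 := Nat.div_add_mod U h
    have e2 := Nat.mod_lt U (show h > 0 by omega)
    rw [hk₁, Nat.add_mul, one_mul, mul_comm]
    omega
  have a2 : k₁ * h ≤ U + h := by
    have e1 := Nat.div_mul_le_self U h
    rw [hk₁, Nat.add_mul, one_mul]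
    omega
  have b1 : k₂ * h ≤ V := Nat.div_mul_le_self V h
  have b2 : V ≤ k₂ * h + h := by
    have e1 := Nat.div_add_mod V h
    have e2 := Nat.mod_lt V (show h > 0 by omega)
    rw [← hk₂, mul_comm] at e1
    omega
  have hk12 : k₁ ≤ k₂ := by
    by_contra h0
    push Not at h0
    have e1 : (k₂ + 1) * h ≤ k₁ * h := Nat.mul_le_mul_right _ h0
    have e2 : (k₂ + 1) * h = k₂ * h + h := by ring
    omega
  obtain ⟨n, hn⟩ : ∃ n, k₂ = k₁ + n := ⟨k₂ - k₁, by omega⟩
  have e0 : SS P s U V = SS P s U (k₁ * h) + (∑ j ∈ Ico k₁ (k₁ + n), SS P s (j * h) (j * h + h)) + SS P s (k₂ * h) V := by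
    rw [← SS_cells, ← hn, SS_add P s U (k₁ * h) (k₂ * h) a1 (Nat.mul_le_mul_right _ hk12),
      SS_add P s U (k₂ * h) V (a1.trans (Nat.mul_le_mul_right _ hk12)) b1]
  have t1 : |SS P s U (k₁ * h)| ≤ h * (1 + s) := by
    refine (SS_triv P s U (k₁ * h) hs a1 hU ?_).trans ?_
    · have := Nat.mul_le_mul_right h hk12
      omega
    · apply mul_le_mul_of_nonneg_right _ (by linarith)
      have : ((k₁ * h : ℕ) : ℝ) ≤ U + h := by exact_mod_cast a2
      linarith
  have t2 : |SS P s (k₂ * h) V| ≤ h * (1 + s) := by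
    refine (SS_triv P s (k₂ * h) V hs b1 ?_ hV).trans ?_
    · have := Nat.mul_le_mul_right h hk12
      omega
    · apply mul_le_mul_of_nonneg_right _ (by linarith)
      have : (V : ℝ) ≤ ((k₂ * h : ℕ) : ℝ) + h := by exact_mod_cast b2
      linarith
  have t3 : |∑ j ∈ Ico k₁ (k₁ + n), SS P s (j * h) (j * h + h)| ≤ err * ((V : ℝ) - U) := by
    refine (abs_sum_le_sum_abs _ _).trans ?_
    have e1 : ∀ j ∈ Ico k₁ (k₁ + n), |SS P s (j * h) (j * h + h)| ≤ err * h := by
      intro j hj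
      rw [mem_Ico] at hj
      apply herr j
      · exact a1.trans (Nat.mul_le_mul_right _ hj.1)
      · have : (j + 1) * h ≤ k₂ * h := Nat.mul_le_mul_right _ (by omega)
        have e2 : (j + 1) * h = j * h + h := by ring
        omega
    refine (sum_le_sum e1).trans ?_
    rw [sum_const, Nat.card_Ico, nsmul_eq_mul]
    have e2 : k₁ + n - k₁ = n := by omega
    rw [e2]
    have e3 : (n : ℝ) * h ≤ (V : ℝ) - U := by
      have e4 : n * h + U ≤ V := by
        have : (k₁ + n) * h = k₁ * h + n * h := by ring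
        rw [hn] at b1
        omega
      have : ((n * h + U : ℕ) : ℝ) ≤ V := by exact_mod_cast e4
      push_cast at this
      linarith
    calc (n : ℝ) * (err * h) = err * (n * h) := by ring
      _ ≤ _ := mul_le_mul_of_nonneg_left e3 herr0
  rw [e0]
  calc _ ≤ |SS P s U (k₁ * h)| + |∑ j ∈ Ico k₁ (k₁ + n), SS P s (j * h) (j * h + h)| + |SS P s (k₂ * h) V| :=
        (abs_add_le _ _).trans (add_le_add (abs_add_le _ _) le_rfl)
    _ ≤ h * (1 + s) + err * ((V : ℝ) - U) + h * (1 + s) := by linarith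
    _ = _ := by ring

lemma fin_num (L X h ℓ s P err Λ : ℝ) (A b : ℕ) (hL : 100000 ≤ L) (hX : 0 < X) (hh : 0 < h) (hℓ : 0 < ℓ) (hb : b = 2 * A + 3)
    (hs0 : 0 ≤ s) (hs : s ≤ 2 * L ^ 2) (hP0 : 0 ≤ P) (hP : P ≤ 20 * X ^ 2) (hhℓ : h ≤ ℓ / L ^ b) (hℓX : ℓ ≤ 2 * X ^ 2)
    (hXh : X * (1000000 * L ^ (2 * A + 4)) ≤ h)
    (herr : err = (2 / L ^ (2 * A + 1) + 11 * L ^ 2 * (8 * h / X ^ 2)) + 4 * √P * (3 * L) ^ 2 / h)
    (hΛ0 : 0 < Λ) (hΛ : Λ ^ A ≤ L ^ (2 * A)) :
    err * ℓ + 2 * h * (1 + s) ≤ ℓ / Λ ^ A := by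
  have hL0 : 0 < L := by linarith
  have h1 : ℓ / L ^ (2 * A) ≤ ℓ / Λ ^ A := div_le_div_of_nonneg_left hℓ.le (by positivity) hΛ
  refine le_trans ?_ h1
  set T : ℝ := 1 / L ^ (2 * A + 1) with hT
  have hT0 : 0 < T := by positivity
  have hTT : ℓ / L ^ (2 * A) = L * (T * ℓ) := by
    rw [hT, pow_succ]
    field_simp
  have e1 : 11 * L ^ 2 * (8 * h / X ^ 2) ≤ 176 * T := by
    have e2 : h ≤ 2 * X ^ 2 / L ^ b := hhℓ.trans (div_le_div_of_nonneg_right hℓX (by positivity))
    have e3 : 8 * h / X ^ 2 ≤ 16 / L ^ b := by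
      rw [div_le_div_iff₀ (by positivity) (by positivity)]
      rw [le_div_iff₀ (by positivity)] at e2
      nlinarith
    calc 11 * L ^ 2 * (8 * h / X ^ 2) ≤ 11 * L ^ 2 * (16 / L ^ b) := by gcongr
      _ = 176 * T := by
          rw [hb, hT, show 2 * A + 3 = (2 * A + 1) + 2 by ring, pow_add L (2 * A + 1) 2]
          field_simp
          norm_num
  have e2 : 4 * √P * (3 * L) ^ 2 / h ≤ T := by
    have e3 : √P ≤ 5 * X := by
      rw [Real.sqrt_le_left (by positivity)]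
      nlinarith [sq_nonneg X]
    rw [div_le_iff₀ hh]
    calc 4 * √P * (3 * L) ^ 2 ≤ 4 * (5 * X) * (3 * L) ^ 2 := by gcongr
      _ = T * (X * (180 * L ^ (2 * A + 3))) := by
          rw [hT, show 2 * A + 3 = (2 * A + 1) + 2 by ring, pow_add L (2 * A + 1) 2]
          field_simp
          ring
      _ ≤ T * (X * (1000000 * L ^ (2 * A + 4))) := by
          have e5 : L ^ (2 * A + 3) ≤ L ^ (2 * A + 4) := pow_le_pow_right₀ (by linarith) (by omega)
          have e6 : 0 < L ^ (2 * A + 3) := by positivity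
          have e7 : 180 * L ^ (2 * A + 3) ≤ 1000000 * L ^ (2 * A + 4) := by nlinarith
          gcongr
      _ ≤ T * h := by gcongr
  have e3 : 2 * h * (1 + s) ≤ 6 * T * ℓ := by
    have e4 : h ≤ ℓ / L ^ b := hhℓ
    calc 2 * h * (1 + s) ≤ 2 * (ℓ / L ^ b) * (3 * L ^ 2) := by
          have : 1 + s ≤ 3 * L ^ 2 := by nlinarith
          gcongr
      _ = 6 * T * ℓ := by
          rw [hb, hT, show 2 * A + 3 = (2 * A + 1) + 2 by ring, pow_add L (2 * A + 1) 2]
          field_simp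
          norm_num
  have e4 : 2 / L ^ (2 * A + 1) = 2 * T := by rw [hT]; ring
  have e5 : err ≤ 179 * T := by
    rw [herr, e4]; linarith
  have e6 : err * ℓ ≤ 179 * T * ℓ := mul_le_mul_of_nonneg_right e5 hℓ.le
  rw [hTT]
  have e7 : 0 < T * ℓ := by positivity
  nlinarith

open Classical in
theorem main (A : ℕ) : ∃ C X₀ : ℕ, ∀ X : ℕ, X₀ ≤ X →
    (((Ioc X (2 * X)).filter (fun N => ¬ Wd A C N)).card : ℝ) ≤ X / Real.log X ^ A := by
  set b : ℕ := 2 * A + 3 with hb
  obtain ⟨Cc, E₀, hsc⟩ := scale (A + 2) (b + 2 * A + 1) (2 * A + 1)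
  set E' : ℕ := max E₀ (2 * A + 1 + 8) with hE'
  obtain ⟨X₁, h1⟩ := hsc (E' + 1)
  obtain ⟨X₂, h2⟩ := main_cell (2 * A + 1) (E' + 1)
  obtain ⟨X₃, h3⟩ := ev_L' 100000
  obtain ⟨X₄, h4⟩ := ev_log' (4 * A + 8) 1000000000000
  refine ⟨Cc + b + 1, max (max X₁ X₂) (max (max X₃ X₄) 16), ?_⟩
  intro X hX
  have c1 : X₁ ≤ X := ((le_max_left _ _).trans (le_max_left _ _)).trans hX
  have c2 : X₂ ≤ X := ((le_max_right _ _).trans (le_max_left _ _)).trans hX
  have c3 : X₃ ≤ X := ((le_max_left _ _).trans ((le_max_left _ _).trans (le_max_right _ _))).trans hX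
  have c4 : X₄ ≤ X := ((le_max_right _ _).trans ((le_max_left _ _).trans (le_max_right _ _))).trans hX
  have c5 : 16 ≤ X := ((le_max_right _ _).trans (le_max_right _ _)).trans hX
  have hL := h3 X c3
  have hroot := h4 X c4
  set L : ℝ := Real.log X with hLdef
  have hL0 : 0 < L := by linarith
  have hX1 : (16 : ℝ) ≤ X := by exact_mod_cast c5
  have hX0 : (0 : ℝ) < X := by linarith
  -- the model
  set z : ℕ := ⌈L ^ E'⌉₊ with hz
  have hz1 : L ^ E' ≤ z := Nat.le_ceil _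
  have hz2 : (z : ℝ) ≤ L ^ (E' + 1) := by
    have e1 : (z : ℝ) < L ^ E' + 1 := Nat.ceil_lt_add_one (by positivity)
    have e2 : 1 ≤ L ^ E' := one_le_pow₀ (by linarith)
    rw [pow_succ]
    nlinarith
  have hzE0 : L ^ E₀ ≤ z := (pow_le_pow_right₀ (by linarith) (le_max_left _ _)).trans hz1
  have hzA : L ^ (2 * A + 1 + 8) ≤ z := (pow_le_pow_right₀ (by linarith) (le_max_right _ _)).trans hz1
  set J : ℕ := Nat.log 2 (X ^ 2) + 1 with hJ
  set Ok : ℕ → Prop := fun j => 32 * 2 ^ j ≤ X ^ 2 ∧ (X : ℝ) ^ 3 * L ^ Cc ≤ ((2 ^ j : ℕ) : ℝ) ^ 2 with hOk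
  -- the exceptional set
  set Ex : Finset ℕ := ((range J).filter Ok).biUnion (fun j => (Ioc X (2 * X)).filter (fun N => ¬ SG z X (2 ^ j) (b + 2 * A + 1) (2 * A + 1) N)) with hEx
  have hExc : (Ex.card : ℝ) ≤ X / L ^ A := by
    have e1 : (Ex.card : ℝ) ≤ ∑ j ∈ (range J).filter Ok, (((Ioc X (2 * X)).filter (fun N => ¬ SG z X (2 ^ j) (b + 2 * A + 1) (2 * A + 1) N)).card : ℝ) := by
      exact_mod_cast card_biUnion_le
    have e2 : ∀ j ∈ (range J).filter Ok, (((Ioc X (2 * X)).filter (fun N => ¬ SG z X (2 ^ j) (b + 2 * A + 1) (2 * A + 1) N)).card : ℝ) ≤ X / L ^ (A + 2) := by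
      intro j hj
      rw [mem_filter] at hj
      exact h1 X c1 z hzE0 hz2 (2 ^ j) hj.2.1 hj.2.2
    refine e1.trans ((sum_le_sum e2).trans ?_)
    rw [sum_const, nsmul_eq_mul]
    have e3 : (((range J).filter Ok).card : ℝ) ≤ 4 * L := by
      have e4 : ((range J).filter Ok).card ≤ J := (card_filter_le _ _).trans (by rw [card_range])
      have e5 : (J : ℝ) ≤ 4 * L := by
        rw [hJ]
        push_cast
        have e6 : 2 ^ Nat.log 2 (X ^ 2) ≤ X ^ 2 := Nat.pow_log_le_self 2 (by positivity)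
        have e7 : ((2 : ℝ) ^ Nat.log 2 (X ^ 2)) ≤ (X : ℝ) ^ 2 := by exact_mod_cast e6
        have e8 : (Nat.log 2 (X ^ 2) : ℝ) * Real.log 2 ≤ 2 * L := by
          rw [← Real.log_pow]
          refine (Real.log_le_log (by positivity) e7).trans ?_
          rw [Real.log_pow]
          push_cast
          exact le_rfl
        have e9 := Real.log_two_gt_d9
        have e10 : (0 : ℝ) ≤ Nat.log 2 (X ^ 2) := Nat.cast_nonneg _
        nlinarith
      exact (by exact_mod_cast e4 : (((range J).filter Ok).card : ℝ) ≤ J).trans e5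
    calc (((range J).filter Ok).card : ℝ) * (X / L ^ (A + 2)) ≤ 4 * L * (X / L ^ (A + 2)) := by gcongr
      _ = 4 / L * (X / L ^ A) := by
          rw [pow_add L A 2]
          field_simp
      _ ≤ 1 * (X / L ^ A) := by
          apply mul_le_mul_of_nonneg_right _ (by positivity)
          rw [div_le_one hL0]; linarith
      _ = _ := one_mul _
  refine le_trans ?_ hExc
  have hsub : (Ioc X (2 * X)).filter (fun N => ¬ Wd A (Cc + b + 1) N) ⊆ Ex := by
    intro N hN
    rw [mem_filter, mem_Ioc] at hN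
    obtain ⟨⟨hN1, hN2⟩, hN3⟩ := hN
    by_contra hNE
    apply hN3
    intro u v huv hv hlen hu
    have hN1r : (X : ℝ) < N := by exact_mod_cast hN1
    have hN2r : (N : ℝ) ≤ 2 * X := by exact_mod_cast hN2
    have hN0 : (0 : ℝ) < N := by linarith
    set ℓ : ℝ := (v : ℝ) - u with hℓ
    have hℓ0 : 0 < ℓ := by
      have : (u : ℝ) < v := by exact_mod_cast huv
      linarith
    have hlN1 : L ≤ Real.log N := Real.log_le_log hX0 hN1r.le
    have hlN2 : Real.log N ≤ 2 * L := by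
      have : Real.log N ≤ Real.log (X ^ 2 : ℝ) := by
        apply Real.log_le_log hN0
        nlinarith
      rw [Real.log_pow] at this
      push_cast at this
      exact this
    have hvr : 2 * (v : ℝ) ≤ (N : ℝ) ^ 2 := by exact_mod_cast hv
    have hN2X : (N : ℝ) ^ 2 ≤ 4 * X ^ 2 := by nlinarith
    have hur0 : (0 : ℝ) ≤ u := Nat.cast_nonneg _
    have hℓX : ℓ ≤ 2 * (X : ℝ) ^ 2 := by linarith
    have hlA : Real.log N ^ A ≤ L ^ (2 * A) := by
      calc Real.log N ^ A ≤ (2 * L) ^ A := pow_le_pow_left₀ (by linarith) hlN2 _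
        _ ≤ L ^ (2 * A) := two_pow_le L (by linarith) A
    -- lower bound for the length
    have hlow : (X : ℝ) ^ 3 * L ^ (2 * (Cc + b + 1)) ≤ ℓ ^ 2 := by
      have e1 : 0 ≤ (N : ℝ) ^ (3 / 2 : ℝ) * Real.log N ^ (Cc + b + 1) := by
        have : 0 ≤ Real.log N := by linarith
        positivity
      have e2 : ((N : ℝ) ^ (3 / 2 : ℝ) * Real.log N ^ (Cc + b + 1)) ^ 2 ≤ ℓ ^ 2 := pow_le_pow_left₀ e1 hlen 2
      refine le_trans ?_ e2
      rw [mul_pow, ← pow_mul, mul_comm (Cc + b + 1) 2, ← Real.rpow_natCast ((N : ℝ) ^ (3 / 2 : ℝ)) 2, ← Real.rpow_mul hN0.le]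
      have e3 : (3 / 2 : ℝ) * ((2 : ℕ) : ℝ) = ((3 : ℕ) : ℝ) := by norm_num
      rw [e3, Real.rpow_natCast]
      gcongr
    -- the scale
    set y : ℝ := ℓ / L ^ b with hy
    have hyX : (X : ℝ) * (2000000 * L ^ (2 * A + 4)) ≤ y := by
      rw [hy, le_div_iff₀ (by positivity)]
      have e1 : ((X : ℝ) * (2000000 * L ^ (2 * A + 4)) * L ^ b) ^ 2 ≤ ℓ ^ 2 := by
        refine le_trans ?_ hlow
        have e2 : (4000000000000 : ℝ) * L ^ (4 * A + 8) ≤ X := by
          have f1 : √(X : ℝ) * 4 ≤ X := by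
            have f2 : (4 : ℝ) ≤ √X := by
              apply Real.le_sqrt_of_sq_le
              linarith
            calc √(X : ℝ) * 4 ≤ √(X : ℝ) * √X := by gcongr
              _ = X := Real.mul_self_sqrt hX0.le
          linarith
        calc ((X : ℝ) * (2000000 * L ^ (2 * A + 4)) * L ^ b) ^ 2 = (X : ℝ) ^ 2 * (4000000000000 * L ^ (4 * A + 8)) * L ^ (2 * b) := by
              rw [mul_pow, mul_pow, mul_pow, ← pow_mul, ← pow_mul, show (2 * A + 4) * 2 = 4 * A + 8 by ring, mul_comm b 2]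
              norm_num
          _ ≤ (X : ℝ) ^ 2 * X * L ^ (2 * b) := by gcongr
          _ = (X : ℝ) ^ 3 * L ^ (2 * b) := by ring
          _ ≤ (X : ℝ) ^ 3 * L ^ (2 * (Cc + b + 1)) := by
              apply mul_le_mul_of_nonneg_left _ (by positivity)
              exact pow_le_pow_right₀ (by linarith) (by omega)
      exact le_of_pow_le_pow_left₀ (by norm_num) hℓ0.le e1
    have hLp : (1 : ℝ) ≤ L ^ (2 * A + 4) := one_le_pow₀ (by linarith)
    have hy1 : 2 ≤ y := by
      refine le_trans ?_ hyX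
      nlinarith
    set n : ℕ := ⌊y⌋₊ with hn
    have hn1 : 1 ≤ n := Nat.le_floor (by push_cast; linarith)
    set j : ℕ := Nat.log 2 n with hj
    set h : ℕ := 2 ^ j with hh
    have hhn : h ≤ n := Nat.pow_log_le_self 2 (by omega)
    have hnh : n < 2 * h := by
      have := Nat.lt_pow_succ_log_self (b := 2) (by norm_num) n
      rw [hh, ← pow_succ']
      exact this
    have hhy : (h : ℝ) ≤ y := by
      have e1 : (h : ℝ) ≤ n := by exact_mod_cast hhn
      exact e1.trans (Nat.floor_le (by linarith))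
    have hyh : y < 2 * h := by
      have e1 : y < n + 1 := Nat.lt_floor_add_one y
      have e2 : ((n + 1 : ℕ) : ℝ) ≤ ((2 * h : ℕ) : ℝ) := by exact_mod_cast hnh
      push_cast at e2
      linarith
    have hh1 : 1 ≤ h := Nat.one_le_two_pow
    have hh0 : (0 : ℝ) < h := by exact_mod_cast hh1
    have hLb : (1000000 : ℝ) ≤ L ^ b := by
      calc (1000000 : ℝ) ≤ L ^ 3 := by nlinarith [pow_le_pow_left₀ (by norm_num : (0 : ℝ) ≤ 100000) hL 3]
        _ ≤ L ^ b := pow_le_pow_right₀ (by linarith) (by omega)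
    have hok1 : 32 * 2 ^ j ≤ X ^ 2 := by
      have e1 : (32 * (h : ℝ)) ≤ (X : ℝ) ^ 2 := by
        have e2 : y ≤ 2 * (X : ℝ) ^ 2 / 1000000 := by
          rw [hy]
          exact div_le_div₀ (by positivity) hℓX (by norm_num) hLb
        nlinarith [sq_nonneg (X : ℝ)]
      exact_mod_cast e1
    have hok2 : (X : ℝ) ^ 3 * L ^ Cc ≤ ((2 ^ j : ℕ) : ℝ) ^ 2 := by
      rw [← hh]
      have e1 : (ℓ / L ^ b) ^ 2 ≤ (2 * (h : ℝ)) ^ 2 := pow_le_pow_left₀ (by positivity) hyh.le 2
      have e2 : (X : ℝ) ^ 3 * L ^ (2 * (Cc + b + 1)) / (L ^ b) ^ 2 ≤ 4 * (h : ℝ) ^ 2 := by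
        calc (X : ℝ) ^ 3 * L ^ (2 * (Cc + b + 1)) / (L ^ b) ^ 2 ≤ ℓ ^ 2 / (L ^ b) ^ 2 := by gcongr
          _ = (ℓ / L ^ b) ^ 2 := by rw [div_pow]
          _ ≤ _ := e1
          _ = _ := by ring
      have e3 : (X : ℝ) ^ 3 * L ^ (2 * (Cc + b + 1)) / (L ^ b) ^ 2 = (X : ℝ) ^ 3 * L ^ (2 * Cc + 2) := by
        rw [← pow_mul, show 2 * (Cc + b + 1) = (2 * Cc + 2) + b * 2 by ring, pow_add L (2 * Cc + 2) (b * 2)]
        field_simp
      rw [e3] at e2
      have e4 : 4 * L ^ Cc ≤ L ^ (2 * Cc + 2) := by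
        rw [show 2 * Cc + 2 = Cc + (Cc + 2) by ring, pow_add L Cc (Cc + 2), mul_comm]
        apply mul_le_mul_of_nonneg_left _ (by positivity)
        calc (4 : ℝ) ≤ L ^ 1 := by rw [pow_one]; linarith
          _ ≤ L ^ (Cc + 2) := pow_le_pow_right₀ (by linarith) (by omega)
      have e5 : (X : ℝ) ^ 3 * (4 * L ^ Cc) ≤ 4 * (h : ℝ) ^ 2 := (mul_le_mul_of_nonneg_left e4 (by positivity)).trans e2
      linarith
    have hjJ : j ∈ (range J).filter Ok := by
      rw [mem_filter, mem_range]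
      refine ⟨?_, hok1, hok2⟩
      rw [hJ]
      have e1 : j ≤ Nat.log 2 (X ^ 2) := by
        apply Nat.le_log_of_pow_le (by norm_num)
        omega
      omega
    have hSG : SG z X h (b + 2 * A + 1) (2 * A + 1) N := by
      by_contra hcon
      apply hNE
      rw [hEx, mem_biUnion]
      exact ⟨j, hjJ, by rw [mem_filter, mem_Ioc]; exact ⟨⟨hN1, hN2⟩, hcon⟩⟩
    have hXh : (X : ℝ) * (1000000 * L ^ (2 * A + 4)) ≤ h := by linarith
    have hXh1 : 1000000 * (X : ℝ) ≤ h := by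
      refine le_trans ?_ hXh
      have : (X : ℝ) * 1000000 ≤ X * (1000000 * L ^ (2 * A + 4)) := by
        apply mul_le_mul_of_nonneg_left _ hX0.le
        linarith
      linarith
    -- the polynomial
    have hPN : ((PN N : ℕ) : ℝ) = 2 * (N : ℝ) ^ 2 + 2 * N + 2 := by unfold PN; push_cast; ring
    have hPNZ : ((PN N : ℕ) : ℤ) = 2 * (N : ℤ) ^ 2 + 2 * (N : ℕ) + 2 := by unfold PN; push_cast; ring
    have hPX : PN N ≤ 20 * X ^ 2 := by
      unfold PN
      have e1 : N ^ 2 ≤ (2 * X) ^ 2 := Nat.pow_le_pow_left hN2 2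
      have e2 : (2 * X) ^ 2 = 4 * X ^ 2 := by ring
      have e3 : 16 * X ≤ X ^ 2 := by nlinarith
      omega
    have hNX2 : X ^ 2 ≤ N ^ 2 := Nat.pow_le_pow_left hN1.le 2
    have hX256 : 256 ≤ X ^ 2 := by nlinarith
    have hVP : 2 * (N ^ 2 + 1 + v) + N ^ 2 ≤ 2 * PN N := by
      unfold PN
      omega
    obtain ⟨hs1, hs2⟩ := (h2 X c2 z hzA hz2 h X (PN N) (by exact_mod_cast (by linarith : (X : ℝ) ≤ h)) (by omega)
      (by
        unfold PN
        have : h ≤ X ^ 2 := by omega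
        have e3 : 16 * X ≤ X ^ 2 := by nlinarith
        omega) hPX).2
    have hlogm : ∀ m : ℕ, m ≤ PN N → Real.log m ≤ 3 * L := by
      intro m hm
      rcases Nat.eq_zero_or_pos m with h0 | h0
      · rw [h0]; simp; linarith
      · have e1 : (m : ℝ) ≤ 20 * (X : ℝ) ^ 2 := by exact_mod_cast hm.trans hPX
        refine (Real.log_le_log (by exact_mod_cast h0) e1).trans ?_
        rw [Real.log_mul (by norm_num) (by positivity), Real.log_pow]
        have : Real.log 20 ≤ 19 := by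
          have := Real.log_le_sub_one_of_pos (show (0 : ℝ) < 20 by norm_num)
          linarith
        push_cast
        linarith
    set s : ℝ := sgP (PN N) with hsdef
    set err : ℝ := (2 / L ^ (2 * A + 1) + 11 * L ^ 2 * (8 * h / X ^ 2)) + 4 * √((PN N : ℕ) : ℝ) * (3 * L) ^ 2 / h with herrdef
    have hcell : ∀ k : ℕ, N ^ 2 + 1 + u ≤ k * h → k * h + h ≤ N ^ 2 + 1 + v → |SS (PN N) s (k * h) (k * h + h)| ≤ err * h := by
      intro k hk1 hk2
      have g1 : DD z h k N ≤ h / L ^ (2 * A + 1) := by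
        apply hSG k
        · omega
        · have : 3 * (k * h + h) + X ^ 2 ≤ 3 * PN N := by omega
          unfold PN at this
          exact this
        · have e1 : (N : ℝ) ^ 2 + 1 + u ≤ ((k * h : ℕ) : ℝ) := by exact_mod_cast hk1
          have e2 : ((k * h : ℕ) : ℝ) + h ≤ (N : ℝ) ^ 2 + 1 + v := by exact_mod_cast hk2
          have e3 : |((k * h : ℕ) : ℝ) - cen N| ≤ v + N := by
            unfold cen
            rw [abs_le]
            constructor <;> linarith
          refine e3.trans ?_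
          have e4 : (v : ℝ) ≤ 2 * (ℓ * L ^ (2 * A)) := by
            have f1 : (u : ℝ) ≤ ℓ * L ^ (2 * A) := hu.trans (mul_le_mul_of_nonneg_left hlA hℓ0.le)
            have f2 : ℓ ≤ ℓ * L ^ (2 * A) := le_mul_of_one_le_right hℓ0.le (one_le_pow₀ (by linarith))
            linarith
          have e5 : ℓ ≤ 2 * h * L ^ b := by
            have := hyh.le
            rw [hy, div_le_iff₀ (by positivity)] at this
            exact this
          have e6 : (N : ℝ) ≤ h * L ^ (b + 2 * A) := by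
            have f1 : (h : ℝ) ≤ h * L ^ (b + 2 * A) := le_mul_of_one_le_right hh0.le (one_le_pow₀ (by linarith))
            linarith
          have e7 : 2 * (ℓ * L ^ (2 * A)) ≤ 4 * (h * L ^ (b + 2 * A)) := by
            calc 2 * (ℓ * L ^ (2 * A)) ≤ 2 * ((2 * h * L ^ b) * L ^ (2 * A)) := by gcongr
              _ = _ := by rw [pow_add]; ring
          have e8 : L ^ (b + 2 * A + 1) * h = L * (h * L ^ (b + 2 * A)) := by rw [pow_succ]; ring
          rw [e8]
          have e9 : 0 < h * L ^ (b + 2 * A) := by positivity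
          nlinarith
      have hkX : k * h ≤ 20 * X ^ 2 := by omega
      have g2 := (h2 X c2 z hzA hz2 h (k * h) (PN N) (by exact_mod_cast (by linarith : (X : ℝ) ≤ h)) (by omega) (by omega) hPX).1
      unfold DD at g1
      rw [← hPNZ] at g1
      have g3 : |rr lamI lamI ((k * h : ℕ) : ℤ) h ((PN N : ℕ) : ℤ) - h * s| ≤ (2 / L ^ (2 * A + 1)) * h := by
        refine (abs_sub_le _ (rr (lamzI z) (lamzI z) ((k * h : ℕ) : ℤ) h ((PN N : ℕ) : ℤ)) _).trans ?_
        have : (2 / L ^ (2 * A + 1)) * (h : ℝ) = h / L ^ (2 * A + 1) + h / L ^ (2 * A + 1) := by ring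
        rw [this]
        exact add_le_add g1 g2
      have g4 := cell_count (PN N) (k * h) h ((X : ℝ) ^ 2 / 4) (8 * h / X ^ 2) s (2 / L ^ (2 * A + 1)) L
        (by nlinarith)
        (by
          have : ((X ^ 2 : ℕ) : ℝ) ≤ ((4 * (k * h) : ℕ) : ℝ) := by exact_mod_cast (by omega : X ^ 2 ≤ 4 * (k * h))
          push_cast at this ⊢
          linarith)
        (by
          have : ((X ^ 2 + 4 * (k * h + h) : ℕ) : ℝ) ≤ ((4 * PN N : ℕ) : ℝ) := by exact_mod_cast (by omega : X ^ 2 + 4 * (k * h + h) ≤ 4 * PN N)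
          push_cast at this ⊢
          linarith)
        (by
          apply le_of_eq
          field_simp
          norm_num) hs1 hs2 (by linarith) hlogm g3
      rw [SS_eq]
      refine g4.trans (le_of_eq ?_)
      rw [herrdef]
      field_simp
    have herr0 : 0 ≤ err := by
      rw [herrdef]
      positivity
    have hasm := assemble (PN N) (N ^ 2 + 1 + u) (N ^ 2 + 1 + v) h s err hh1 hs1 (by omega) (by omega) (by
      have e1 : ((2 * h : ℕ) : ℝ) ≤ ((v - u : ℕ) : ℝ) := by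
        rw [Nat.cast_sub huv.le]
        push_cast
        have e2 : (h : ℝ) * 1000000 ≤ ℓ := by
          have e3 : (h : ℝ) * L ^ b ≤ ℓ := by
            have := hhy
            rw [hy, le_div_iff₀ (by positivity)] at this
            exact this
          exact (mul_le_mul_of_nonneg_left hLb hh0.le).trans e3
        linarith
      have e4 : 2 * h ≤ v - u := by exact_mod_cast e1
      omega) herr0 hcell
    rw [SS_eq] at hasm
    refine hasm.trans ?_
    have e1 : (((N ^ 2 + 1 + v : ℕ) : ℝ) - ((N ^ 2 + 1 + u : ℕ) : ℝ)) = ℓ := by push_cast; rw [hℓ]; ring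
    rw [e1]
    exact fin_num L X h ℓ s (PN N) err (Real.log N) A b hL hX0 hh0 hℓ0 hb hs1 hs2 (Nat.cast_nonneg _)
      (by exact_mod_cast hPX) hhy hℓX hXh herrdef (by linarith) hlA
  exact_mod_cast card_le_card hsub

end Pool.Agent.H79.V
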