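import Pool.Agent.H79.V.Mj
import Pool.Graph.R_pool_sql_team_seeded_620a6dc7.helper24_UT_.Mk

/-! Exponential sums over primes minus model in a window, all `α`, from the distribution in progressions in shorter windows. -/

set_option autoImplicit false

namespace Pool.Agent.H79.V

open Finset
open Pool.Agent.helper24_UT
open Pool.Agent.H807R2.Dav (ee norm_ee)
open Pool.Agent.H373R2.T7 (lamI lamzI lamz Vz pz mem_pz ev_log' ev_L' Vz_pos Vz_inv_small)
open Pool.Agent.helper24_UT.Mj (h176_NN_nonneg)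
open Pool.Agent.helper24_UT.Mk (Ed_bound)

lemma two_pow_le (L : ℝ) (hL : 2 ≤ L) (b : ℕ) : (2 * L) ^ b ≤ L ^ (2 * b) := by
  calc (2 * L) ^ b ≤ (L ^ 2) ^ b := pow_le_pow_left₀ (by positivity) (by nlinarith) _
    _ = L ^ (2 * b) := by rw [← pow_mul]

/-- the final inequality on major arcs -/
lemma maj_num (L h W X S β n q K : ℝ) (B B' d : ℕ) (hL : 1000 ≤ L) (hh : 0 < h) (hW : 0 < W) (hX : 0 < X)
    (hB : 2 * B' ≤ B) (hS : S ≤ h * W / (4 * L ^ d)) (hn : h ^ 2 / (X ^ 2 * (2 * L) ^ B') ≤ n)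
    (hWh : W * X ^ 2 * L ^ (B + d + 3) ≤ h ^ 2) (hhX : h ≤ X ^ 2) (hβ : β ≤ 1 / n) (hβ0 : 0 ≤ β) (hK : K ≤ 2 * h) (hK0 : 0 ≤ K) :
    1 / W * S + 2 * Real.pi * K * W * β * (3 * L) + 2 * W * (3 * L) ≤ h / L ^ d := by
  have hL0 : 0 < L := by linarith
  have hLd : 0 < L ^ d := by positivity
  have h2B : (2 * L) ^ B' ≤ L ^ B := (two_pow_le L (by linarith) B').trans (pow_le_pow_right₀ (by linarith) hB)
  have h1 : 1 / W * S ≤ h / L ^ d / 4 := by
    calc 1 / W * S ≤ 1 / W * (h * W / (4 * L ^ d)) := by gcongr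
      _ = h / L ^ d / 4 := by field_simp
  have hn0 : 0 < n := lt_of_lt_of_le (by positivity) hn
  -- `W / n ≤ 1 / L ^ (d + 3)`
  have hWn : W * (1 / n) ≤ 1 / L ^ (d + 3) := by
    rw [mul_one_div, div_le_div_iff₀ hn0 (by positivity), one_mul]
    refine le_trans ?_ hn
    rw [le_div_iff₀ (by positivity)]
    calc W * L ^ (d + 3) * (X ^ 2 * (2 * L) ^ B') ≤ W * L ^ (d + 3) * (X ^ 2 * L ^ B) := by gcongr
      _ = W * X ^ 2 * L ^ (B + d + 3) := by
          rw [show B + d + 3 = (d + 3) + B by ring, pow_add L (d + 3) B]; ring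
      _ ≤ h ^ 2 := hWh
  have hpi : Real.pi ≤ 4 := Real.pi_le_four
  have h2 : 2 * Real.pi * K * W * β * (3 * L) ≤ h / L ^ d / 4 := by
    calc 2 * Real.pi * K * W * β * (3 * L) = (6 * Real.pi * L * K) * (W * β) := by ring
      _ ≤ (6 * 4 * L * (2 * h)) * (1 / L ^ (d + 3)) := by
          apply mul_le_mul _ _ (by positivity) (by positivity)
          · gcongr
          · exact (mul_le_mul_of_nonneg_left hβ hW.le).trans hWn
      _ = 48 / L ^ 2 * (h / L ^ d) := by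
          rw [pow_add L d 3]
          field_simp
          norm_num
      _ ≤ 1 / 4 * (h / L ^ d) := by
          apply mul_le_mul_of_nonneg_right _ (by positivity)
          rw [div_le_div_iff₀ (by positivity) (by norm_num)]
          nlinarith
      _ = _ := by ring
  have h3 : 2 * W * (3 * L) ≤ h / L ^ d / 4 := by
    have h4 : W ≤ h / L ^ (d + 3) := by
      rw [le_div_iff₀ (by positivity)]
      have h5 : W * L ^ (d + 3) * X ^ 2 ≤ h * X ^ 2 := by
        have hLB : 1 ≤ L ^ B := one_le_pow₀ (by linarith)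
        calc W * L ^ (d + 3) * X ^ 2 ≤ (W * L ^ (d + 3) * X ^ 2) * L ^ B := le_mul_of_one_le_right (by positivity) hLB
          _ = W * X ^ 2 * L ^ (B + d + 3) := by
              rw [show B + d + 3 = (d + 3) + B by ring, pow_add L (d + 3) B]; ring
          _ ≤ h ^ 2 := hWh
          _ ≤ h * X ^ 2 := by nlinarith
      exact le_of_mul_le_mul_right h5 (by positivity)
    calc 2 * W * (3 * L) ≤ 2 * (h / L ^ (d + 3)) * (3 * L) := by gcongr
      _ = 6 / L ^ 2 * (h / L ^ d) := by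
          rw [pow_add L d 3]
          field_simp
          ring
      _ ≤ 1 / 4 * (h / L ^ d) := by
          apply mul_le_mul_of_nonneg_right _ (by positivity)
          rw [div_le_div_iff₀ (by positivity) (by norm_num)]
          nlinarith
      _ = _ := by ring
  have h4 : 0 ≤ h / L ^ d := by positivity
  linarith

/-- the bound for one window -/
theorem gp (d : ℕ) : ∃ B : ℕ, ∀ E : ℕ, ∃ X₀ : ℕ, ∀ X : ℕ, X₀ ≤ X → ∀ z : ℕ, 1 ≤ z → (z : ℝ) ≤ (Real.log X) ^ E →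
    ∀ h : ℕ, 32 * h ≤ X ^ 2 → (X : ℝ) ^ 4 * (Real.log X) ^ B ≤ (h : ℝ) ^ 3 → ∀ W : ℕ, 1 ≤ W →
    (W : ℝ) * (X : ℝ) ^ 2 * (Real.log X) ^ (B + d + 3) ≤ (h : ℝ) ^ 2 → ∀ x K : ℕ, X ^ 2 ≤ 4 * x → x ≤ 12 * X ^ 2 → K ≤ 2 * h →
    (∀ q : ℕ, 1 ≤ q → (q : ℝ) ≤ (Real.log X) ^ B →
      ∑ u ∈ Ico (x : ℤ) (x + K), Real.sqrt (q * NN (Ed z) u W q) ≤ h * W / (4 * (Real.log X) ^ d)) →
    ∀ α : ℝ, ‖sw (Ed z) K (x : ℤ) α‖ ≤ h / (Real.log X) ^ d := by
  obtain ⟨B', hB'⟩ := minor_E (d + 1)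
  refine ⟨2 * B', fun E => ?_⟩
  obtain ⟨X₁, h1⟩ := hB' E
  obtain ⟨X₂, h2⟩ := Vz_inv_small E
  obtain ⟨X₃, h3⟩ := ev_L' 1000
  refine ⟨max (max X₁ X₂) (max X₃ 1), ?_⟩
  intro X hX z hz hzE h hh hh3 W hW hWh x K hx1 hx2 hK hS α
  have c1 : X₁ ≤ X := ((le_max_left _ _).trans (le_max_left _ _)).trans hX
  have c2 : X₂ ≤ X := ((le_max_right _ _).trans (le_max_left _ _)).trans hX
  have c3 : X₃ ≤ X := ((le_max_left _ _).trans (le_max_right _ _)).trans hX
  have c4 : 1 ≤ X := ((le_max_right _ _).trans (le_max_right _ _)).trans hX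
  have hV := h2 X c2 z hz hzE
  have hL := h3 X c3
  set L : ℝ := Real.log X with hLdef
  have hL0 : 0 < L := by linarith
  have hX1 : (1 : ℝ) ≤ X := by exact_mod_cast c4
  have hX0 : (0 : ℝ) < X := by linarith
  have hXX : X ≤ X ^ 2 := by nlinarith
  have hlogZ : Real.log ((X ^ 2 : ℕ) : ℝ) = 2 * L := by
    push_cast
    rw [Real.log_pow]
    push_cast
    ring
  have h2B : (2 * L) ^ B' ≤ L ^ (2 * B') := two_pow_le L (by linarith) B'
  have hW0 : (0 : ℝ) < W := by exact_mod_cast hW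
  have hh0 : (0 : ℝ) < h := by
    have h4 : 0 < (h : ℝ) ^ 2 := lt_of_lt_of_le (by positivity) hWh
    have h5 : (h : ℝ) ≠ 0 := by
      intro h0
      rw [h0] at h4
      norm_num at h4
    exact lt_of_le_of_ne (Nat.cast_nonneg _) (Ne.symm h5)
  have hhX : (h : ℝ) ≤ (X : ℝ) ^ 2 := by
    have : h ≤ X ^ 2 := by omega
    exact_mod_cast this
  -- Dirichlet
  set Q : ℝ := ((2 * h : ℕ) : ℝ) ^ 2 / ((X : ℝ) ^ 2 * (2 * L) ^ B') with hQ
  have hQh : (h : ℝ) ^ 2 / ((X : ℝ) ^ 2 * (2 * L) ^ B') ≤ Q := by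
    rw [hQ]
    apply div_le_div_of_nonneg_right _ (by positivity)
    push_cast
    nlinarith
  have hQ1 : 1 ≤ Q := by
    refine le_trans ?_ hQh
    rw [le_div_iff₀ (by positivity), one_mul]
    have hW1 : (1 : ℝ) ≤ W := by exact_mod_cast hW
    have e1 : L ^ (2 * B') ≤ L ^ (2 * B' + d + 3) := pow_le_pow_right₀ (by linarith) (by omega)
    calc (X : ℝ) ^ 2 * (2 * L) ^ B' ≤ (X : ℝ) ^ 2 * L ^ (2 * B' + d + 3) := by gcongr; exact h2B.trans e1
      _ ≤ (W : ℝ) * ((X : ℝ) ^ 2 * L ^ (2 * B' + d + 3)) := le_mul_of_one_le_left (by positivity) hW1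
      _ ≤ (h : ℝ) ^ 2 := by rw [← mul_assoc]; exact hWh
  have hn1 : 0 < ⌊Q⌋₊ := Nat.floor_pos.2 hQ1
  obtain ⟨r, hr1, hr2⟩ := Real.exists_rat_abs_sub_le_and_den_le α hn1
  set q : ℕ := r.den with hq
  have hq1 : 1 ≤ q := r.den_pos
  have hq0 : (0 : ℝ) < q := by exact_mod_cast hq1
  have hrr : ((r : ℚ) : ℝ) = (r.num : ℝ) / q := by
    rw [hq]
    exact_mod_cast (Rat.num_div_den r).symm
  rw [hrr] at hr1
  have hcop : IsCoprime r.num (q : ℤ) := by
    rw [hq]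
    exact Int.isCoprime_iff_gcd_eq_one.2 r.reduced
  have hqn : (q : ℝ) ≤ (⌊Q⌋₊ : ℝ) := by exact_mod_cast hr2
  have hnQ : (⌊Q⌋₊ : ℝ) ≤ Q := Nat.floor_le (by linarith)
  have hn2 : Q ≤ (⌊Q⌋₊ : ℝ) + 1 := (Nat.lt_floor_add_one Q).le
  have hα : |α - r.num / q| ≤ 1 / (q : ℝ) ^ 2 := by
    refine hr1.trans ?_
    apply one_div_le_one_div_of_le (by positivity)
    rw [sq]
    apply mul_le_mul_of_nonneg_right _ hq0.le
    linarith
  by_cases hqB : (2 * L) ^ B' ≤ q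
  · -- minor arcs
    have g1 : ((X ^ 2 : ℕ) : ℝ) ^ 2 * Real.log ((X ^ 2 : ℕ) : ℝ) ^ B' ≤ ((2 * h : ℕ) : ℝ) ^ 3 := by
      rw [hlogZ]
      push_cast
      have e1 : (h : ℝ) ^ 3 ≤ (2 * (h : ℝ)) ^ 3 := pow_le_pow_left₀ hh0.le (by linarith) 3
      calc ((X : ℝ) ^ 2) ^ 2 * (2 * L) ^ B' ≤ (X : ℝ) ^ 4 * L ^ (2 * B') := by
            rw [← pow_mul]; gcongr
        _ ≤ _ := hh3.trans e1
    have g2 : (q : ℝ) * ((X ^ 2 : ℕ) : ℝ) * Real.log ((X ^ 2 : ℕ) : ℝ) ^ B' ≤ ((2 * h : ℕ) : ℝ) ^ 2 := by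
      rw [hlogZ]
      have e1 : (q : ℝ) ≤ Q := hqn.trans hnQ
      rw [hQ, le_div_iff₀ (by positivity)] at e1
      push_cast at e1 ⊢
      linarith
    have g3 : (z : ℝ) ≤ Real.log ((X ^ 2 : ℕ) : ℝ) ^ E := by
      rw [hlogZ]
      exact hzE.trans (pow_le_pow_left₀ hL0.le (by linarith) _)
    have g4 := h1 (X ^ 2) (c1.trans hXX) (2 * h) (by omega) g1 z hz g3 q (by rw [hlogZ]; exact hqB) g2 r.num hcop α hα x K
      (by omega) (by omega) hK
    refine g4.trans ?_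
    rw [hlogZ]
    push_cast
    rw [div_le_div_iff₀ (by positivity) (by positivity)]
    calc 2 * (h : ℝ) * L ^ d ≤ h * (2 * L) * L ^ d := by
          have : 2 * (h : ℝ) ≤ h * (2 * L) := by nlinarith
          gcongr
      _ ≤ h * (2 * L) ^ (d + 1) := by
          rw [pow_succ (2 * L) d, mul_assoc, mul_comm (2 * L)]
          have : L ^ d ≤ (2 * L) ^ d := pow_le_pow_left₀ hL0.le (by linarith) d
          gcongr
  · -- major arcs
    push Not at hqB
    have hqB2 : (q : ℝ) ≤ L ^ (2 * B') := hqB.le.trans h2B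
    have hE : ∀ m : ℤ, (x : ℤ) < m → m ≤ (x : ℤ) + K → |Ed z m| ≤ 3 * L := by
      intro m _ hm
      have hlog13 : Real.log (13 * (X : ℝ) ^ 2) ≤ 3 * L := by
        rw [Real.log_mul (by norm_num) (by positivity), Real.log_pow]
        have : Real.log 13 ≤ 12 := by
          have := Real.log_le_sub_one_of_pos (show (0 : ℝ) < 13 by norm_num)
          linarith
        push_cast
        linarith
      refine Ed_bound z m L (13 * (X : ℝ) ^ 2) hL0.le ?_ hlog13 hV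
      have h5 : m ≤ 13 * (X : ℤ) ^ 2 := by
        have e1 : (x : ℤ) ≤ 12 * (X : ℤ) ^ 2 := by exact_mod_cast hx2
        have e2 : (K : ℤ) ≤ (X : ℤ) ^ 2 := by
          have : K ≤ X ^ 2 := by omega
          exact_mod_cast this
        linarith
      exact_mod_cast h5
    have key := major_win (Ed z) x K W q r.num α (3 * L) (by positivity) hW hq1 hE
    refine key.trans ?_
    have hβ : |α - r.num / q| ≤ 1 / Q := by
      refine hr1.trans ?_
      apply one_div_le_one_div_of_le (by linarith)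
      have hq1r : (1 : ℝ) ≤ q := by exact_mod_cast hq1
      calc Q ≤ ((⌊Q⌋₊ : ℝ) + 1) * 1 := by linarith
        _ ≤ ((⌊Q⌋₊ : ℝ) + 1) * q := by gcongr
    exact maj_num L h W X _ _ Q q K (2 * B') B' d (by linarith) hh0 hW0 hX0 le_rfl (hS q hq1 hqB2) hQh hWh hhX hβ (abs_nonneg _)
      (by exact_mod_cast hK) (Nat.cast_nonneg _)

end Pool.Agent.H79.V
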