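import Pool.Agent.H79.V.Mp
import Pool.Agent.H79.Q.Asm
import Pool.Graph.R_pool_sql_team_seeded_620a6dc7.helper24_UT_.Miz
import Pool.Graph.R_pool_sql_team_seeded_620a6dc7.helper24_UT_.Min

/-! Primes minus the sieve model with a linear phase in short windows: minor arcs, every window. -/

set_option autoImplicit false

namespace Pool.Agent.H79.V

open Finset
open Pool.Agent.helper24_UT
open Pool.Agent.H807R2.Dav (ee norm_ee)
open Pool.Agent.H373R2.T7 (lamI lamzI lamz Vz pz mem_pz ev_log' ev_L' Vz_pos Vz_inv_small)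

lemma lamz_bd (z n : ℕ) : 0 ≤ lamz z n ∧ lamz z n ≤ (Vz z)⁻¹ := by
  have h := inv_nonneg.2 (Vz_pos z).le
  unfold lamz
  split_ifs
  · exact ⟨h, le_rfl⟩
  · exact ⟨le_rfl, h⟩

lemma lamz_triv (z x K : ℕ) (α : ℝ) :
    ‖∑ n ∈ Ioc x (x + K), (lamz z n : ℂ) * ee (n * α)‖ ≤ K * (Vz z)⁻¹ := by
  refine (norm_sum_le _ _).trans ?_
  have h : ∀ n ∈ Ioc x (x + K), ‖(lamz z n : ℂ) * ee (n * α)‖ ≤ (Vz z)⁻¹ := by
    intro n _
    rw [norm_mul, norm_ee, mul_one, Complex.norm_real, Real.norm_of_nonneg (lamz_bd z n).1]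
    exact (lamz_bd z n).2
  refine (sum_le_sum h).trans ?_
  rw [sum_const, Nat.card_Ioc, nsmul_eq_mul]
  simp

/-- minor arcs, primes minus model, in every window -/
theorem minor_E (A : ℕ) : ∃ B : ℕ, ∀ E : ℕ, ∃ X₀ : ℕ, ∀ X : ℕ, X₀ ≤ X → ∀ H : ℕ, 16 * H ≤ X →
    (X : ℝ) ^ 2 * (Real.log X) ^ B ≤ (H : ℝ) ^ 3 → ∀ z : ℕ, 1 ≤ z → (z : ℝ) ≤ (Real.log X) ^ E →
    ∀ q : ℕ, (Real.log X) ^ B ≤ q → (q : ℝ) * X * (Real.log X) ^ B ≤ (H : ℝ) ^ 2 → ∀ c : ℤ, IsCoprime c (q : ℤ) →
    ∀ α : ℝ, |α - c / q| ≤ 1 / (q : ℝ) ^ 2 → ∀ x K : ℕ, X ≤ 16 * x → x ≤ 16 * X → K ≤ H →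
    ‖sw (Ed z) K (x : ℤ) α‖ ≤ H / (Real.log X) ^ A := by
  obtain ⟨B₁, X₁, h1⟩ := minor_win (A + 1)
  obtain ⟨B₂, h2⟩ := Miz.main 2 (A + 1) (by norm_num)
  refine ⟨B₁ + (2 * B₂ + A + 3), fun E => ?_⟩
  obtain ⟨X₂, h2⟩ := h2 E
  obtain ⟨X₃, h3⟩ := Vz_inv_small E
  obtain ⟨X₄, h4⟩ := ev_L' 20
  obtain ⟨X₅, h5⟩ := ev_log' (4 * A + 12) 100
  refine ⟨max (max X₁ X₂) (max (max X₃ X₄) (max X₅ 1)), ?_⟩
  intro X hX H hH hH3 z hz hzE q hq1 hq2 c hcop α hα x K hXx hxX hKH
  have c1 : X₁ ≤ X := ((le_max_left _ _).trans (le_max_left _ _)).trans hX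
  have c2 : X₂ ≤ X := ((le_max_right _ _).trans (le_max_left _ _)).trans hX
  have c3 : X₃ ≤ X := ((le_max_left _ _).trans ((le_max_left _ _).trans (le_max_right _ _))).trans hX
  have c4 : X₄ ≤ X := ((le_max_right _ _).trans ((le_max_left _ _).trans (le_max_right _ _))).trans hX
  have c5 : X₅ ≤ X := ((le_max_left _ _).trans ((le_max_right _ _).trans (le_max_right _ _))).trans hX
  have c6 : 1 ≤ X := ((le_max_right _ _).trans ((le_max_right _ _).trans (le_max_right _ _))).trans hX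
  have d3 := h3 X c3 z hz hzE
  have d4 := h4 X c4
  have d5 := h5 X c5
  have hX1 : (1 : ℝ) ≤ X := by exact_mod_cast c6
  have hX0 : (0 : ℝ) < X := by linarith
  set L : ℝ := Real.log X with hL
  have hL0 : 0 < L := by linarith
  have hL1 : 1 ≤ L := by linarith
  have hm1 : L ^ B₁ ≤ L ^ (B₁ + (2 * B₂ + A + 3)) := pow_le_pow_right₀ hL1 (by omega)
  have hm2 : L ^ (2 * B₂ + A + 3) ≤ L ^ (B₁ + (2 * B₂ + A + 3)) := pow_le_pow_right₀ hL1 (by omega)
  have hq0 : (0 : ℝ) < q := lt_of_lt_of_le (by positivity) hq1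
  have hH0 : (0 : ℝ) < H := by
    rcases Nat.eq_zero_or_pos H with h | h
    · rw [h] at hH3
      have : 0 < (X : ℝ) ^ 2 * L ^ (B₁ + (2 * B₂ + A + 3)) := by positivity
      norm_num at hH3
      linarith
    · exact_mod_cast h
  have hHX : H ≤ X := by omega
  have hHXr : (H : ℝ) ≤ X := by exact_mod_cast hHX
  rw [Min.sw_eq]
  refine (norm_sub_le _ _).trans ?_
  have e1 : ‖∑ n ∈ Ioc x (x + K), (ArithmeticFunction.vonMangoldt n : ℂ) * ee (n * α)‖ ≤ H / L ^ (A + 1) := by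
    refine h1 X c1 H hHX ?_ q (hm1.trans hq1) ?_ c hcop α hα x (x + K) hXx hxX (by omega) (by omega) (by omega)
    · exact (mul_le_mul_of_nonneg_left hm1 (by positivity)).trans hH3
    · exact (mul_le_mul_of_nonneg_left hm1 (by positivity)).trans hq2
  have e2 : ‖∑ n ∈ Ioc x (x + K), (lamz z n : ℂ) * ee (n * α)‖ ≤ H / L ^ (A + 1) := by
    by_cases hK : (H : ℝ) / L ^ (A + 2) ≤ K
    · -- long windows
      have hX17 : Real.log ((17 * X : ℕ) : ℝ) ≤ 2 * L := by
        push_cast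
        rw [Real.log_mul (by norm_num) (by positivity)]
        have : Real.log 17 ≤ 16 := by
          have := Real.log_le_sub_one_of_pos (show (0 : ℝ) < 17 by norm_num)
          linarith
        linarith
      have hX17' : L ≤ Real.log ((17 * X : ℕ) : ℝ) := by
        apply Real.log_le_log hX0
        push_cast; linarith
      have h0 : 0 ≤ Real.log ((17 * X : ℕ) : ℝ) := by linarith
      have hLB : Real.log ((17 * X : ℕ) : ℝ) ^ B₂ ≤ L ^ (2 * B₂) := by
        calc Real.log ((17 * X : ℕ) : ℝ) ^ B₂ ≤ (2 * L) ^ B₂ := pow_le_pow_left₀ h0 hX17 _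
          _ ≤ (L ^ 2) ^ B₂ := pow_le_pow_left₀ (by positivity) (by nlinarith) _
          _ = L ^ (2 * B₂) := by rw [← pow_mul]
      have hKX : (K : ℝ) ≤ X := by
        have : K ≤ X := by omega
        exact_mod_cast this
      have g1 : ((17 * X : ℕ) : ℝ) ^ (1 / (2 : ℕ) : ℝ) ≤ K := by
        -- `H ≥ X^{2/3}` and `100 L^{4 A + 12} ≤ √X`
        have k1 : 100 * (X : ℝ) * L ^ (2 * A + 4) ≤ (H : ℝ) ^ 2 := by
          have k2 : (100 * (X : ℝ) * L ^ (2 * A + 4)) ^ 3 ≤ ((H : ℝ) ^ 2) ^ 3 := by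
            have k3 : (X : ℝ) ^ 4 ≤ ((H : ℝ) ^ 3) ^ 2 := by
              have k4 : (X : ℝ) ^ 2 ≤ (H : ℝ) ^ 3 := by
                refine le_trans ?_ hH3
                exact le_mul_of_one_le_right (by positivity) (one_le_pow₀ hL1)
              calc (X : ℝ) ^ 4 = (X ^ 2) ^ 2 := by ring
                _ ≤ _ := pow_le_pow_left₀ (by positivity) k4 2
            have k5 : 1000000 * L ^ (6 * A + 12) ≤ X := by
              have k6 : (100 * L ^ (4 * A + 12)) ^ 2 ≤ X := by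
                calc (100 * L ^ (4 * A + 12)) ^ 2 ≤ (√(X : ℝ)) ^ 2 := pow_le_pow_left₀ (by positivity) d5 2
                  _ = X := Real.sq_sqrt hX0.le
              have k7 : L ^ (6 * A + 14) ≤ L ^ ((4 * A + 12) * 2) := pow_le_pow_right₀ hL1 (by omega)
              have k8 : (100 : ℝ) * L ^ (6 * A + 12) ≤ L ^ (6 * A + 14) := by
                rw [show 6 * A + 14 = (6 * A + 12) + 2 by ring, pow_add L (6 * A + 12) 2]
                have h100 : (100 : ℝ) ≤ L ^ 2 := by nlinarith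
                rw [mul_comm]
                exact mul_le_mul_of_nonneg_left h100 (by positivity)
              rw [mul_pow, ← pow_mul] at k6
              linarith
            calc (100 * (X : ℝ) * L ^ (2 * A + 4)) ^ 3 = (X : ℝ) ^ 3 * (1000000 * L ^ (6 * A + 12)) := by
                  rw [show 6 * A + 12 = (2 * A + 4) * 3 by ring, pow_mul]; ring
              _ ≤ (X : ℝ) ^ 3 * X := by gcongr
              _ = (X : ℝ) ^ 4 := by ring
              _ ≤ _ := k3
              _ = _ := by ring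
          exact le_of_pow_le_pow_left₀ (by norm_num) (by positivity) k2
        have k9 : (17 * (X : ℝ)) ≤ (K : ℝ) ^ 2 := by
          have k10 : ((H : ℝ) / L ^ (A + 2)) ^ 2 ≤ (K : ℝ) ^ 2 := pow_le_pow_left₀ (by positivity) hK 2
          refine le_trans ?_ k10
          rw [div_pow, le_div_iff₀ (by positivity), ← pow_mul]
          calc 17 * (X : ℝ) * L ^ ((A + 2) * 2) ≤ 100 * X * L ^ (2 * A + 4) := by
                rw [show (A + 2) * 2 = 2 * A + 4 by ring]
                have : 0 ≤ (X : ℝ) * L ^ (2 * A + 4) := by positivity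
                nlinarith
            _ ≤ _ := k1
        push_cast
        rw [← Real.sqrt_eq_rpow]
        exact Real.sqrt_le_left (Nat.cast_nonneg _) |>.2 k9
      have g2 : (q : ℝ) * Real.log ((17 * X : ℕ) : ℝ) ^ B₂ ≤ K := by
        refine le_trans ?_ hK
        rw [le_div_iff₀ (by positivity)]
        have k1 : (q : ℝ) * L ^ (2 * B₂ + A + 3) * X ≤ H * X := by
          calc (q : ℝ) * L ^ (2 * B₂ + A + 3) * X = q * X * L ^ (2 * B₂ + A + 3) := by ring
            _ ≤ q * X * L ^ (B₁ + (2 * B₂ + A + 3)) := by gcongr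
            _ ≤ (H : ℝ) ^ 2 := hq2
            _ ≤ H * X := by nlinarith
        have k2 := le_of_mul_le_mul_right k1 hX0
        calc (q : ℝ) * Real.log ((17 * X : ℕ) : ℝ) ^ B₂ * L ^ (A + 2) ≤ q * L ^ (2 * B₂) * L ^ (A + 2) := by gcongr
          _ = q * L ^ (2 * B₂ + A + 2) := by rw [mul_assoc, ← pow_add]; ring_nf
          _ ≤ q * L ^ (2 * B₂ + A + 3) := by
              apply mul_le_mul_of_nonneg_left _ hq0.le
              exact pow_le_pow_right₀ hL1 (by omega)
          _ ≤ H := k2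
      have g3 : (z : ℝ) ≤ Real.log ((17 * X : ℕ) : ℝ) ^ E := hzE.trans (pow_le_pow_left₀ hL0.le hX17' _)
      have g4 : Real.log ((17 * X : ℕ) : ℝ) ^ B₂ ≤ q := by
        refine hLB.trans (le_trans ?_ hq1)
        exact pow_le_pow_right₀ hL1 (by omega)
      have g5 := h2 (17 * X) (by omega) K q z g1 (by omega) hz g3 g4 g2 c hcop α hα x (by omega)
      refine g5.trans ?_
      have hKH' : (K : ℝ) ≤ H := by exact_mod_cast hKH
      exact div_le_div₀ hH0.le hKH' (by positivity) (pow_le_pow_left₀ hL0.le hX17' _)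
    · push Not at hK
      refine (lamz_triv z x K α).trans ?_
      calc (K : ℝ) * (Vz z)⁻¹ ≤ (H / L ^ (A + 2)) * L :=
            mul_le_mul hK.le d3 (inv_nonneg.2 (Vz_pos z).le) (by positivity)
        _ = H / L ^ (A + 1) := by
            rw [pow_succ L (A + 1)]
            field_simp
  calc _ ≤ H / L ^ (A + 1) + H / L ^ (A + 1) := add_le_add e1 e2
    _ = (2 / L) * (H / L ^ A) := by
        rw [pow_succ L A]
        field_simp
        ring
    _ ≤ 1 * (H / L ^ A) := by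
        apply mul_le_mul_of_nonneg_right _ (by positivity)
        rw [div_le_one hL0]; linarith
    _ = _ := one_mul _

end Pool.Agent.H79.V
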