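import Pool.Agent.H79.V.Vb

/-! The von Mangoldt function with a linear phase in short windows: logarithmic form. -/

set_option autoImplicit false

namespace Pool.Agent.H79.V

open Finset
open Pool.Agent.H807R2.Dav

lemma num_s (L H q X N U lq : ℝ) (A B : ℕ) (hL : 100000 ≤ L) (hH : 0 < H) (hq : 0 < q) (hX : 0 < X) (hN : 0 ≤ N) (hU : 0 < U)
    (hlq0 : 0 ≤ lq) (hlq : lq ≤ L) (hB : 2 * A + 14 ≤ B) (hq1 : L ^ B ≤ q) (hq2 : q * X * L ^ B ≤ H ^ 2)
    (hNX : N ≤ 16 * X) (hU1 : X * L ^ (2 * A + 14) ≤ U * H) :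
    1000 * (1 + lq) * (H ^ 2 / q + H * N / U + N * q) ≤ (H / L ^ (A + 6)) ^ 2 := by
  have hL0 : 0 < L := by linarith
  set P : ℝ := L ^ (2 * A + 14) with hP
  have hP0 : 0 < P := by positivity
  have hPB : P ≤ L ^ B := pow_le_pow_right₀ (by linarith) hB
  have h1 : H ^ 2 / q ≤ H ^ 2 / P := div_le_div_of_nonneg_left (by positivity) hP0 (hPB.trans hq1)
  have h2 : H * N / U ≤ 16 * (H ^ 2 / P) := by
    rw [div_le_iff₀ hU, ← mul_div_assoc, div_mul_eq_mul_div, le_div_iff₀ hP0]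
    calc H * N * P ≤ H * (16 * X) * P := by gcongr
      _ = 16 * H * (X * P) := by ring
      _ ≤ 16 * H * (U * H) := by gcongr
      _ = _ := by ring
  have h3 : N * q ≤ 16 * (H ^ 2 / P) := by
    rw [← mul_div_assoc, le_div_iff₀ hP0]
    calc N * q * P ≤ (16 * X) * q * L ^ B := by gcongr
      _ = 16 * (q * X * L ^ B) := by ring
      _ ≤ 16 * H ^ 2 := by linarith
  have h4 : H ^ 2 / q + H * N / U + N * q ≤ 33 * (H ^ 2 / P) := by linarith
  have h5 : (1 : ℝ) + lq ≤ 2 * L := by linarith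
  have h6 : (H / L ^ (A + 6)) ^ 2 = L ^ 2 * (H ^ 2 / P) := by
    rw [hP, div_pow, ← pow_mul]
    rw [show 2 * A + 14 = (A + 6) * 2 + 2 by ring, pow_add L ((A + 6) * 2) 2]
    field_simp
  rw [h6]
  calc 1000 * (1 + lq) * (H ^ 2 / q + H * N / U + N * q) ≤ 1000 * (2 * L) * (33 * (H ^ 2 / P)) := by gcongr
    _ = (66000 * L) * (H ^ 2 / P) := by ring
    _ ≤ L ^ 2 * (H ^ 2 / P) := by
        apply mul_le_mul_of_nonneg_right _ (by positivity)
        nlinarith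

lemma num_f (L H q X UU lN lq lU S : ℝ) (A B : ℕ) (hL : 1000000 ≤ L) (hH : 0 < H) (hq : 0 < q) (hX : 0 < X)
    (hHX : H ≤ X) (hlN0 : 0 ≤ lN) (hlN : lN ≤ 2 * L) (hlq0 : 0 ≤ lq) (hlq : lq ≤ L) (hlU0 : 0 ≤ lU) (hlU : lU ≤ 3 * L)
    (hB : 2 * A + 14 ≤ B) (hq1 : L ^ B ≤ q) (hq2 : q * X * L ^ B ≤ H ^ 2) (hUU : UU * L ^ (2 * A + 14) ≤ H)
    (hS0 : 0 ≤ S) (hS : S ≤ H / L ^ (A + 6)) (hUU0 : 0 ≤ UU) :
    8 * (1 + lN) ^ 5 * S + 3 * (1 + lN) * (600 * lU * (H / q + UU + q) * (1 + lq)) ≤ H / L ^ A := by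
  have hL0 : 0 < L := by linarith
  have hA : 0 < L ^ A := by positivity
  have h1 : 8 * (1 + lN) ^ 5 * S ≤ H / L ^ A / 2 := by
    calc 8 * (1 + lN) ^ 5 * S ≤ 8 * (3 * L) ^ 5 * (H / L ^ (A + 6)) := by
          gcongr
          linarith
      _ = 1944 / L * (H / L ^ A) := by
          rw [pow_add L A 6]
          field_simp
          ring
      _ ≤ 1 / 2 * (H / L ^ A) := by
          apply mul_le_mul_of_nonneg_right _ (by positivity)
          rw [div_le_div_iff₀ hL0 (by norm_num)]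
          linarith
      _ = _ := by ring
  have hP : L ^ (A + 4) ≤ L ^ (2 * A + 14) := pow_le_pow_right₀ (by linarith) (by omega)
  have hPB : L ^ (A + 4) ≤ L ^ B := pow_le_pow_right₀ (by linarith) (by omega)
  have hP0 : 0 < L ^ (A + 4) := by positivity
  have h2 : H / q ≤ H / L ^ (A + 4) := div_le_div_of_nonneg_left hH.le hP0 (hPB.trans hq1)
  have h3 : UU ≤ H / L ^ (A + 4) := by
    rw [le_div_iff₀ hP0]
    calc UU * L ^ (A + 4) ≤ UU * L ^ (2 * A + 14) := by gcongr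
      _ ≤ H := hUU
  have h4 : q ≤ H / L ^ (A + 4) := by
    rw [le_div_iff₀ hP0]
    have h5 : q * L ^ (A + 4) * X ≤ H * X := by
      calc q * L ^ (A + 4) * X ≤ q * L ^ B * X := by gcongr
        _ = q * X * L ^ B := by ring
        _ ≤ H ^ 2 := hq2
        _ ≤ H * X := by nlinarith
    exact le_of_mul_le_mul_right h5 hX
  have h5 : 3 * (1 + lN) * (600 * lU * (H / q + UU + q) * (1 + lq)) ≤ H / L ^ A / 2 := by
    calc 3 * (1 + lN) * (600 * lU * (H / q + UU + q) * (1 + lq))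
        ≤ 3 * (3 * L) * (600 * (3 * L) * (3 * (H / L ^ (A + 4))) * (2 * L)) := by
          have e1 : 1 + lN ≤ 3 * L := by linarith
          have e2 : 1 + lq ≤ 2 * L := by linarith
          have e3 : H / q + UU + q ≤ 3 * (H / L ^ (A + 4)) := by linarith
          gcongr
      _ = 97200 / L * (H / L ^ A) := by
          rw [pow_add L A 4]
          field_simp
          ring
      _ ≤ 1 / 2 * (H / L ^ A) := by
          apply mul_le_mul_of_nonneg_right _ (by positivity)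
          rw [div_le_div_iff₀ hL0 (by norm_num)]
          linarith
      _ = _ := by ring
  linarith

/-- minor arcs in every window -/
theorem minor_win (A : ℕ) : ∃ B X₀ : ℕ, ∀ X : ℕ, X₀ ≤ X → ∀ H : ℕ, H ≤ X → (X : ℝ) ^ 2 * (Real.log X) ^ B ≤ (H : ℝ) ^ 3 →
    ∀ q : ℕ, (Real.log X) ^ B ≤ q → (q : ℝ) * X * (Real.log X) ^ B ≤ (H : ℝ) ^ 2 → ∀ c : ℤ, IsCoprime c (q : ℤ) →
    ∀ α : ℝ, |α - c / q| ≤ 1 / (q : ℝ) ^ 2 → ∀ N N' : ℕ, X ≤ 16 * N → N ≤ 16 * X → N ≤ N' → N' ≤ N + H → N' ≤ 2 * N →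
    ‖∑ n ∈ Ioc N N', ((ArithmeticFunction.vonMangoldt n : ℝ) : ℂ) * ee ((n : ℝ) * α)‖ ≤ H / (Real.log X) ^ A := by
  refine ⟨3 * (2 * A + 14) + 1, ⌈Real.exp 1000000⌉₊, ?_⟩
  intro X hX H hHX hH3 q hq1 hq2 c hcop α hα N N' hXN hNX hNN' hNH hN2
  set L : ℝ := Real.log X with hL
  have hXe : Real.exp 1000000 ≤ X := (Nat.le_ceil _).trans (by exact_mod_cast hX)
  have hX0 : (0 : ℝ) < X := (Real.exp_pos _).trans_le hXe
  have hL1 : 1000000 ≤ L := by
    rw [hL, Real.le_log_iff_exp_le hX0]; exact hXe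
  have hL0 : 0 < L := by linarith
  have hLX : L ≤ X := (Real.log_le_sub_one_of_pos hX0).trans (by linarith)
  have hX64 : (64 : ℝ) ≤ X := by linarith
  set B₁ : ℕ := 2 * A + 14 with hB₁
  have hLB : 0 < L ^ (3 * B₁ + 1) := by positivity
  have hLB1 : 1 ≤ L ^ (3 * B₁ + 1) := one_le_pow₀ (by linarith)
  have hq0 : (0 : ℝ) < q := hLB.trans_le hq1
  have hq : 1 ≤ q := by exact_mod_cast hq0
  have hH0 : (0 : ℝ) < H := by
    rcases Nat.eq_zero_or_pos H with h | h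
    · rw [h] at hH3
      have : 0 < (X : ℝ) ^ 2 * L ^ (3 * B₁ + 1) := by positivity
      norm_num at hH3
      linarith
    · exact_mod_cast h
  have hHXr : (H : ℝ) ≤ X := by exact_mod_cast hHX
  have hNXr : (N : ℝ) ≤ 16 * X := by exact_mod_cast hNX
  have hXNr : (X : ℝ) ≤ 16 * N := by exact_mod_cast hXN
  have hN0 : (0 : ℝ) < N := by linarith
  -- the cut
  set V : ℝ := X * L ^ B₁ / H with hV
  have hV1 : 1 ≤ V := by
    rw [hV, le_div_iff₀ hH0, one_mul]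
    calc (H : ℝ) ≤ X := hHXr
      _ ≤ X * L ^ B₁ := le_mul_of_one_le_right hX0.le (one_le_pow₀ (by linarith))
  set U : ℕ := ⌊V⌋₊ + 1 with hU
  have hUV : V ≤ U := by
    rw [hU]; push_cast; exact (Nat.lt_floor_add_one V).le
  have hU2V : (U : ℝ) ≤ 2 * V := by
    rw [hU]; push_cast
    have := Nat.floor_le (by linarith : 0 ≤ V)
    linarith
  have hU0 : (0 : ℝ) < U := by linarith
  have hUU : ((U * U : ℕ) : ℝ) * L ^ B₁ ≤ H := by
    push_cast
    have h1 : (U : ℝ) * U ≤ (2 * V) * (2 * V) := mul_le_mul hU2V hU2V hU0.le (by linarith)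
    have h2 : (2 * V) * (2 * V) * L ^ B₁ ≤ H := by
      have h3 : (2 * V) * (2 * V) * L ^ B₁ = 4 * ((X : ℝ) ^ 2 * L ^ (3 * B₁)) / H ^ 2 := by
        rw [hV, show 3 * B₁ = B₁ + B₁ + B₁ by ring, pow_add L (B₁ + B₁) B₁, pow_add L B₁ B₁]
        field_simp
        ring
      rw [h3, div_le_iff₀ (by positivity)]
      have h4 : 4 * ((X : ℝ) ^ 2 * L ^ (3 * B₁)) ≤ X ^ 2 * L ^ (3 * B₁ + 1) := by
        rw [pow_succ L (3 * B₁)]
        have : 0 ≤ (X : ℝ) ^ 2 * L ^ (3 * B₁) := by positivity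
        nlinarith
      calc 4 * ((X : ℝ) ^ 2 * L ^ (3 * B₁)) ≤ (H : ℝ) ^ 3 := h4.trans hH3
        _ = (H : ℝ) * H ^ 2 := by ring
    calc (U : ℝ) * U * L ^ B₁ ≤ (2 * V) * (2 * V) * L ^ B₁ := mul_le_mul_of_nonneg_right h1 (by positivity)
      _ ≤ H := h2
  have hLB₁ : L ≤ L ^ B₁ := by
    calc L = L ^ 1 := (pow_one L).symm
      _ ≤ L ^ B₁ := pow_le_pow_right₀ (by linarith) (by omega)
  have hUU0 : (0 : ℝ) ≤ ((U * U : ℕ) : ℝ) := Nat.cast_nonneg _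
  have hUUH' : ((U * U : ℕ) : ℝ) * L ≤ H := (mul_le_mul_of_nonneg_left hLB₁ hUU0).trans hUU
  have hUUH : U * U ≤ H := by
    have : ((U * U : ℕ) : ℝ) ≤ H := by nlinarith
    exact_mod_cast this
  have hUUN : U * U ≤ N := by
    have : ((U * U : ℕ) : ℝ) ≤ N := by nlinarith
    exact_mod_cast this
  have hN1 : 1 ≤ N := by exact_mod_cast hN0
  have hqX : (q : ℝ) ≤ X := by
    have h1 : (q : ℝ) * X ≤ X * X := by
      calc (q : ℝ) * X ≤ q * X * L ^ (3 * B₁ + 1) := le_mul_of_one_le_right (by positivity) hLB1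
        _ ≤ (H : ℝ) ^ 2 := hq2
        _ ≤ X * X := by nlinarith
    exact le_of_mul_le_mul_right h1 hX0
  have hlq : Real.log q ≤ L := Real.log_le_log hq0 hqX
  have hlq0 : 0 ≤ Real.log q := Real.log_nonneg (by exact_mod_cast hq)
  have hlN : Real.log (4 * (N : ℝ)) ≤ 2 * L := by
    have h1 : 4 * (N : ℝ) ≤ X ^ 2 := by nlinarith
    calc Real.log (4 * (N : ℝ)) ≤ Real.log ((X : ℝ) ^ 2) := Real.log_le_log (by positivity) h1
      _ = 2 * L := by rw [Real.log_pow]; push_cast; ring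
  have hN1r : (1 : ℝ) ≤ N := by exact_mod_cast hN1
  have hlN0 : 0 ≤ Real.log (4 * (N : ℝ)) := Real.log_nonneg (by linarith)
  have hlU : (Nat.log 2 (U * U) + 1 : ℝ) ≤ 3 * L := by
    have h1 : 2 ^ Nat.log 2 (U * U) ≤ U * U := Nat.pow_log_le_self 2 (Nat.mul_pos (by omega) (by omega)).ne'
    have h2 : ((2 : ℝ) ^ Nat.log 2 (U * U)) ≤ X := by
      have : ((2 ^ Nat.log 2 (U * U) : ℕ) : ℝ) ≤ X := by exact_mod_cast (h1.trans (hUUH.trans hHX))
      push_cast at this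
      exact this
    have h3 : (Nat.log 2 (U * U) : ℝ) * Real.log 2 ≤ L := by
      rw [← Real.log_pow]
      exact Real.log_le_log (by positivity) h2
    have h4 := Real.log_two_gt_d9
    have h5 : (0 : ℝ) ≤ Nat.log 2 (U * U) := Nat.cast_nonneg _
    nlinarith
  have key := win_lin hq hcop hα N N' U H hN1 hNN' hN2 (by omega) hUUN hUUH hNH
  refine key.trans ?_
  have hVU : X * L ^ B₁ ≤ U * H := by
    have : V * H ≤ U * H := mul_le_mul_of_nonneg_right hUV hH0.le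
    rwa [hV, div_mul_cancel₀ _ hH0.ne'] at this
  have hs := num_s L H q X N U (Real.log q) A (3 * B₁ + 1) (by linarith) hH0 hq0 hX0 hN0.le hU0 hlq0 hlq (by omega)
    hq1 hq2 hNXr hVU
  have hs2 : Real.sqrt (1000 * (1 + Real.log q) * ((H : ℝ) ^ 2 / q + H * N / U + N * q)) ≤ H / L ^ (A + 6) := by
    rw [show (H : ℝ) / L ^ (A + 6) = Real.sqrt ((H / L ^ (A + 6)) ^ 2) from (Real.sqrt_sq (by positivity)).symm]
    exact Real.sqrt_le_sqrt hs
  exact num_f L H q X ((U * U : ℕ) : ℝ) (Real.log (4 * N)) (Real.log q) (Nat.log 2 (U * U) + 1) _ A (3 * B₁ + 1) hL1 hH0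
    hq0 hX0 hHXr hlN0 hlN hlq0 hlq (by positivity) hlU (by omega) hq1 hq2 hUU (Real.sqrt_nonneg _) hs2 hUU0

end Pool.Agent.H79.V
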