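import Pool.Agent.H79.V.An

/-! One scale: in all cells near the middle, for almost all arguments. -/

set_option autoImplicit false

namespace Pool.Agent.H79.V

open Finset
open Pool.Agent.helper24_UT
open Pool.Agent.H373R2.T7 (lamI lamzI lamz Vz pz mem_pz ev_log' ev_L' Vz_pos Vz_inv_small lamI_nonneg lamzI_nonneg)
open Pool.Agent.H79.V.Cir (rr)

/-- the difference between primes and model in the cell `(k h, (k + 1) h]` -/
noncomputable def DD (z h k N : ℕ) : ℝ :=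
  |rr lamI lamI ((k * h : ℕ) : ℤ) h (2 * (N : ℤ) ^ 2 + 2 * (N : ℕ) + 2) -
    rr (lamzI z) (lamzI z) ((k * h : ℕ) : ℤ) h (2 * (N : ℤ) ^ 2 + 2 * (N : ℕ) + 2)|

/-- all cells near the middle are good -/
def SG (z X h a A₁ N : ℕ) : Prop := ∀ k : ℕ, X ^ 2 ≤ 4 * (k * h) → 3 * (k * h + h) + X ^ 2 ≤ 3 * (2 * N ^ 2 + 2 * N + 2) →
  |((k * h : ℕ) : ℝ) - cen N| ≤ Real.log X ^ a * h → DD z h k N ≤ h / Real.log X ^ A₁

/-- conditions on a cell with respect to the left end of the block -/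
def Kc (X h b N₀ k : ℕ) : Prop := ∃ a' : ℕ, a' + k * h + h + 1 = 2 * N₀ ^ 2 + 2 * N₀ + 2 ∧ X ^ 2 ≤ 4 * (k * h) ∧ k * h ≤ 12 * X ^ 2 ∧
  X ^ 2 ≤ 4 * a' ∧ a' ≤ 12 * X ^ 2 ∧ |((k * h : ℕ) : ℝ) - cen N₀| ≤ Real.log X ^ b * h ∧ |(a' : ℝ) - cen N₀| ≤ Real.log X ^ b * h

lemma cen_near (X Y h N₀ n : ℕ) (hX : 1 ≤ X) (hN : N₀ + n ≤ 2 * X) (hn : n < Y) (hYX : Y ≤ X) (hXY : 32 * (X * Y) ≤ h) :
    cen N₀ ≤ cen (N₀ + n) ∧ cen (N₀ + n) ≤ cen N₀ + h / 4 := by
  unfold cen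
  push_cast
  have hn0 : (0 : ℝ) ≤ n := Nat.cast_nonneg _
  have hN0 : (0 : ℝ) ≤ N₀ := Nat.cast_nonneg _
  have h1 : (N₀ : ℝ) + n ≤ 2 * X := by exact_mod_cast hN
  have h2 : (n : ℝ) ≤ Y := by exact_mod_cast hn.le
  have h3 : 32 * ((X : ℝ) * Y) ≤ h := by exact_mod_cast hXY
  have h4 : (1 : ℝ) ≤ X := by exact_mod_cast hX
  have hY0 : (0 : ℝ) ≤ Y := Nat.cast_nonneg _
  have e : ((N₀ : ℝ) + n) ^ 2 + (N₀ + n) + 1 = (N₀ : ℝ) ^ 2 + N₀ + 1 + n * (2 * N₀ + n + 1) := by ring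
  rw [e]
  have h5 : 0 ≤ (n : ℝ) * (2 * N₀ + n + 1) := by positivity
  have h6 : (n : ℝ) * (2 * N₀ + n + 1) ≤ Y * (5 * X) := by
    apply mul_le_mul h2 _ (by positivity) hY0
    linarith
  constructor
  · linarith
  · nlinarith

lemma Kc_card (X h b N₀ M : ℕ) (hh : 1 ≤ h) (hL : 1 ≤ Real.log X) : open Classical in
    (((range M).filter (fun k => Kc X h b N₀ k)).card : ℝ) ≤ 3 * Real.log X ^ b := by
  classical
  have hh0 : (0 : ℝ) < h := by exact_mod_cast hh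
  have hLb : 1 ≤ Real.log X ^ b := one_le_pow₀ hL
  have h1 := diam_card ((range M).filter (fun k => Kc X h b N₀ k)) (2 * Real.log X ^ b) (by positivity) (by
    intro i hi j hj _
    rw [mem_filter] at hi hj
    obtain ⟨_, _, _, _, _, _, hi1, _⟩ := hi.2
    obtain ⟨_, _, _, _, _, _, hj1, _⟩ := hj.2
    have e1 := abs_le.1 hi1
    have e2 := abs_le.1 hj1
    push_cast at e1 e2
    have e3 : ((i : ℝ) - j) * h ≤ (2 * Real.log X ^ b) * h := by nlinarith
    exact le_of_mul_le_mul_right e3 hh0)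
  linarith

open Classical in
/-- one scale -/
theorem scale (A a A₁ : ℕ) : ∃ Cc E₀ : ℕ, ∀ E₁ : ℕ, ∃ X₀ : ℕ, ∀ X : ℕ, X₀ ≤ X → ∀ z : ℕ, (Real.log X) ^ E₀ ≤ z →
    (z : ℝ) ≤ (Real.log X) ^ E₁ → ∀ h : ℕ, 32 * h ≤ X ^ 2 → (X : ℝ) ^ 3 * (Real.log X) ^ Cc ≤ (h : ℝ) ^ 2 →
    (((Ioc X (2 * X)).filter (fun N => ¬ SG z X h a A₁ N)).card : ℝ) ≤ X / (Real.log X) ^ A := by
  set A₂ : ℕ := A₁ + (a + 1) + A + 2 with hA₂
  obtain ⟨Cc, E₀, hB⟩ := blocks (6 * (A₂ + 1) + 19) (a + 1) 2 (A + 1)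
  refine ⟨Cc + 2, E₀, fun E₁ => ?_⟩
  obtain ⟨X₁, h1⟩ := hB E₁
  obtain ⟨X₂, h2⟩ := cell A₂ (a + 1) E₁
  obtain ⟨X₃, h3⟩ := ev_L' 1000
  refine ⟨max (max X₁ X₂) (max X₃ 16), ?_⟩
  intro X hX z hz1 hz2 h hh hh2
  have c1 : X₁ ≤ X := ((le_max_left _ _).trans (le_max_left _ _)).trans hX
  have c2 : X₂ ≤ X := ((le_max_right _ _).trans (le_max_left _ _)).trans hX
  have c3 : X₃ ≤ X := ((le_max_left _ _).trans (le_max_right _ _)).trans hX
  have c4 : 16 ≤ X := ((le_max_right _ _).trans (le_max_right _ _)).trans hX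
  have hL := h3 X c3
  set L : ℝ := Real.log X with hLdef
  have hL0 : 0 < L := by linarith
  have hX1 : (16 : ℝ) ≤ X := by exact_mod_cast c4
  have hX0 : (0 : ℝ) < X := by linarith
  have hz : 1 ≤ z := by
    have e1 : (1 : ℝ) ≤ L ^ E₀ := one_le_pow₀ (by linarith)
    exact_mod_cast e1.trans hz1
  -- the length of the blocks
  set Y : ℕ := h / (32 * X) with hY
  have hXY : 32 * (X * Y) ≤ h := by
    have := Nat.div_mul_le_self h (32 * X)
    rw [← hY] at this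
    calc 32 * (X * Y) = Y * (32 * X) := by ring
      _ ≤ h := this
  have hYlt : h < 32 * X * (Y + 1) := by
    have e1 := Nat.div_add_mod h (32 * X)
    have e2 := Nat.mod_lt h (show 32 * X > 0 by omega)
    rw [← hY] at e1
    nlinarith
  have hLC : L ^ 2 ≤ L ^ (Cc + 2) := pow_le_pow_right₀ (by linarith) (by omega)
  have hLC' : L ^ Cc ≤ L ^ (Cc + 2) := pow_le_pow_right₀ (by linarith) (by omega)
  have hh3 : (X : ℝ) ^ 3 * 1000000 ≤ (h : ℝ) ^ 2 := by
    refine le_trans ?_ hh2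
    apply mul_le_mul_of_nonneg_left _ (by positivity)
    refine le_trans ?_ hLC
    nlinarith
  have hh0 : (0 : ℝ) < h := by
    have h4 : 0 < (h : ℝ) ^ 2 := lt_of_lt_of_le (by positivity) hh3
    have h5 : (h : ℝ) ≠ 0 := by
      intro h0
      rw [h0] at h4
      norm_num at h4
    exact lt_of_le_of_ne (Nat.cast_nonneg _) (Ne.symm h5)
  have hhbig : 1000 * (X : ℝ) ≤ h := by
    have e1 : (1000 * (X : ℝ)) ^ 2 ≤ (h : ℝ) ^ 2 := by
      refine le_trans ?_ hh3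
      nlinarith [pow_pos hX0 2, pow_pos hX0 3]
    exact le_of_pow_le_pow_left₀ (by norm_num) hh0.le e1
  have hYltR : (h : ℝ) < 32 * X * (Y + 1) := by exact_mod_cast hYlt
  have hY1 : 1 ≤ Y := by
    by_contra h0
    have : Y = 0 := Nat.lt_one_iff.1 (not_le.1 h0)
    rw [this] at hYltR
    norm_num at hYltR
    linarith
  have hY1r : (1 : ℝ) ≤ Y := by exact_mod_cast hY1
  have hY0 : (0 : ℝ) < Y := by linarith
  have hh64 : (h : ℝ) ≤ 64 * (X * Y) := by
    have : (32 : ℝ) * X * (Y + 1) ≤ 64 * (X * Y) := by nlinarith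
    linarith
  have hhXY : (h : ℝ) ≤ X * Y * L ^ 2 := by
    have e1 : (64 : ℝ) ≤ L ^ 2 := by nlinarith
    calc (h : ℝ) ≤ 64 * (X * Y) := hh64
      _ ≤ L ^ 2 * (X * Y) := by gcongr
      _ = _ := by ring
  have hXY2 : X ≤ Y ^ 2 := by
    have e1 : (X : ℝ) ^ 2 * (X * 1000000) ≤ X ^ 2 * (4096 * (Y : ℝ) ^ 2) := by
      calc (X : ℝ) ^ 2 * (X * 1000000) = (X : ℝ) ^ 3 * 1000000 := by ring
        _ ≤ (h : ℝ) ^ 2 := hh3
        _ ≤ (64 * (X * Y)) ^ 2 := pow_le_pow_left₀ hh0.le hh64 2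
        _ = _ := by ring
    have e2 := le_of_mul_le_mul_left e1 (by positivity)
    have e3 : (X : ℝ) ≤ (Y : ℝ) ^ 2 := by nlinarith
    exact_mod_cast e3
  have hYX : Y ≤ X := by
    by_contra h0
    push Not at h0
    have : X * X ≤ X * Y := Nat.mul_le_mul_left _ h0.le
    have e1 : X ^ 2 = X * X := by ring
    have e2 : 0 < X * Y := by positivity
    omega
  have hXYh : X * Y ≤ h := by omega
  -- the number of the blocks
  set I : ℕ := X / Y + 1 with hI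
  have hIY : (I : ℝ) * Y ≤ 2 * X := by
    have e1 : X / Y * Y ≤ X := Nat.div_mul_le_self X Y
    have e2 : I * Y ≤ 2 * X := by
      rw [hI, Nat.add_mul, one_mul]
      omega
    exact_mod_cast e2
  set d : ℕ := 6 * (A₂ + 1) + 19 with hd
  have hbl := h1 X c1 z hz1 hz2 h Y hh ((mul_le_mul_of_nonneg_left hLC' (by positivity)).trans hh2) hY1 hXYh hhXY I
  -- good blocks
  have hgood : ∀ i, GB z X h d (a + 1) (X + i * Y) →
      (((range Y).filter (fun n => X + i * Y + n ≤ 2 * X ∧ ¬ SG z X h a A₁ (X + i * Y + n))).card : ℝ) ≤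
        3 * L ^ (a + 1) * (Y * L ^ A₁ / L ^ A₂) := by
    intro i hi
    set N₀ := X + i * Y with hN₀
    set KK := (range (12 * X ^ 2 + 1)).filter (fun k => Kc X h (a + 1) N₀ k) with hKK
    have hsub : (range Y).filter (fun n => N₀ + n ≤ 2 * X ∧ ¬ SG z X h a A₁ (N₀ + n)) ⊆
        KK.biUnion (fun k => (range Y).filter (fun n => N₀ ≤ 2 * X ∧ ¬ DD z h k (N₀ + n) ≤ h / L ^ A₁)) := by
      intro n hn
      rw [mem_filter, mem_range] at hn
      obtain ⟨hnY, hn2, hn3⟩ := hn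
      unfold SG at hn3
      push Not at hn3
      obtain ⟨k, hk1, hk2, hk3, hk4⟩ := hn3
      rw [mem_biUnion]
      obtain ⟨g1, g2⟩ := cen_near X Y h N₀ n (by omega) hn2 hnY hYX hXY
      -- the second window
      have hP1 : 2 * (N₀ + n) ^ 2 + 2 * (N₀ + n) + 2 ≤ 2 * N₀ ^ 2 + 2 * N₀ + 2 + h / 2 + 1 := by
        have e1 : (2 * (N₀ + n) ^ 2 + 2 * (N₀ + n) + 2 : ℕ) ≤ 2 * N₀ ^ 2 + 2 * N₀ + 2 + 2 * (Y * (5 * X)) := by
          have e2 : n * (2 * N₀ + n + 1) ≤ Y * (5 * X) := by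
            apply Nat.mul_le_mul hnY.le
            omega
          have e3 : 2 * (N₀ + n) ^ 2 + 2 * (N₀ + n) + 2 = 2 * N₀ ^ 2 + 2 * N₀ + 2 + 2 * (n * (2 * N₀ + n + 1)) := by ring
          omega
        have e4 : Y * (5 * X) = 5 * (X * Y) := by ring
        omega
      have hPmax : 2 * (N₀ + n) ^ 2 + 2 * (N₀ + n) + 2 ≤ 12 * X ^ 2 := by
        have e1 : (N₀ + n) ^ 2 ≤ (2 * X) ^ 2 := Nat.pow_le_pow_left hn2 2
        have e2 : (2 * X) ^ 2 = 4 * X ^ 2 := by ring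
        have e3 : 16 * X ≤ X ^ 2 := by nlinarith
        omega
      have ha' : k * h + h + 1 ≤ 2 * N₀ ^ 2 + 2 * N₀ + 2 := by
        have e3 : 16 * X ≤ X ^ 2 := by nlinarith
        omega
      refine ⟨k, ?_, ?_⟩
      · rw [hKK, mem_filter, mem_range]
        refine ⟨?_, 2 * N₀ ^ 2 + 2 * N₀ + 2 - (k * h + h + 1), ?_, hk1, ?_, ?_, ?_, ?_, ?_⟩
        · have e1 : k ≤ k * h := Nat.le_mul_of_pos_right _ (by exact_mod_cast hh0)
          have e2 : 2 * N₀ ^ 2 + 2 * N₀ + 2 ≤ 2 * (N₀ + n) ^ 2 + 2 * (N₀ + n) + 2 := by nlinarith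
          omega
        · omega
        · have e2 : 2 * N₀ ^ 2 + 2 * N₀ + 2 ≤ 2 * (N₀ + n) ^ 2 + 2 * (N₀ + n) + 2 := by nlinarith
          omega
        · have e3 : 16 * X ≤ X ^ 2 := by nlinarith
          have e4 : 256 ≤ X ^ 2 := by nlinarith
          omega
        · have e2 : 2 * N₀ ^ 2 + 2 * N₀ + 2 ≤ 2 * (N₀ + n) ^ 2 + 2 * (N₀ + n) + 2 := by nlinarith
          omega
        · have e1 : (((k * h : ℕ) : ℝ) - cen N₀) = (((k * h : ℕ) : ℝ) - cen (N₀ + n)) + (cen (N₀ + n) - cen N₀) := by ring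
          rw [e1]
          refine (abs_add_le _ _).trans ?_
          have e2 : |cen (N₀ + n) - cen N₀| ≤ h := by
            rw [abs_le]; constructor <;> linarith
          have e3 : 1 ≤ L ^ a := one_le_pow₀ (by linarith)
          rw [pow_succ]
          have e4 : L ^ a * h + h ≤ L ^ a * L * h := by nlinarith [mul_le_mul_of_nonneg_right e3 hh0.le, mul_le_mul_of_nonneg_left hL (show 0 ≤ L ^ a * h by positivity)]
          linarith
        · have e0 : ((2 * N₀ ^ 2 + 2 * N₀ + 2 - (k * h + h + 1) : ℕ) : ℝ) = 2 * cen N₀ - ((k * h : ℕ) : ℝ) - h - 1 := by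
            rw [Nat.cast_sub ha']
            unfold cen
            push_cast
            ring
          have e1 : ((2 * N₀ ^ 2 + 2 * N₀ + 2 - (k * h + h + 1) : ℕ) : ℝ) - cen N₀ =
              -(((k * h : ℕ) : ℝ) - cen (N₀ + n)) + (-(cen (N₀ + n) - cen N₀) - h - 1) := by
            rw [e0]; ring
          rw [e1]
          refine (abs_add_le _ _).trans ?_
          rw [abs_neg]
          have e2 : |-(cen (N₀ + n) - cen N₀) - h - 1| ≤ 3 * h := by
            rw [abs_le]; constructor <;> linarith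
          have e3 : 1 ≤ L ^ a := one_le_pow₀ (by linarith)
          rw [pow_succ]
          have e4 : L ^ a * h + 3 * h ≤ L ^ a * L * h := by nlinarith [mul_le_mul_of_nonneg_right e3 hh0.le, mul_le_mul_of_nonneg_left hL (show 0 ≤ L ^ a * h by positivity)]
          linarith
      · rw [mem_filter, mem_range]
        exact ⟨hnY, by omega, not_le.2 hk4⟩
    have hcard := (card_le_card hsub).trans card_biUnion_le
    have hone : ∀ k ∈ KK, (((range Y).filter (fun n => N₀ ≤ 2 * X ∧ ¬ DD z h k (N₀ + n) ≤ h / L ^ A₁)).card : ℝ) ≤ Y * L ^ A₁ / L ^ A₂ := by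
      intro k hk
      rw [hKK, mem_filter] at hk
      obtain ⟨a', k1, k2, k3, k4, k5, k6, k7⟩ := hk.2
      by_cases hN₀X : N₀ ≤ 2 * X
      · have hcell := h2 X c2 z hz hz2 h Y N₀ (by omega) hN₀X hh hXY hhXY hXY2 hYX hi (k * h) a' k1 k2 k3 k4 k5 k6 k7
        have hm : (((range Y).filter (fun n => N₀ ≤ 2 * X ∧ ¬ DD z h k (N₀ + n) ≤ h / L ^ A₁)).card : ℝ) * (h / L ^ A₁) ≤ h * Y / L ^ A₂ := by
          refine le_trans ?_ hcell
          calc (((range Y).filter (fun n => N₀ ≤ 2 * X ∧ ¬ DD z h k (N₀ + n) ≤ h / L ^ A₁)).card : ℝ) * (h / L ^ A₁) =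
              ∑ _n ∈ (range Y).filter (fun n => N₀ ≤ 2 * X ∧ ¬ DD z h k (N₀ + n) ≤ h / L ^ A₁), h / L ^ A₁ := by rw [sum_const, nsmul_eq_mul]
            _ ≤ ∑ n ∈ (range Y).filter (fun n => N₀ ≤ 2 * X ∧ ¬ DD z h k (N₀ + n) ≤ h / L ^ A₁), DD z h k (N₀ + n) := by
                refine sum_le_sum fun n hn => ?_
                exact (not_le.1 (mem_filter.1 hn).2.2).le
            _ ≤ ∑ n ∈ range Y, DD z h k (N₀ + n) := by
                apply sum_le_sum_of_subset_of_nonneg (filter_subset _ _)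
                intro n _ _
                exact abs_nonneg _
            _ = _ := rfl
        have e1 : (h : ℝ) * Y / L ^ A₂ = (Y * L ^ A₁ / L ^ A₂) * (h / L ^ A₁) := by field_simp
        rw [e1] at hm
        exact le_of_mul_le_mul_right hm (by positivity)
      · rw [filter_false_of_mem (fun n _ h' => hN₀X h'.1)]
        rw [card_empty, Nat.cast_zero]
        positivity
    have hKc := Kc_card X h (a + 1) N₀ (12 * X ^ 2 + 1) (by exact_mod_cast hh0) (by linarith)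
    calc (((range Y).filter (fun n => N₀ + n ≤ 2 * X ∧ ¬ SG z X h a A₁ (N₀ + n))).card : ℝ)
        ≤ ((∑ k ∈ KK, ((range Y).filter (fun n => N₀ ≤ 2 * X ∧ ¬ DD z h k (N₀ + n) ≤ h / L ^ A₁)).card : ℕ) : ℝ) := by exact_mod_cast hcard
      _ = ∑ k ∈ KK, (((range Y).filter (fun n => N₀ ≤ 2 * X ∧ ¬ DD z h k (N₀ + n) ≤ h / L ^ A₁)).card : ℝ) := by push_cast; rfl
      _ ≤ ∑ _k ∈ KK, (Y * L ^ A₁ / L ^ A₂ : ℝ) := sum_le_sum hone
      _ = (KK.card : ℝ) * (Y * L ^ A₁ / L ^ A₂) := by rw [sum_const, nsmul_eq_mul]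
      _ ≤ 3 * L ^ (a + 1) * (Y * L ^ A₁ / L ^ A₂) := mul_le_mul_of_nonneg_right hKc (by positivity)
  -- the map to the blocks
  have hinj : ((Ioc X (2 * X)).filter (fun N => ¬ SG z X h a A₁ N)).card ≤
      ∑ i ∈ range I, ((range Y).filter (fun n => X + i * Y + n ≤ 2 * X ∧ ¬ SG z X h a A₁ (X + i * Y + n))).card := by
    rw [← card_sigma]
    apply card_le_card_of_injOn (fun N => (⟨(N - X) / Y, (N - X) % Y⟩ : Σ _ : ℕ, ℕ))
    · intro N hN
      rw [mem_coe, mem_filter, mem_Ioc] at hN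
      rw [mem_coe, mem_sigma, mem_range, mem_filter, mem_range]
      dsimp only
      have e1 : (N - X) / Y ≤ X / Y := Nat.div_le_div_right (by omega)
      have e2 : X + (N - X) / Y * Y + (N - X) % Y = N := by
        have := Nat.div_add_mod (N - X) Y
        rw [mul_comm] at this
        omega
      rw [e2]
      exact ⟨by omega, Nat.mod_lt _ (by omega), hN.1.2, hN.2⟩
    · intro N hN N' hN' he
      rw [mem_coe, mem_filter, mem_Ioc] at hN hN'
      simp only [Sigma.mk.injEq, heq_eq_eq] at he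
      obtain ⟨e1, e2⟩ := he
      have f1 := Nat.div_add_mod (N - X) Y
      have f2 := Nat.div_add_mod (N' - X) Y
      rw [e1, e2] at f1
      omega
  have hsum : ∀ i ∈ range I, (((range Y).filter (fun n => X + i * Y + n ≤ 2 * X ∧ ¬ SG z X h a A₁ (X + i * Y + n))).card : ℝ) ≤
      3 * L ^ (a + 1) * (Y * L ^ A₁ / L ^ A₂) + (if ¬ GB z X h d (a + 1) (X + i * Y) then (Y : ℝ) else 0) := by
    intro i _
    by_cases hi : GB z X h d (a + 1) (X + i * Y)
    · rw [if_neg (not_not.2 hi), add_zero]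
      exact hgood i hi
    · rw [if_pos hi]
      have e1 : (((range Y).filter (fun n => X + i * Y + n ≤ 2 * X ∧ ¬ SG z X h a A₁ (X + i * Y + n))).card : ℝ) ≤ Y := by
        have := card_filter_le (range Y) (fun n => X + i * Y + n ≤ 2 * X ∧ ¬ SG z X h a A₁ (X + i * Y + n))
        rw [card_range] at this
        exact_mod_cast this
      have e2 : 0 ≤ 3 * L ^ (a + 1) * (Y * L ^ A₁ / L ^ A₂) := by positivity
      linarith
  have htot : (((Ioc X (2 * X)).filter (fun N => ¬ SG z X h a A₁ N)).card : ℝ) ≤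
      I * (3 * L ^ (a + 1) * (Y * L ^ A₁ / L ^ A₂)) + (((range I).filter (fun i => ¬ GB z X h d (a + 1) (X + i * Y))).card : ℝ) * Y := by
    calc (((Ioc X (2 * X)).filter (fun N => ¬ SG z X h a A₁ N)).card : ℝ)
        ≤ ((∑ i ∈ range I, ((range Y).filter (fun n => X + i * Y + n ≤ 2 * X ∧ ¬ SG z X h a A₁ (X + i * Y + n))).card : ℕ) : ℝ) := by
          exact_mod_cast hinj
      _ = ∑ i ∈ range I, (((range Y).filter (fun n => X + i * Y + n ≤ 2 * X ∧ ¬ SG z X h a A₁ (X + i * Y + n))).card : ℝ) := by push_cast; rfl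
      _ ≤ _ := sum_le_sum hsum
      _ = _ := by
          rw [sum_add_distrib, sum_const, card_range, nsmul_eq_mul, ← sum_filter, sum_const, nsmul_eq_mul]
  refine htot.trans ?_
  have f1 : (I : ℝ) * (3 * L ^ (a + 1) * (Y * L ^ A₁ / L ^ A₂)) ≤ 6 / L * (X / L ^ (A + 1)) := by
    have e1 : (I : ℝ) * (3 * L ^ (a + 1) * (Y * L ^ A₁ / L ^ A₂)) = (I * Y) * (3 * (L ^ (a + 1) * L ^ A₁ / L ^ A₂)) := by ring
    have e2 : L ^ (a + 1) * L ^ A₁ / L ^ A₂ = 1 / L ^ (A + 2) := by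
      rw [hA₂, show A₁ + (a + 1) + A + 2 = (a + 1) + A₁ + (A + 2) by ring, pow_add L ((a + 1) + A₁) (A + 2), pow_add L (a + 1) A₁]
      field_simp
    rw [e1, e2]
    calc (I * Y : ℝ) * (3 * (1 / L ^ (A + 2))) ≤ (2 * X) * (3 * (1 / L ^ (A + 2))) := by gcongr
      _ = 6 / L * (X / L ^ (A + 1)) := by
          rw [show A + 2 = (A + 1) + 1 by ring, pow_succ L (A + 1)]
          field_simp
          ring
  have f2 : 6 / L ≤ 1 := by
    rw [div_le_one hL0]; linarith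
  have f3 : 0 ≤ (X : ℝ) / L ^ (A + 1) := by positivity
  calc _ ≤ 1 * (X / L ^ (A + 1)) + X / L ^ (A + 1) := by
        apply add_le_add _ hbl
        exact f1.trans (mul_le_mul_of_nonneg_right f2 f3)
    _ = 2 / L * (X / L ^ A) := by
        rw [pow_succ L A]
        field_simp
        ring
    _ ≤ 1 * (X / L ^ A) := by
        apply mul_le_mul_of_nonneg_right _ (by positivity)
        rw [div_le_one hL0]; linarith
    _ = _ := one_mul _

end Pool.Agent.H79.V
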