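import Pool.Agent.H79.Q.En

/-! The sixth moment of short quadratic sums, with explicit bounds. -/

set_option autoImplicit false

namespace Pool.Agent.H79.V.Six

open Finset
open Pool.Agent.H79.Q.En (tau tau_nonneg tau_mul sum_tau sum_tau_int)

/-- the number of solutions of a shifted equation -/
lemma shift_le {ι κ : Type*} [DecidableEq ι] [DecidableEq κ] [AddCommGroup κ] (S : Finset ι) (φ : ι → κ) (t : κ) :
    (((S ×ˢ S).filter (fun p => φ p.1 = φ p.2 + t)).card : ℝ) ≤ (((S ×ˢ S).filter (fun p => φ p.1 = φ p.2)).card : ℝ) := by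
  set r : κ → ℝ := fun k => ((S.filter (fun y => φ y = k)).card : ℝ) with hr
  have hgen : ∀ t : κ, (((S ×ˢ S).filter (fun p => φ p.1 = φ p.2 + t)).card : ℝ) = ∑ k ∈ S.image φ, r k * r (k - t) := by
    intro t
    rw [card_filter]
    push_cast
    rw [sum_product]
    have h1 : ∀ x ∈ S, (∑ y ∈ S, if φ x = φ y + t then (1 : ℝ) else 0) = r (φ x - t) := by
      intro x _
      rw [hr]
      simp only
      rw [card_filter]
      push_cast
      refine sum_congr rfl fun y _ => ?_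
      congr 1
      apply propext
      constructor
      · intro h; rw [h]; simp
      · intro h; rw [h]; simp
    rw [sum_congr rfl h1]
    rw [← sum_fiberwise_of_maps_to (s := S) (t := S.image φ) (g := φ) (fun x hx => mem_image_of_mem φ hx)]
    refine sum_congr rfl fun k _ => ?_
    have h2 : ∀ x ∈ S.filter (fun x => φ x = k), r (φ x - t) = r (k - t) := by
      intro x hx
      rw [(mem_filter.1 hx).2]
    rw [sum_congr rfl h2, sum_const, nsmul_eq_mul]
  have h0 := hgen 0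
  simp only [add_zero, sub_zero] at h0
  rw [hgen t, h0]
  have h1 : ∀ k ∈ S.image φ, r k * r (k - t) ≤ (r k * r k + r (k - t) * r (k - t)) / 2 := by
    intro k _
    nlinarith [sq_nonneg (r k - r (k - t))]
  refine (sum_le_sum h1).trans ?_
  have h2 : ∑ k ∈ S.image φ, r (k - t) * r (k - t) ≤ ∑ k ∈ S.image φ, r k * r k := by
    have h3 : ∑ k ∈ S.image φ, r (k - t) * r (k - t) = ∑ k ∈ (S.image φ).image (fun k => k - t), r k * r k := by
      rw [sum_image (s := S.image φ) (g := fun k => k - t) (f := fun k => r k * r k)]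
      intro x _ y _ h
      simpa using h
    rw [h3, ← sum_filter_add_sum_filter_not ((S.image φ).image (fun k => k - t)) (fun k => k ∈ S.image φ)]
    have h4 : ∑ k ∈ ((S.image φ).image (fun k => k - t)).filter (fun k => ¬ k ∈ S.image φ), r k * r k = 0 := by
      apply sum_eq_zero
      intro k hk
      rw [mem_filter] at hk
      have h5 : r k = 0 := by
        rw [hr]
        simp only
        rw [Nat.cast_eq_zero, card_eq_zero, filter_eq_empty_iff]
        intro y hy hyk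
        exact hk.2 (hyk ▸ mem_image_of_mem φ hy)
      rw [h5, zero_mul]
    rw [h4, add_zero]
    apply sum_le_sum_of_subset_of_nonneg
    · intro k hk
      exact (mem_filter.1 hk).2
    · intro k _ _
      exact mul_self_nonneg _
  rw [← sum_div, sum_add_distrib]
  linarith

/-- the triples -/
def Tr (Y : ℕ) : Finset (ℕ × ℕ × ℕ) := range Y ×ˢ (range Y ×ˢ range Y)

/-- `a + b - c` and `a² + b² - c²` -/
def ph (v : ℕ × ℕ × ℕ) : ℤ × ℤ := ((v.1 : ℤ) + v.2.1 - v.2.2, (v.1 : ℤ) ^ 2 + (v.2.1 : ℤ) ^ 2 - (v.2.2 : ℤ) ^ 2)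

/-- the product `(a - c) (b - c)` -/
def pr (v : ℕ × ℕ × ℕ) : ℤ := ((v.1 : ℤ) - v.2.2) * ((v.2.1 : ℤ) - v.2.2)

lemma pr_eq (v : ℕ × ℕ × ℕ) : 2 * pr v = (ph v).1 ^ 2 - (ph v).2 := by
  unfold pr ph
  ring

lemma fib_ne (Y : ℕ) (v : ℕ × ℕ × ℕ) (hv : pr v ≠ 0) :
    (((Tr Y).filter (fun w => ph v = ph w)).card : ℝ) ≤ 2 * tau (pr v).natAbs := by
  classical
  set T : Finset ℤ := ((pr v).natAbs.divisors).image (fun d : ℕ => (d : ℤ)) ∪ ((pr v).natAbs.divisors).image (fun d : ℕ => -(d : ℤ)) with hT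
  have hTc : T.card ≤ 2 * (pr v).natAbs.divisors.card := by
    rw [hT]
    refine (card_union_le _ _).trans ?_
    have h1 := Finset.card_image_le (s := (pr v).natAbs.divisors) (f := fun d : ℕ => (d : ℤ))
    have h2 := Finset.card_image_le (s := (pr v).natAbs.divisors) (f := fun d : ℕ => -(d : ℤ))
    omega
  have hpr : ∀ w, ph v = ph w → pr w = pr v := by
    intro w hw
    have h1 := pr_eq v
    have h2 := pr_eq w
    rw [hw] at h1
    omega
  have h1 : ((Tr Y).filter (fun w => ph v = ph w)).card ≤ T.card := by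
    apply Finset.card_le_card_of_injOn (fun w : ℕ × ℕ × ℕ => (w.1 : ℤ) - w.2.2)
    · intro w hw
      rw [Finset.mem_coe, mem_filter] at hw
      have h2 := hpr w hw.2
      have hd : (w.1 : ℤ) - w.2.2 ∣ pr v := ⟨_, h2.symm⟩
      have hd0 : ((w.1 : ℤ) - w.2.2).natAbs ∣ (pr v).natAbs := Int.natAbs_dvd_natAbs.2 hd
      have hmem : ((w.1 : ℤ) - w.2.2).natAbs ∈ (pr v).natAbs.divisors := by
        rw [Nat.mem_divisors]
        exact ⟨hd0, by omega⟩
      rw [Finset.mem_coe, hT, mem_union, mem_image, mem_image]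
      rcases Int.natAbs_eq ((w.1 : ℤ) - w.2.2) with h | h
      · left; exact ⟨_, hmem, h.symm⟩
      · right; exact ⟨_, hmem, h.symm⟩
    · intro w hw w' hw' he
      rw [Finset.mem_coe, mem_filter] at hw hw'
      dsimp only at he
      have h2 := hpr w hw.2
      have h3 := hpr w' hw'.2
      have h4 : ph w = ph w' := hw.2.symm.trans hw'.2
      have h5 : ((w.1 : ℤ) - w.2.2) ≠ 0 := by
        intro h6
        unfold pr at h2
        rw [h6, zero_mul] at h2
        exact hv h2.symm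
      have h6 : ((w.2.1 : ℤ) - w.2.2) = ((w'.2.1 : ℤ) - w'.2.2) := by
        apply mul_left_cancel₀ h5
        have h7 : pr w = pr w' := h2.trans h3.symm
        unfold pr at h7
        rw [← he] at h7
        exact h7
      have h7 := congrArg Prod.fst h4
      unfold ph at h7
      dsimp only at h7
      have e1 : w.1 = w'.1 := by omega
      have e2 : w.2.1 = w'.2.1 := by omega
      have e3 : w.2.2 = w'.2.2 := by omega
      exact Prod.ext e1 (Prod.ext e2 e3)
  unfold tau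
  have h2 := h1.trans hTc
  exact_mod_cast h2

lemma fib_zero (Y : ℕ) (v : ℕ × ℕ × ℕ) (hv : pr v = 0) :
    (((Tr Y).filter (fun w => ph v = ph w)).card : ℝ) ≤ 2 * Y := by
  classical
  have hpr : ∀ w, ph v = ph w → pr w = 0 := by
    intro w hw
    have h1 := pr_eq v
    have h2 := pr_eq w
    rw [hw] at h1
    omega
  -- one of the two differences vanishes: the third variable determines the rest
  have h1 : ((Tr Y).filter (fun w => ph v = ph w)).card ≤ ((range Y) ×ˢ (range 2)).card := by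
    apply Finset.card_le_card_of_injOn (fun w : ℕ × ℕ × ℕ => (w.2.2, if w.1 = w.2.2 then 0 else 1))
    · intro w hw
      rw [Finset.mem_coe, mem_filter] at hw
      unfold Tr at hw
      rw [mem_product, mem_product] at hw
      rw [Finset.mem_coe, mem_product]
      refine ⟨hw.1.2.2, ?_⟩
      rw [mem_range]
      dsimp only
      split_ifs <;> norm_num
    · intro w hw w' hw' he
      rw [Finset.mem_coe, mem_filter] at hw hw'
      have h2 := hpr w hw.2
      have h3 := hpr w' hw'.2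
      have h4 : ph w = ph w' := hw.2.symm.trans hw'.2
      have h7 := congrArg Prod.fst h4
      unfold ph at h7
      dsimp only at h7
      rw [Prod.mk.injEq] at he
      obtain ⟨he1, he2⟩ := he
      unfold pr at h2 h3
      rw [mul_eq_zero] at h2 h3
      by_cases g : w.1 = w.2.2
      · by_cases g' : w'.1 = w'.2.2
        · exact Prod.ext (by omega) (Prod.ext (by omega) (by omega))
        · rw [if_pos g, if_neg g'] at he2
          omega
      · by_cases g' : w'.1 = w'.2.2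
        · rw [if_neg g, if_pos g'] at he2
          omega
        · exact Prod.ext (by omega) (Prod.ext (by omega) (by omega))
  rw [card_product, card_range, card_range] at h1
  have h2 : (((Tr Y).filter (fun w => ph v = ph w)).card : ℝ) ≤ ((Y * 2 : ℕ) : ℝ) := by exact_mod_cast h1
  push_cast at h2
  linarith

lemma sum_one (Y c : ℕ) (hc : c < Y) : ∑ a ∈ range Y, tau ((a : ℤ) - c).natAbs ≤ 2 * (Y * (1 + Real.log Y)) := by
  refine le_trans ?_ (sum_tau_int Y)
  rw [← sum_image (s := range Y) (g := fun a : ℕ => (a : ℤ) - c) (f := fun v : ℤ => tau v.natAbs)]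
  · apply sum_le_sum_of_subset_of_nonneg
    · intro v hv
      rw [mem_image] at hv
      obtain ⟨a, ha, rfl⟩ := hv
      rw [mem_range] at ha
      rw [mem_Icc]
      constructor <;> omega
    · intro v _ _
      exact tau_nonneg _
  · intro a _ b _ h
    simpa using h

/-- the quadratic Vinogradov system with three variables -/
lemma vin (Y : ℕ) (hY : 1 ≤ Y) : (((Tr Y ×ˢ Tr Y).filter (fun p => ph p.1 = ph p.2)).card : ℝ) ≤
    12 * (Y : ℝ) ^ 3 * (1 + Real.log Y) ^ 2 := by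
  classical
  have hY0 : (1 : ℝ) ≤ Y := by exact_mod_cast hY
  have hl : 0 ≤ Real.log Y := Real.log_nonneg hY0
  rw [card_filter]
  push_cast
  rw [sum_product]
  have h1 : ∀ v ∈ Tr Y, (∑ w ∈ Tr Y, if ph v = ph w then (1 : ℝ) else 0) ≤
      2 * (tau ((v.1 : ℤ) - v.2.2).natAbs * tau ((v.2.1 : ℤ) - v.2.2).natAbs) + (if v.1 = v.2.2 ∨ v.2.1 = v.2.2 then 2 * (Y : ℝ) else 0) := by
    intro v _
    have e : (∑ w ∈ Tr Y, if ph v = ph w then (1 : ℝ) else 0) = (((Tr Y).filter (fun w => ph v = ph w)).card : ℝ) := by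
      rw [card_filter]; push_cast; rfl
    rw [e]
    by_cases hv : pr v = 0
    · have h2 : v.1 = v.2.2 ∨ v.2.1 = v.2.2 := by
        unfold pr at hv
        rcases mul_eq_zero.1 hv with h | h
        · left; omega
        · right; omega
      rw [if_pos h2]
      have h3 := fib_zero Y v hv
      have h4 := mul_nonneg (tau_nonneg ((v.1 : ℤ) - v.2.2).natAbs) (tau_nonneg ((v.2.1 : ℤ) - v.2.2).natAbs)
      linarith
    · have h3 := fib_ne Y v hv
      have h4 : tau (pr v).natAbs ≤ tau ((v.1 : ℤ) - v.2.2).natAbs * tau ((v.2.1 : ℤ) - v.2.2).natAbs := by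
        unfold pr
        rw [Int.natAbs_mul]
        exact tau_mul _ _
      have h5 : (0 : ℝ) ≤ (if v.1 = v.2.2 ∨ v.2.1 = v.2.2 then 2 * (Y : ℝ) else 0) := by
        split_ifs <;> positivity
      linarith
  refine (sum_le_sum h1).trans ?_
  rw [sum_add_distrib]
  have h2 : ∑ v ∈ Tr Y, 2 * (tau ((v.1 : ℤ) - v.2.2).natAbs * tau ((v.2.1 : ℤ) - v.2.2).natAbs) ≤
      8 * (Y : ℝ) ^ 3 * (1 + Real.log Y) ^ 2 := by
    have e : ∑ v ∈ Tr Y, 2 * (tau ((v.1 : ℤ) - v.2.2).natAbs * tau ((v.2.1 : ℤ) - v.2.2).natAbs) =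
        ∑ c ∈ range Y, 2 * (∑ a ∈ range Y, tau ((a : ℤ) - c).natAbs) * (∑ b ∈ range Y, tau ((b : ℤ) - c).natAbs) := by
      unfold Tr
      rw [sum_product]
      simp_rw [sum_product]
      have e1 : ∀ a ∈ range Y, ∑ b ∈ range Y, ∑ c ∈ range Y, 2 * (tau ((a : ℤ) - c).natAbs * tau ((b : ℤ) - c).natAbs) =
          ∑ c ∈ range Y, ∑ b ∈ range Y, 2 * (tau ((a : ℤ) - c).natAbs * tau ((b : ℤ) - c).natAbs) := by
        intro a _
        rw [sum_comm]
      rw [sum_congr rfl e1, sum_comm]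
      refine sum_congr rfl fun c _ => ?_
      rw [mul_assoc, sum_mul_sum, mul_sum]
      refine sum_congr rfl fun a _ => ?_
      rw [mul_sum]
    rw [e]
    have h3 : ∀ c ∈ range Y, 2 * (∑ a ∈ range Y, tau ((a : ℤ) - c).natAbs) * (∑ b ∈ range Y, tau ((b : ℤ) - c).natAbs) ≤
        2 * (2 * (Y * (1 + Real.log Y))) * (2 * (Y * (1 + Real.log Y))) := by
      intro c hc
      have h4 := sum_one Y c (mem_range.1 hc)
      have h5 : 0 ≤ ∑ a ∈ range Y, tau ((a : ℤ) - c).natAbs := sum_nonneg fun _ _ => tau_nonneg _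
      gcongr
    refine (sum_le_sum h3).trans ?_
    rw [sum_const, card_range, nsmul_eq_mul]
    apply le_of_eq
    ring
  have h3 : ∑ v ∈ Tr Y, (if v.1 = v.2.2 ∨ v.2.1 = v.2.2 then 2 * (Y : ℝ) else 0) ≤ 4 * (Y : ℝ) ^ 3 := by
    rw [← sum_filter, sum_const, nsmul_eq_mul]
    have h4 : ((Tr Y).filter (fun v => v.1 = v.2.2 ∨ v.2.1 = v.2.2)).card ≤ 2 * Y ^ 2 := by
      have h5 : (Tr Y).filter (fun v => v.1 = v.2.2 ∨ v.2.1 = v.2.2) ⊆
          (range Y ×ˢ range Y).image (fun p => (p.1, p.2, p.1)) ∪ (range Y ×ˢ range Y).image (fun p => (p.2, p.1, p.1)) := by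
        intro v hv
        unfold Tr at hv
        rw [mem_filter, mem_product, mem_product] at hv
        obtain ⟨⟨h6, h7, h8⟩, h9⟩ := hv
        rw [mem_union, mem_image, mem_image]
        rcases h9 with h | h
        · left
          exact ⟨(v.1, v.2.1), mem_product.2 ⟨h6, h7⟩, Prod.ext rfl (Prod.ext rfl h)⟩
        · right
          exact ⟨(v.2.1, v.1), mem_product.2 ⟨h7, h6⟩, Prod.ext rfl (Prod.ext rfl h)⟩
      have h6 := (card_le_card h5).trans (card_union_le _ _)
      have h7 := card_image_le (s := range Y ×ˢ range Y) (f := fun p : ℕ × ℕ => (p.1, p.2, p.1))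
      have h8 := card_image_le (s := range Y ×ˢ range Y) (f := fun p : ℕ × ℕ => (p.2, p.1, p.1))
      rw [card_product, card_range] at h7 h8
      have h9 : Y ^ 2 = Y * Y := by ring
      omega
    have h5 : (((Tr Y).filter (fun v => v.1 = v.2.2 ∨ v.2.1 = v.2.2)).card : ℝ) ≤ 2 * (Y : ℝ) ^ 2 := by exact_mod_cast h4
    calc (((Tr Y).filter (fun v => v.1 = v.2.2 ∨ v.2.1 = v.2.2)).card : ℝ) * (2 * Y) ≤ (2 * (Y : ℝ) ^ 2) * (2 * Y) := by gcongr
      _ = 4 * (Y : ℝ) ^ 3 := by ring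
  have h4 : (1 : ℝ) ≤ (1 + Real.log Y) ^ 2 := one_le_pow₀ (by linarith)
  have h5 : 4 * (Y : ℝ) ^ 3 ≤ 4 * (Y : ℝ) ^ 3 * (1 + Real.log Y) ^ 2 := le_mul_of_one_le_right (by positivity) h4
  linarith

/-- the values -/
def qn (T : ℤ) (n : ℕ) : ℤ := (n : ℤ) ^ 2 + T * n

/-- the number of solutions of `∑ qn (n_i) = ∑ qn (m_i)` with three variables on both sides -/
noncomputable def J6 (T : ℤ) (Y : ℕ) : ℕ := ((Tr Y ×ˢ Tr Y).filter (fun p =>
    qn T p.1.1 + qn T p.1.2.1 + qn T p.1.2.2 = qn T p.2.1 + qn T p.2.2.1 + qn T p.2.2.2)).card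

theorem six (T : ℤ) (Y : ℕ) (hT : 1 ≤ T) (hY : 1 ≤ Y) :
    (J6 T Y : ℝ) ≤ (1 + 6 * (Y : ℝ) ^ 2 / T) * (12 * (Y : ℝ) ^ 3 * (1 + Real.log Y) ^ 2) := by
  classical
  unfold J6
  set D : ℕ := 3 * Y ^ 2 / T.toNat with hD
  set S := (Tr Y ×ˢ Tr Y).filter (fun p =>
    qn T p.1.1 + qn T p.1.2.1 + qn T p.1.2.2 = qn T p.2.1 + qn T p.2.2.1 + qn T p.2.2.2) with hS
  set δ : (ℕ × ℕ × ℕ) × (ℕ × ℕ × ℕ) → ℤ := fun p =>
    ((p.1.1 : ℤ) + p.1.2.1 + p.1.2.2) - ((p.2.1 : ℤ) + p.2.2.1 + p.2.2.2) with hδ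
  have hmaps : ∀ p ∈ S, δ p ∈ Icc (-(D : ℤ)) D := by
    intro p hp
    rw [hS, mem_filter] at hp
    obtain ⟨hp1, hp2⟩ := hp
    unfold Tr at hp1
    simp only [mem_product, mem_range] at hp1
    obtain ⟨⟨a1, a2, a3⟩, b1, b2, b3⟩ := hp1
    have hTn : (T.toNat : ℤ) = T := Int.toNat_of_nonneg (by omega)
    have sqb : ∀ n : ℕ, n < Y → 0 ≤ (n : ℤ) ^ 2 ∧ (n : ℤ) ^ 2 ≤ (Y : ℤ) ^ 2 := by
      intro n hn
      have : (n : ℤ) ≤ Y := by exact_mod_cast hn.le
      constructor
      · positivity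
      · nlinarith [Nat.cast_nonneg (α := ℤ) n]
    have c1 := sqb _ a1
    have c2 := sqb _ a2
    have c3 := sqb _ a3
    have c4 := sqb _ b1
    have c5 := sqb _ b2
    have c6 := sqb _ b3
    have hkey : T * δ p = ((p.2.1 : ℤ) ^ 2 + (p.2.2.1 : ℤ) ^ 2 + (p.2.2.2 : ℤ) ^ 2) - ((p.1.1 : ℤ) ^ 2 + (p.1.2.1 : ℤ) ^ 2 + (p.1.2.2 : ℤ) ^ 2) := by
      rw [hδ]
      unfold qn at hp2
      dsimp only
      linear_combination hp2
    have hab : |δ p| * T ≤ 3 * (Y : ℤ) ^ 2 := by
      have h1 : |δ p| * T = |T * δ p| := by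
        rw [abs_mul, abs_of_nonneg (by omega : 0 ≤ T), mul_comm]
      rw [h1, hkey, abs_le]
      constructor <;> linarith
    have h2 : (δ p).natAbs ≤ D := by
      rw [hD, Nat.le_div_iff_mul_le (by omega)]
      have h3 : (((δ p).natAbs * T.toNat : ℕ) : ℤ) ≤ ((3 * Y ^ 2 : ℕ) : ℤ) := by
        push_cast
        rw [hTn]
        exact hab
      exact_mod_cast h3
    rw [mem_Icc]
    omega
  have h1 : (S.card : ℝ) = ∑ s ∈ Icc (-(D : ℤ)) D, ((S.filter (fun p => δ p = s)).card : ℝ) := by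
    rw [card_eq_sum_card_fiberwise hmaps]
    push_cast
    rfl
  have h2 : ∀ s ∈ Icc (-(D : ℤ)) D, ((S.filter (fun p => δ p = s)).card : ℝ) ≤ 12 * (Y : ℝ) ^ 3 * (1 + Real.log Y) ^ 2 := by
    intro s _
    refine le_trans ?_ (vin Y hY)
    refine le_trans ?_ (shift_le (Tr Y) ph (s, -T * s))
    have h3 : (S.filter (fun p => δ p = s)).card ≤ ((Tr Y ×ˢ Tr Y).filter (fun p => ph p.1 = ph p.2 + (s, -T * s))).card := by
      apply card_le_card_of_injOn (fun p => ((p.1.1, p.1.2.1, p.2.2.2), (p.2.1, p.2.2.1, p.1.2.2)))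
      · intro p hp
        rw [Finset.mem_coe, mem_filter, hS, mem_filter] at hp
        obtain ⟨⟨hp1, hp2⟩, hp3⟩ := hp
        unfold Tr at hp1
        simp only [mem_product] at hp1
        obtain ⟨⟨a1, a2, a3⟩, b1, b2, b3⟩ := hp1
        rw [Finset.mem_coe, mem_filter]
        refine ⟨?_, ?_⟩
        · unfold Tr
          simp only [mem_product]
          exact ⟨⟨a1, a2, b3⟩, b1, b2, a3⟩
        · rw [hδ] at hp3
          dsimp only at hp3
          unfold qn at hp2
          unfold ph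
          dsimp only
          rw [Prod.mk_add_mk, Prod.mk.injEq]
          constructor
          · linarith
          · rw [← hp3]
            linear_combination hp2
      · intro p _ p' _ he
        simp only [Prod.mk.injEq] at he
        obtain ⟨⟨e1, e2, e3⟩, e4, e5, e6⟩ := he
        exact Prod.ext (Prod.ext e1 (Prod.ext e2 e6)) (Prod.ext e4 (Prod.ext e5 e3))
    exact_mod_cast h3
  rw [h1]
  refine (sum_le_sum h2).trans ?_
  rw [sum_const, nsmul_eq_mul, Int.card_Icc]
  have hl : 0 ≤ Real.log Y := Real.log_natCast_nonneg _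
  apply mul_le_mul_of_nonneg_right _ (by positivity)
  have h3 : ((D : ℤ) + 1 - -(D : ℤ)).toNat = 2 * D + 1 := by omega
  rw [h3]
  push_cast
  have hTR : ((T.toNat : ℕ) : ℝ) = (T : ℝ) := by
    have : (T.toNat : ℤ) = T := Int.toNat_of_nonneg (by omega)
    exact_mod_cast this
  have h4 : (D : ℝ) ≤ 3 * (Y : ℝ) ^ 2 / T := by
    rw [hD, ← hTR]
    refine Nat.cast_div_le.trans ?_
    push_cast
    exact le_rfl
  have h5 : 6 * (Y : ℝ) ^ 2 / T = 2 * (3 * (Y : ℝ) ^ 2 / T) := by ring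
  rw [h5]
  linarith

end Pool.Agent.H79.V.Six
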