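import Pool.Graph.R_pool_sql_team_seeded_620a6dc7.helper24_UT_.Mi2
import Pool.Graph.R_seed8.H373R2.T7.Minor

/-! Bilinear sums with a linear phase in short windows. -/

set_option autoImplicit false

namespace Pool.Agent.H79.V

open Finset
open Pool.Agent.H807R2.Dav
open Pool.Agent.helper24_UT.Mi2 (ds ds_sum ds_comm symm_sum ee_conj)

/-- the majorant for the difference `d` -/
noncomputable def Rw (K M : ℕ) (T α : ℝ) (d : ℕ) : ℝ := if d * M < K then KK T (d * α) else 0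

lemma Rw_nonneg (K M : ℕ) {T : ℝ} (hT : 0 ≤ T) (α : ℝ) (d : ℕ) : 0 ≤ Rw K M T α d := by
  unfold Rw
  split_ifs
  · exact KK_nonneg hT _
  · exact le_rfl

lemma KK_ds (T α : ℝ) (l l' : ℕ) : KK T (((l : ℝ) - l') * α) = KK T (ds l l' * α) := by
  unfold ds
  rcases le_total l l' with h | h
  · have : (((l - l') + (l' - l) : ℕ) : ℝ) = -((l : ℝ) - l') := by
      rw [Nat.sub_eq_zero_of_le h, zero_add, Nat.cast_sub h]
      ring
    rw [this, neg_mul, KK_neg]
  · have : (((l - l') + (l' - l) : ℕ) : ℝ) = ((l : ℝ) - l') := by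
      rw [Nat.sub_eq_zero_of_le h, add_zero, Nat.cast_sub h]
    rw [this]

/-- the inner sum -/
lemma inner (N N' M L : ℕ) (α : ℝ) (hM : 1 ≤ M) (hL : 1 ≤ L) (hNN : N ≤ N') (l l' : ℕ) (hl : l ∈ Ioc L (2 * L)) (hl' : l' ∈ Ioc L (2 * L)) :
    ‖∑ m ∈ (Ioc M (2 * M)).filter (fun m => (N < m * l ∧ m * l ≤ N') ∧ (N < m * l' ∧ m * l' ≤ N')),
          ee ((m : ℝ) * (((l : ℝ) - l') * α))‖ ≤ Rw (N' - N) M (((N' - N : ℕ) : ℝ) / L + 1) α (ds l l') := by
  rw [mem_Ioc] at hl hl'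
  have hl0 : 0 < l := by omega
  have hl0' : 0 < l' := by omega
  have hT : (0 : ℝ) ≤ ((N' - N : ℕ) : ℝ) / L + 1 := by positivity
  set lo := max M (max (N / l) (N / l')) with hlo
  set hi := min (2 * M) (min (N' / l) (N' / l')) with hhi
  have hset : (Ioc M (2 * M)).filter (fun m => (N < m * l ∧ m * l ≤ N') ∧ (N < m * l' ∧ m * l' ≤ N')) =
      Ico (lo + 1) (hi + 1) := by
    ext m
    rw [mem_filter, mem_Ioc, mem_Ico]
    have g1 : N < m * l ↔ N / l < m := (Nat.div_lt_iff_lt_mul hl0).symm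
    have g2 : m * l ≤ N' ↔ m ≤ N' / l := (Nat.le_div_iff_mul_le hl0).symm
    have g3 : N < m * l' ↔ N / l' < m := (Nat.div_lt_iff_lt_mul hl0').symm
    have g4 : m * l' ≤ N' ↔ m ≤ N' / l' := (Nat.le_div_iff_mul_le hl0').symm
    rw [g1, g2, g3, g4]
    omega
  rw [hset]
  rcases le_or_gt hi lo with h | h
  · rw [Ico_eq_empty_of_le (by omega), sum_empty, norm_zero]
    exact Rw_nonneg _ _ hT _ _
  -- some `m` in the set
  have hm : (lo + 1) ∈ (Ioc M (2 * M)).filter (fun m => (N < m * l ∧ m * l ≤ N') ∧ (N < m * l' ∧ m * l' ≤ N')) := by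
    rw [hset, mem_Ico]; omega
  rw [mem_filter, mem_Ioc] at hm
  obtain ⟨⟨hm1, _⟩, ⟨hm3, hm4⟩, hm5, hm6⟩ := hm
  have hd : ds l l' * M < N' - N := by
    have h1 : ds l l' * (lo + 1) < N' - N := by
      unfold ds
      rcases le_total l l' with h | h
      · have e : (l - l' + (l' - l)) = l' - l := by omega
        rw [e, Nat.sub_mul, mul_comm l', mul_comm l]
        omega
      · have e : (l - l' + (l' - l)) = l - l' := by omega
        rw [e, Nat.sub_mul, mul_comm l', mul_comm l]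
        omega
    exact lt_of_le_of_lt (Nat.mul_le_mul_left _ hm1.le) h1
  unfold Rw
  rw [if_pos hd, ← KK_ds]
  apply geo_bound _ _ (by omega)
  -- length of the interval
  have g1 : N / l ≤ lo := le_trans (le_max_left _ _) (le_max_right _ _)
  have g2 : hi ≤ N' / l := le_trans (min_le_right _ _) (min_le_left _ _)
  have hlr : (0 : ℝ) < l := by exact_mod_cast hl0
  have hLr : (0 : ℝ) < L := by exact_mod_cast hL
  have g3 : (N : ℝ) / l - 1 ≤ lo := by
    have h2 : (N : ℝ) / l < ((N / l : ℕ) : ℝ) + 1 := by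
      rw [div_lt_iff₀ hlr]
      have h3 : N < (N / l + 1) * l := by
        have := Nat.div_add_mod N l
        have := Nat.mod_lt N hl0
        nlinarith
      exact_mod_cast h3
    have h4 : ((N / l : ℕ) : ℝ) ≤ lo := by exact_mod_cast g1
    linarith
  have g4 : (hi : ℝ) ≤ N' / l := by
    have h2 : (hi : ℝ) ≤ ((N' / l : ℕ) : ℝ) := by exact_mod_cast g2
    exact h2.trans Nat.cast_div_le
  have g5 : ((N' - N : ℕ) : ℝ) / l ≤ ((N' - N : ℕ) : ℝ) / L := by
    apply div_le_div_of_nonneg_left (Nat.cast_nonneg _) hLr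
    exact_mod_cast hl.1.le
  have g6 : ((N' - N : ℕ) : ℝ) / l = N' / l - N / l := by
    rw [Nat.cast_sub hNN]; ring
  push_cast
  linarith

/-- bilinear sums with a linear phase in a window -/
theorem typeII_win {q : ℕ} (hq : 1 ≤ q) {c : ℤ} (hcop : IsCoprime c (q : ℤ)) {α : ℝ}
    (hα : |α - c / q| ≤ 1 / (q : ℝ) ^ 2) (N N' M L : ℕ) (hM : 1 ≤ M) (hL : 1 ≤ L) (hNN : N ≤ N') (a b : ℕ → ℂ) :
    ‖∑ m ∈ Ioc M (2 * M), ∑ l ∈ Ioc L (2 * L), a m * b l *
      (if N < m * l ∧ m * l ≤ N' then ee (((m * l : ℕ) : ℝ) * α) else 0)‖ ^ 2 ≤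
      (∑ m ∈ Ioc M (2 * M), ‖a m‖ ^ 2) * ((∑ l ∈ Ioc L (2 * L), ‖b l‖ ^ 2) *
        (2 * (((((N' - N : ℕ) : ℝ) / M + 1) / q + 1) *
          (39 * (((N' - N : ℕ) : ℝ) / L + 1) + 3 * q * (1 + Real.log q))))) := by
  classical
  set S : ℕ → ℂ := fun m => ∑ l ∈ Ioc L (2 * L), b l * (if N < m * l ∧ m * l ≤ N' then ee (((m * l : ℕ) : ℝ) * α) else 0) with hS
  have e1 : ∑ m ∈ Ioc M (2 * M), ∑ l ∈ Ioc L (2 * L), a m * b l *
      (if N < m * l ∧ m * l ≤ N' then ee (((m * l : ℕ) : ℝ) * α) else 0) = ∑ m ∈ Ioc M (2 * M), a m * S m := by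
    apply sum_congr rfl; intro m _
    rw [hS, mul_sum]
    apply sum_congr rfl; intro l _
    ring
  rw [e1]
  refine (Pool.Agent.H373R2.T7.cs_norm _ _ _).trans ?_
  apply mul_le_mul_of_nonneg_left _ (sum_nonneg fun _ _ => by positivity)
  have h1 : ((∑ m ∈ Ioc M (2 * M), ‖S m‖ ^ 2 : ℝ) : ℂ) =
      ∑ l ∈ Ioc L (2 * L), ∑ l' ∈ Ioc L (2 * L), (b l * (starRingEnd ℂ) (b l')) *
        ∑ m ∈ (Ioc M (2 * M)).filter (fun m => (N < m * l ∧ m * l ≤ N') ∧ (N < m * l' ∧ m * l' ≤ N')),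
          ee ((m : ℝ) * (((l : ℝ) - l') * α)) := by
    push_cast
    have h2 : ∀ m ∈ Ioc M (2 * M), ((‖S m‖ : ℂ)) ^ 2 = ∑ l ∈ Ioc L (2 * L), ∑ l' ∈ Ioc L (2 * L),
        (b l * (starRingEnd ℂ) (b l')) * (if (N < m * l ∧ m * l ≤ N') ∧ (N < m * l' ∧ m * l' ≤ N') then
          ee ((m : ℝ) * (((l : ℝ) - l') * α)) else 0) := by
      intro m _
      rw [← Complex.mul_conj', hS]
      simp only
      rw [map_sum, sum_mul_sum]
      apply sum_congr rfl; intro l _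
      apply sum_congr rfl; intro l' _
      rw [map_mul]
      by_cases g1 : N < m * l ∧ m * l ≤ N'
      · by_cases g2 : N < m * l' ∧ m * l' ≤ N'
        · rw [if_pos g1, if_pos g2, if_pos ⟨g1, g2⟩, ee_conj]
          have : ee ((m : ℝ) * (((l : ℝ) - l') * α)) = ee (((m * l : ℕ) : ℝ) * α) * ee (-(((m * l' : ℕ) : ℝ) * α)) := by
            rw [← ee_add]; congr 1; push_cast; ring
          rw [this]; ring
        · rw [if_neg g2, if_neg (show ¬ ((N < m * l ∧ m * l ≤ N') ∧ (N < m * l' ∧ m * l' ≤ N')) from fun h => g2 h.2)]; simp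
      · rw [if_neg g1, if_neg (show ¬ ((N < m * l ∧ m * l ≤ N') ∧ (N < m * l' ∧ m * l' ≤ N')) from fun h => g1 h.1)]; simp
    rw [sum_congr rfl h2, sum_comm]
    apply sum_congr rfl; intro l _
    rw [sum_comm]
    apply sum_congr rfl; intro l' _
    rw [← mul_sum, sum_filter]
  set T : ℝ := ((N' - N : ℕ) : ℝ) / L + 1 with hT
  have hT0 : 0 ≤ T := by positivity
  have h2 : ∑ m ∈ Ioc M (2 * M), ‖S m‖ ^ 2 ≤
      ∑ l ∈ Ioc L (2 * L), ∑ l' ∈ Ioc L (2 * L), |‖b l‖| * |‖b l'‖| * Rw (N' - N) M T α (ds l l') := by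
    have h3 : (∑ m ∈ Ioc M (2 * M), ‖S m‖ ^ 2) = ‖((∑ m ∈ Ioc M (2 * M), ‖S m‖ ^ 2 : ℝ) : ℂ)‖ := by
      rw [Complex.norm_real, Real.norm_of_nonneg (by positivity)]
    rw [h3, h1]
    refine (norm_sum_le _ _).trans (sum_le_sum fun l hl => ?_)
    refine (norm_sum_le _ _).trans (sum_le_sum fun l' hl' => ?_)
    rw [norm_mul, norm_mul, RCLike.norm_conj, abs_of_nonneg (norm_nonneg _), abs_of_nonneg (norm_nonneg _)]
    exact mul_le_mul_of_nonneg_left (inner N N' M L α hM hL hNN l l' hl hl') (by positivity)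
  refine h2.trans ?_
  have h4 := symm_sum (Ioc L (2 * L)) (fun l => ‖b l‖) (fun l l' => Rw (N' - N) M T α (ds l l'))
    (fun _ _ => Rw_nonneg _ _ hT0 _ _) (fun l l' => by simp only [ds_comm])
    (2 * (((((N' - N : ℕ) : ℝ) / M + 1) / q + 1) * (39 * T + 3 * q * (1 + Real.log q)))) ?_
  · exact h4
  intro l _
  have hsub : ∑ w ∈ Ioc L (2 * L), Rw (N' - N) M T α (ds l w) ≤ ∑ w ∈ Icc 1 (2 * L), Rw (N' - N) M T α (ds l w) := by
    apply sum_le_sum_of_subset_of_nonneg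
    · intro w hw
      rw [mem_Ioc] at hw
      rw [mem_Icc]; omega
    · intro _ _ _
      exact Rw_nonneg _ _ hT0 _ _
  refine hsub.trans ?_
  refine (ds_sum (2 * L) l (Rw (N' - N) M T α) (Rw_nonneg _ _ hT0 _) ((N' - N) / M + 1) ?_).trans ?_
  · intro d hd
    unfold Rw
    rw [if_neg]
    intro h
    have h1 : d ≤ (N' - N) / M := (Nat.le_div_iff_mul_le (by omega)).2 h.le
    omega
  · apply mul_le_mul_of_nonneg_left _ (by norm_num)
    have h1 : ∑ d ∈ range ((N' - N) / M + 1), Rw (N' - N) M T α d ≤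
        ∑ d ∈ range ((N' - N) / M + 1), KK T (0 + d * α) := by
      refine sum_le_sum fun d _ => ?_
      unfold Rw
      rw [zero_add]
      split_ifs
      · exact le_rfl
      · exact KK_nonneg hT0 _
    refine h1.trans ((vino hq hcop hα hT0 0 _).trans ?_)
    have hlq : 0 ≤ Real.log q := Real.log_nonneg (by exact_mod_cast hq)
    apply mul_le_mul_of_nonneg_right _ (by positivity)
    have h2 : ((((N' - N) / M + 1 : ℕ) : ℝ)) ≤ ((N' - N : ℕ) : ℝ) / M + 1 := by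
      push_cast
      have := @Nat.cast_div_le ℝ _ _ _ (N' - N) M
      linarith
    have h3 := div_le_div_of_nonneg_right h2 (show (0 : ℝ) ≤ q by positivity)
    linarith

end Pool.Agent.H79.V
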