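import Pool.Agent.H79.V.T2

/-! The von Mangoldt function with a linear phase in short windows. -/

set_option autoImplicit false

namespace Pool.Agent.H79.V

open Finset
open Pool.Agent.H807R2.Dav
open Pool.Agent.H373R2.T7 (vaughan_gen typeI_lin)

lemma alg_II (M L K U N q ℓ A₂ B₂ : ℝ) (hM : 0 < M) (hL : 0 < L) (hK : 0 ≤ K) (hU : 0 < U) (hN : 0 < N) (hq : 1 ≤ q)
    (hℓ : 1 ≤ ℓ) (hA : 0 ≤ A₂) (hB : 0 ≤ B₂) (hML : M * L ≤ 2 * N) (hUM : U ≤ 2 * M) (hUL : U ≤ 2 * L) :
    (A₂ * M) * ((B₂ * L) * (2 * (((K / M + 1) / q + 1) * (39 * (K / L + 1) + 3 * q * ℓ)))) ≤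
      A₂ * B₂ * (1000 * ℓ * (K ^ 2 / q + K * N / U + N * q)) := by
  have hq0 : 0 < q := by linarith
  have hM4 : M ≤ 4 * (N / U) := by
    rw [mul_div_assoc', le_div_iff₀ hU]
    nlinarith
  have hL4 : L ≤ 4 * (N / U) := by
    rw [mul_div_assoc', le_div_iff₀ hU]
    nlinarith
  have e : (A₂ * M) * ((B₂ * L) * (2 * (((K / M + 1) / q + 1) * (39 * (K / L + 1) + 3 * q * ℓ)))) =
      A₂ * B₂ * (2 * ((K * L / q + M * L / q + M * L) * (39 * (K / L + 1) + 3 * q * ℓ))) := by
    field_simp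
  rw [e]
  apply mul_le_mul_of_nonneg_left _ (by positivity)
  have h1 : M * L / q ≤ M * L := div_le_self (by positivity) hq
  have h2 : 39 * (K / L + 1) + 3 * q * ℓ ≤ 39 * (K / L) + 42 * (q * ℓ) := by nlinarith [mul_le_mul hq hℓ (by norm_num) (by linarith)]
  have h3 : (K * L / q + M * L / q + M * L) * (39 * (K / L + 1) + 3 * q * ℓ) ≤
      (K * L / q + 2 * (M * L)) * (39 * (K / L) + 42 * (q * ℓ)) := by
    apply mul_le_mul _ h2 (by positivity) (by positivity)
    linarith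
  have h4 : (K * L / q + 2 * (M * L)) * (39 * (K / L) + 42 * (q * ℓ)) =
      39 * (K ^ 2 / q) + 42 * (K * L * ℓ) + 78 * (K * M) + 84 * (M * L * (q * ℓ)) := by
    field_simp
    ring
  have h5 : K * L * ℓ ≤ 4 * (K * N / U) * ℓ := by
    apply mul_le_mul_of_nonneg_right _ (by linarith)
    calc K * L ≤ K * (4 * (N / U)) := mul_le_mul_of_nonneg_left hL4 hK
      _ = 4 * (K * N / U) := by ring
  have h6 : K * M ≤ 4 * (K * N / U) * ℓ := by
    have h7 : K * M ≤ 4 * (K * N / U) := by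
      calc K * M ≤ K * (4 * (N / U)) := mul_le_mul_of_nonneg_left hM4 hK
        _ = 4 * (K * N / U) := by ring
    have h8 : 0 ≤ 4 * (K * N / U) := by positivity
    nlinarith
  have h7 : M * L * (q * ℓ) ≤ 2 * N * (q * ℓ) := mul_le_mul_of_nonneg_right hML (by positivity)
  have h8 : K ^ 2 / q ≤ K ^ 2 / q * ℓ := le_mul_of_one_le_right (by positivity) hℓ
  have h9 : 0 ≤ K ^ 2 / q * ℓ := by positivity
  have h10 : 0 ≤ K * N / U * ℓ := by positivity
  have h11 : 0 ≤ N * q * ℓ := by positivity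
  calc _ ≤ 2 * (39 * (K ^ 2 / q) + 42 * (K * L * ℓ) + 78 * (K * M) + 84 * (M * L * (q * ℓ))) := by
        rw [← h4]; linarith
    _ ≤ _ := by nlinarith

/-- one window -/
theorem win_lin {q : ℕ} (hq : 1 ≤ q) {c : ℤ} (hcop : IsCoprime c (q : ℤ)) {α : ℝ}
    (hα : |α - c / q| ≤ 1 / (q : ℝ) ^ 2) (N N' U H : ℕ) (hN : 1 ≤ N) (hNN' : N ≤ N') (hN' : N' ≤ 2 * N)
    (hU : 1 ≤ U) (hUN : U * U ≤ N) (hUH : U * U ≤ H) (hH : N' ≤ N + H) :
    ‖∑ n ∈ Ioc N N', ((ArithmeticFunction.vonMangoldt n : ℝ) : ℂ) * ee ((n : ℝ) * α)‖ ≤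
      8 * (1 + Real.log (4 * N)) ^ 5 * Real.sqrt (1000 * (1 + Real.log q) * ((H : ℝ) ^ 2 / q + H * N / U + N * q)) +
      3 * (1 + Real.log (4 * N)) * (600 * (Nat.log 2 (U * U) + 1 : ℝ) * ((H : ℝ) / q + (U * U : ℕ) + q) * (1 + Real.log q)) := by
  have hq0 : (0 : ℝ) < q := by exact_mod_cast hq
  have hq1 : (1 : ℝ) ≤ q := by exact_mod_cast hq
  have hlq : 0 ≤ Real.log q := Real.log_nonneg hq1
  have hN0 : (1 : ℝ) ≤ N := by exact_mod_cast hN
  have hU0 : (0 : ℝ) < U := by exact_mod_cast hU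
  have hlog4N : 0 ≤ Real.log (4 * (N : ℝ)) := Real.log_nonneg (by linarith)
  have hUU : 1 ≤ U * U := Nat.mul_pos hU hU
  have hKH : ((N' - N : ℕ) : ℝ) ≤ H := by exact_mod_cast (by omega : N' - N ≤ H)
  have hKN : (N : ℝ) + ((N' - N : ℕ) : ℝ) = N' := by
    rw [Nat.cast_sub hNN']; ring
  -- only the `m ≤ U ^ 2` matter
  have key := vaughan_gen (fun n => ee ((n : ℝ) * α)) N N' U hN hNN' hN' hU hUN
    (fun m => KK (2 * H / m) (m * α)) (Real.sqrt (1000 * (1 + Real.log q) * ((H : ℝ) ^ 2 / q + H * N / U + N * q)))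
    (Real.sqrt_nonneg _) (fun m => KK_nonneg (by positivity) _) (by
      intro m hm b hb
      rw [mem_Icc] at hm
      have hm0 : (0 : ℝ) < m := by exact_mod_cast (by omega : 0 < m)
      have hmH : (m : ℝ) ≤ H := by exact_mod_cast (hm.2.trans hUH)
      have e1 : ∀ l ∈ Ioc (N / m) b, ee (((m * l : ℕ) : ℝ) * α) = ee ((l : ℝ) * (m * α)) := by
        intro l _; congr 1; push_cast; ring
      rw [sum_congr rfl e1]
      have e2 : Ioc (N / m) b = Ico (N / m + 1) (b + 1) := by ext x; rw [mem_Ioc, mem_Ico]; omega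
      rw [e2]
      rcases le_or_gt (N / m + 1) (b + 1) with h | h
      · apply geo_bound _ _ h
        push_cast
        have h1 : (b : ℝ) ≤ N' / m := by
          have h2 : (b : ℝ) ≤ ((N' / m : ℕ) : ℝ) := by exact_mod_cast hb
          exact h2.trans Nat.cast_div_le
        have h5 : (N : ℝ) / m - 1 ≤ ((N / m : ℕ) : ℝ) := by
          have h6 : (N : ℝ) / m < ((N / m : ℕ) : ℝ) + 1 := by
            rw [div_lt_iff₀ hm0]
            have h7 : N < (N / m + 1) * m := by
              have := Nat.div_add_mod N m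
              have := Nat.mod_lt N (by omega : m > 0)
              nlinarith
            exact_mod_cast h7
          linarith
        have h8 : (N' : ℝ) / m - N / m ≤ H / m := by
          rw [← sub_div]
          apply div_le_div_of_nonneg_right _ hm0.le
          linarith
        have h9 : 1 ≤ (H : ℝ) / m := by
          rw [le_div_iff₀ hm0]; linarith
        have h10 : 2 * (H : ℝ) / m = H / m + H / m := by ring
        rw [h10]
        linarith
      · rw [Ico_eq_empty_of_le h.le, sum_empty, norm_zero]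
        exact KK_nonneg (by positivity) _) (by
      intro a b A₂ B₂ hA0 hB0 M L hM hL hM2 hL2 hML hA hB
      have h1 := typeII_win hq hcop hα N N' M L hM hL hNN' a b
      refine h1.trans ?_
      rw [Real.sq_sqrt (by positivity)]
      have hM0 : (0 : ℝ) < M := by exact_mod_cast hM
      have hL0 : (0 : ℝ) < L := by exact_mod_cast hL
      have hMLr : (M : ℝ) * L ≤ 2 * N := by exact_mod_cast hML.trans hN'
      have hUM : (U : ℝ) ≤ 2 * M := by exact_mod_cast hM2.le
      have hUL : (U : ℝ) ≤ 2 * L := by exact_mod_cast hL2.le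
      have h2 : (∑ m ∈ Ioc M (2 * M), ‖a m‖ ^ 2) * ((∑ l ∈ Ioc L (2 * L), ‖b l‖ ^ 2) *
            (2 * (((((N' - N : ℕ) : ℝ) / M + 1) / q + 1) *
              (39 * (((N' - N : ℕ) : ℝ) / L + 1) + 3 * q * (1 + Real.log q))))) ≤
          (A₂ * M) * ((B₂ * L) * (2 * ((((H : ℝ) / M + 1) / q + 1) *
              (39 * ((H : ℝ) / L + 1) + 3 * q * (1 + Real.log q))))) := by
        gcongr
      refine h2.trans ?_
      exact alg_II M L H U N q (1 + Real.log q) A₂ B₂ hM0 hL0 (Nat.cast_nonneg _) hU0 (by linarith) hq1 (by linarith)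
        hA0 hB0 hMLr hUM hUL)
  refine key.trans ?_
  apply add_le_add le_rfl
  apply mul_le_mul_of_nonneg_left _ (by positivity)
  exact typeI_lin hq hcop hα H (U * U) (hUU.trans hUH) hUU

end Pool.Agent.H79.V
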